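import Mathlib

/-!
Partial isomorphisms as graph-like subgroups of a product, and multiplicativity of
`|End|`, `|PIso|` over direct products of coprime order.
-/

namespace H130

open Function

/-- Graph-like subgroups of a product: those meeting both factors trivially. -/
def GLike {G H : Type*} [Group G] [Group H] (S : Subgroup (G × H)) : Prop :=
  (∀ x : G, (x, 1) ∈ S → x = 1) ∧ (∀ y : H, (1, y) ∈ S → y = 1)

section graph
variable {G H : Type*} [Group G] [Group H]

/-- the graph of a partial isomorphism -/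
def pgraph (t : Σ (A : Subgroup G) (B : Subgroup H), (A ≃* B)) : Subgroup (G × H) :=
  (t.1.subtype.prod (t.2.1.subtype.comp t.2.2.toMonoidHom)).range

lemma mem_pgraph (t : Σ (A : Subgroup G) (B : Subgroup H), (A ≃* B)) (x : G) (y : H) :
    (x, y) ∈ pgraph t ↔ ∃ a : t.1, (a : G) = x ∧ ((t.2.2 a : t.2.1) : H) = y := by
  unfold pgraph
  rw [MonoidHom.mem_range]
  constructor
  · rintro ⟨a, ha⟩
    refine ⟨a, ?_, ?_⟩
    · exact congrArg Prod.fst ha
    · exact congrArg Prod.snd ha
  · rintro ⟨a, h1, h2⟩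
    exact ⟨a, Prod.ext h1 h2⟩

lemma pgraph_glike (t : Σ (A : Subgroup G) (B : Subgroup H), (A ≃* B)) : GLike (pgraph t) := by
  constructor
  · intro x hx
    rw [mem_pgraph] at hx
    obtain ⟨a, h1, h2⟩ := hx
    have : t.2.2 a = 1 := Subtype.ext h2
    have h3 : a = 1 := by
      rwa [MulEquiv.map_eq_one_iff] at this
    rw [← h1, h3]; rfl
  · intro y hy
    rw [mem_pgraph] at hy
    obtain ⟨a, h1, h2⟩ := hy
    have : a = 1 := Subtype.ext h1
    rw [← h2, this, map_one]; rfl

lemma pgraph_inj : Injective (fun t : (Σ (A : Subgroup G) (B : Subgroup H), (A ≃* B)) => pgraph t) := by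
  rintro ⟨A, B, e⟩ ⟨A', B', e'⟩ h
  have hm : ∀ x y, (x, y) ∈ pgraph (⟨A, B, e⟩ : Σ (A : Subgroup G) (B : Subgroup H), (A ≃* B)) ↔
      (x, y) ∈ pgraph (⟨A', B', e'⟩ : Σ (A : Subgroup G) (B : Subgroup H), (A ≃* B)) := by
    intro x y
    simp only at h
    rw [h]
  simp only [mem_pgraph] at hm
  have hA : A = A' := by
    ext x
    constructor
    · intro hx
      obtain ⟨a, h1, _⟩ := (hm x (e ⟨x, hx⟩)).1 ⟨⟨x, hx⟩, rfl, rfl⟩
      rw [← h1]; exact a.2
    · intro hx
      obtain ⟨a, h1, _⟩ := (hm x (e' ⟨x, hx⟩)).2 ⟨⟨x, hx⟩, rfl, rfl⟩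
      rw [← h1]; exact a.2
  have hB : B = B' := by
    ext y
    constructor
    · intro hy
      obtain ⟨a, _, h2⟩ := (hm (e.symm ⟨y, hy⟩) y).1 ⟨e.symm ⟨y, hy⟩, rfl, by simp⟩
      rw [← h2]; exact (e' a).2
    · intro hy
      obtain ⟨a, _, h2⟩ := (hm (e'.symm ⟨y, hy⟩) y).2 ⟨e'.symm ⟨y, hy⟩, rfl, by simp⟩
      rw [← h2]; exact (e a).2
  subst hA
  subst hB
  have he : e = e' := by
    ext a
    obtain ⟨a', h1, h2⟩ := (hm a (e a)).1 ⟨a, rfl, rfl⟩
    have : a' = a := Subtype.ext h1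
    rw [this] at h2
    exact h2.symm
  rw [he]

lemma pgraph_surj (S : Subgroup (G × H)) (hS : GLike S) :
    ∃ t : (Σ (A : Subgroup G) (B : Subgroup H), (A ≃* B)), pgraph t = S := by
  let f1 : S →* G := (MonoidHom.fst G H).comp S.subtype
  let f2 : S →* H := (MonoidHom.snd G H).comp S.subtype
  have hf1 : Injective f1 := by
    rw [injective_iff_map_eq_one]
    rintro ⟨⟨x, y⟩, hxy⟩ h
    have hx : x = 1 := h
    subst hx
    have := hS.2 y hxy
    subst this
    rfl
  have hf2 : Injective f2 := by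
    rw [injective_iff_map_eq_one]
    rintro ⟨⟨x, y⟩, hxy⟩ h
    have hy : y = 1 := h
    subst hy
    have := hS.1 x hxy
    subst this
    rfl
  let e1 : S ≃* f1.range := MonoidHom.ofInjective hf1
  let e2 : S ≃* f2.range := MonoidHom.ofInjective hf2
  refine ⟨⟨f1.range, f2.range, e1.symm.trans e2⟩, ?_⟩
  ext ⟨x, y⟩
  rw [mem_pgraph]
  constructor
  · rintro ⟨a, h1, h2⟩
    obtain ⟨s, rfl⟩ := e1.surjective a
    have h3 : f1 s = x := h1
    have h4 : f2 s = y := by
      rw [← h2]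
      simp only [MulEquiv.trans_apply, MulEquiv.symm_apply_apply]
      rfl
    have : (s : G × H) = (x, y) := Prod.ext h3 h4
    rw [← this]; exact s.2
  · intro h
    refine ⟨e1 ⟨(x, y), h⟩, rfl, ?_⟩
    simp only [MulEquiv.trans_apply, MulEquiv.symm_apply_apply]
    rfl

theorem card_piso (G H : Type*) [Group G] [Group H] :
    Nat.card (Σ (A : Subgroup G) (B : Subgroup H), (A ≃* B)) =
      Nat.card {S : Subgroup (G × H) // GLike S} := by
  apply Nat.card_congr
  refine Equiv.ofBijective (fun t => ⟨pgraph t, pgraph_glike t⟩) ⟨?_, ?_⟩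
  · intro t t' h
    exact pgraph_inj (congrArg Subtype.val h)
  · rintro ⟨S, hS⟩
    obtain ⟨t, ht⟩ := pgraph_surj S hS
    exact ⟨t, Subtype.ext ht⟩

end graph

section coprime
variable {G H : Type*} [Group G] [Group H] [Finite G] [Finite H]

lemma exists_pow_left (hc : Nat.Coprime (Nat.card G) (Nat.card H)) :
    ∃ n : ℕ, ∀ (x : G) (y : H), x ^ n = x ∧ y ^ n = 1 := by
  obtain ⟨n, h1, h2⟩ := Nat.chineseRemainder hc 1 0
  refine ⟨n, fun x y => ⟨?_, ?_⟩⟩
  · have h3 : n ≡ 1 [MOD orderOf x] := h1.of_dvd (orderOf_dvd_natCard x)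
    calc x ^ n = x ^ 1 := (pow_eq_pow_iff_modEq).2 h3
      _ = x := pow_one x
  · have h3 : n ≡ 0 [MOD orderOf y] := h2.of_dvd (orderOf_dvd_natCard y)
    calc y ^ n = y ^ 0 := (pow_eq_pow_iff_modEq).2 h3
      _ = 1 := pow_zero y

lemma hom_trivial (hc : Nat.Coprime (Nat.card G) (Nat.card H)) (f : G →* H) (x : G) : f x = 1 := by
  obtain ⟨n, hn⟩ := exists_pow_left hc
  have h1 := (hn x (f x)).1
  have h2 := (hn x (f x)).2
  calc f x = f (x ^ n) := by rw [h1]
    _ = (f x) ^ n := map_pow f x n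
    _ = 1 := h2

/-- Endomorphisms of a coprime product. -/
theorem card_end_prod (hc : Nat.Coprime (Nat.card G) (Nat.card H)) :
    Nat.card ((G × H) →* (G × H)) = Nat.card (G →* G) * Nat.card (H →* H) := by
  rw [← Nat.card_prod]
  apply Nat.card_congr
  refine
    { toFun := fun f => (((MonoidHom.fst G H).comp f).comp (MonoidHom.inl G H),
        ((MonoidHom.snd G H).comp f).comp (MonoidHom.inr G H))
      invFun := fun p => MonoidHom.prodMap p.1 p.2
      left_inv := ?_
      right_inv := ?_ }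
  · intro f
    apply MonoidHom.ext
    rintro ⟨x, y⟩
    have h1 : ∀ x : G, (f (x, 1)).2 = 1 := fun x =>
      hom_trivial hc (((MonoidHom.snd G H).comp f).comp (MonoidHom.inl G H)) x
    have h2 : ∀ y : H, (f (1, y)).1 = 1 := fun y =>
      hom_trivial hc.symm (((MonoidHom.fst G H).comp f).comp (MonoidHom.inr G H)) y
    have h3 : f (x, y) = f (x, 1) * f (1, y) := by
      rw [← map_mul]; simp
    apply Prod.ext
    · simp only [MonoidHom.prodMap_def, MonoidHom.prod_apply, MonoidHom.comp_apply,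
        MonoidHom.coe_fst, MonoidHom.coe_snd, MonoidHom.inl_apply, MonoidHom.inr_apply]
      rw [h3, Prod.fst_mul, h2, mul_one]
    · simp only [MonoidHom.prodMap_def, MonoidHom.prod_apply, MonoidHom.comp_apply,
        MonoidHom.coe_fst, MonoidHom.coe_snd, MonoidHom.inl_apply, MonoidHom.inr_apply]
      rw [h3, Prod.snd_mul, h1, one_mul]
  · rintro ⟨f, g⟩
    apply Prod.ext
    · apply MonoidHom.ext
      intro x
      simp [MonoidHom.prodMap_def]
    · apply MonoidHom.ext
      intro x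
      simp [MonoidHom.prodMap_def]

/-- combine two subgroups -/
def comb (S : Subgroup (G × G)) (T : Subgroup (H × H)) : Subgroup ((G × H) × (G × H)) where
  carrier := {u | (u.1.1, u.2.1) ∈ S ∧ (u.1.2, u.2.2) ∈ T}
  mul_mem' := by
    rintro a b ⟨h1, h2⟩ ⟨h3, h4⟩
    exact ⟨S.mul_mem h1 h3, T.mul_mem h2 h4⟩
  one_mem' := ⟨S.one_mem, T.one_mem⟩
  inv_mem' := by
    rintro a ⟨h1, h2⟩
    exact ⟨S.inv_mem h1, T.inv_mem h2⟩

omit [Finite G] [Finite H] in
lemma mem_comb (S : Subgroup (G × G)) (T : Subgroup (H × H)) (a c : G) (b d : H) :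
    ((a, b), (c, d)) ∈ comb S T ↔ (a, c) ∈ S ∧ (b, d) ∈ T := Iff.rfl

omit [Finite G] [Finite H] in
lemma comb_glike {S : Subgroup (G × G)} {T : Subgroup (H × H)} (hS : GLike S) (hT : GLike T) :
    GLike (comb S T) := by
  constructor
  · rintro ⟨a, b⟩ h
    have h' : (a, 1) ∈ S ∧ (b, 1) ∈ T := h
    rw [hS.1 a h'.1, hT.1 b h'.2]; rfl
  · rintro ⟨a, b⟩ h
    have h' : (1, a) ∈ S ∧ (1, b) ∈ T := h
    rw [hS.2 a h'.1, hT.2 b h'.2]; rfl

/-- left part -/
def leftPart (U : Subgroup ((G × H) × (G × H))) : Subgroup (G × G) :=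
  U.comap (((MonoidHom.inl G H).comp (MonoidHom.fst G G)).prod
    ((MonoidHom.inl G H).comp (MonoidHom.snd G G)))

/-- right part -/
def rightPart (U : Subgroup ((G × H) × (G × H))) : Subgroup (H × H) :=
  U.comap (((MonoidHom.inr G H).comp (MonoidHom.fst H H)).prod
    ((MonoidHom.inr G H).comp (MonoidHom.snd H H)))

omit [Finite G] [Finite H] in
lemma mem_leftPart (U : Subgroup ((G × H) × (G × H))) (a c : G) :
    (a, c) ∈ leftPart U ↔ ((a, 1), (c, 1)) ∈ U := Iff.rfl

omit [Finite G] [Finite H] in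
lemma mem_rightPart (U : Subgroup ((G × H) × (G × H))) (b d : H) :
    (b, d) ∈ rightPart U ↔ ((1, b), (1, d)) ∈ U := Iff.rfl

omit [Finite G] [Finite H] in
lemma leftPart_glike {U : Subgroup ((G × H) × (G × H))} (hU : GLike U) : GLike (leftPart U) := by
  constructor
  · intro a h
    have h' : ((a, 1), ((1 : G), (1 : H))) ∈ U := h
    have := hU.1 (a, 1) h'
    exact congrArg Prod.fst this
  · intro a h
    have h' : (((1 : G), (1 : H)), (a, 1)) ∈ U := h
    have := hU.2 (a, 1) h'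
    exact congrArg Prod.fst this

omit [Finite G] [Finite H] in
lemma rightPart_glike {U : Subgroup ((G × H) × (G × H))} (hU : GLike U) : GLike (rightPart U) := by
  constructor
  · intro a h
    have h' : ((1, a), ((1 : G), (1 : H))) ∈ U := h
    have := hU.1 (1, a) h'
    exact congrArg Prod.snd this
  · intro a h
    have h' : (((1 : G), (1 : H)), (1, a)) ∈ U := h
    have := hU.2 (1, a) h'
    exact congrArg Prod.snd this

lemma comb_parts (hc : Nat.Coprime (Nat.card G) (Nat.card H)) (U : Subgroup ((G × H) × (G × H))) :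
    comb (leftPart U) (rightPart U) = U := by
  ext ⟨⟨a, b⟩, ⟨c, d⟩⟩
  rw [mem_comb, mem_leftPart, mem_rightPart]
  constructor
  · rintro ⟨h1, h2⟩
    have := U.mul_mem h1 h2
    simpa using this
  · intro h
    obtain ⟨n, hn⟩ := exists_pow_left hc
    obtain ⟨m, hm⟩ := exists_pow_left hc.symm
    constructor
    · have := U.pow_mem h n
      have e : (((a, b), (c, d)) : (G × H) × (G × H)) ^ n = ((a, 1), (c, 1)) := by
        rw [Prod.pow_mk, Prod.pow_mk, Prod.pow_mk, (hn a b).1, (hn a b).2, (hn c d).1, (hn c d).2]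
      rwa [e] at this
    · have := U.pow_mem h m
      have e : (((a, b), (c, d)) : (G × H) × (G × H)) ^ m = ((1, b), (1, d)) := by
        rw [Prod.pow_mk, Prod.pow_mk, Prod.pow_mk, (hm b a).1, (hm b a).2, (hm d c).1, (hm d c).2]
      rwa [e] at this

omit [Finite G] [Finite H] in
lemma leftPart_comb (S : Subgroup (G × G)) (T : Subgroup (H × H)) : leftPart (comb S T) = S := by
  ext ⟨a, c⟩
  rw [mem_leftPart, mem_comb]
  exact ⟨fun h => h.1, fun h => ⟨h, T.one_mem⟩⟩

omit [Finite G] [Finite H] in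
lemma rightPart_comb (S : Subgroup (G × G)) (T : Subgroup (H × H)) : rightPart (comb S T) = T := by
  ext ⟨a, c⟩
  rw [mem_rightPart, mem_comb]
  exact ⟨fun h => h.2, fun h => ⟨S.one_mem, h⟩⟩

theorem card_glike_prod (hc : Nat.Coprime (Nat.card G) (Nat.card H)) :
    Nat.card {U : Subgroup ((G × H) × (G × H)) // GLike U} =
      Nat.card {S : Subgroup (G × G) // GLike S} * Nat.card {T : Subgroup (H × H) // GLike T} := by
  rw [← Nat.card_prod]
  apply Nat.card_congr
  exact
    { toFun := fun U => (⟨leftPart U.1, leftPart_glike U.2⟩, ⟨rightPart U.1, rightPart_glike U.2⟩)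
      invFun := fun p => ⟨comb p.1.1 p.2.1, comb_glike p.1.2 p.2.2⟩
      left_inv := fun U => Subtype.ext (comb_parts hc U.1)
      right_inv := fun p => Prod.ext (Subtype.ext (leftPart_comb _ _)) (Subtype.ext (rightPart_comb _ _)) }

end coprime

/-- bookkeeping predicate: there is a finite nonabelian group of order `n` with `e` endomorphisms
and `q` partial isomorphisms (counted through their graphs). -/
def Good (n e q : ℕ) : Prop :=
  ∃ (G : Type) (_ : Group G) (_ : Finite G), (∃ a b : G, a * b ≠ b * a) ∧ Nat.card G = n ∧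
    Nat.card (G →* G) = e ∧ Nat.card {S : Subgroup (G × G) // GLike S} = q

theorem Good.mul {n e q n' e' q' : ℕ} (h : Good n e q) (h' : Good n' e' q')
    (hc : Nat.Coprime n n') : Good (n * n') (e * e') (q * q') := by
  obtain ⟨G, _, _, ⟨a, b, hab⟩, h1, h2, h3⟩ := h
  obtain ⟨H, _, _, _, h1', h2', h3'⟩ := h'
  have hcc : Nat.Coprime (Nat.card G) (Nat.card H) := by rw [h1, h1']; exact hc
  refine ⟨G × H, inferInstance, inferInstance, ⟨(a, 1), (b, 1), ?_⟩, ?_, ?_, ?_⟩
  · intro h
    exact hab (congrArg Prod.fst h)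
  · rw [Nat.card_prod, h1, h1']
  · rw [card_end_prod hcc, h2, h2']
  · rw [card_glike_prod hcc, h3, h3']

end H130
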