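import Mathlib
import Pool.Agent.Helper130_piso.Basic

/-!
A Baer type correspondence for class two groups of odd order: the group law
`x * y = x + y + [x, y]` on an additive group with an alternating class two bracket.
-/

namespace H130

open Function

/-- additive group with an alternating biadditive bracket of class two -/
structure LieD (B : Type*) [AddCommGroup B] where
  br : B →+ B →+ B
  alt : ∀ x, br x x = 0
  nil : ∀ x y z, br (br x y) z = 0

namespace LieD

variable {B : Type*} [AddCommGroup B] (L : LieD B)

lemma anti (x y : B) : L.br x y = - L.br y x := by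
  have h := L.alt (x + y)
  simp only [map_add, AddMonoidHom.add_apply, L.alt, zero_add, add_zero] at h
  rw [add_comm] at h
  exact eq_neg_of_add_eq_zero_left h

lemma nil' (x y z : B) : L.br z (L.br x y) = 0 := by
  rw [L.anti, L.nil, neg_zero]

/-- the twisted group -/
structure Grp (L : LieD B) where
  val : B

@[ext] lemma Grp.ext' {L : LieD B} {x y : L.Grp} (h : x.val = y.val) : x = y := by
  cases x; cases y; simp_all

instance : Mul L.Grp := ⟨fun x y => ⟨x.val + y.val + L.br x.val y.val⟩⟩
instance : One L.Grp := ⟨⟨0⟩⟩
instance : Inv L.Grp := ⟨fun x => ⟨-x.val⟩⟩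

lemma mul_val (x y : L.Grp) : (x * y).val = x.val + y.val + L.br x.val y.val := rfl
lemma one_val : (1 : L.Grp).val = 0 := rfl
lemma inv_val (x : L.Grp) : (x⁻¹).val = - x.val := rfl

instance : Group L.Grp :=
  Group.ofLeftAxioms
    (by
      intro x y z
      apply Grp.ext'
      simp only [mul_val, map_add, AddMonoidHom.add_apply, L.nil, L.nil']
      abel)
    (by
      intro x
      apply Grp.ext'
      simp only [mul_val, one_val, map_zero, AddMonoidHom.zero_apply]
      abel)
    (by
      intro x
      apply Grp.ext'
      simp only [mul_val, one_val, inv_val, map_neg, AddMonoidHom.neg_apply, L.alt]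
      abel)

/-- underlying equivalence -/
def eqv : L.Grp ≃ B where
  toFun := Grp.val
  invFun := Grp.mk
  left_inv := fun _ => rfl
  right_inv := fun _ => rfl

lemma eqv_mul (x y : L.Grp) : L.eqv (x * y) = L.eqv x + L.eqv y + L.br (L.eqv x) (L.eqv y) := rfl

instance [Finite B] : Finite L.Grp := Finite.of_equiv B L.eqv.symm

/-- product bracket -/
def prod {B' : Type*} [AddCommGroup B'] (L : LieD B) (L' : LieD B') : LieD (B × B') where
  br := AddMonoidHom.mk' (fun u => ((L.br u.1).comp (AddMonoidHom.fst B B')).prod
      ((L'.br u.2).comp (AddMonoidHom.snd B B'))) (by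
        intro u v
        ext w <;> simp)
  alt := by
    intro u
    simp [L.alt, L'.alt]
  nil := by
    intro u v w
    simp [L.nil, L'.nil]

lemma prod_br {B' : Type*} [AddCommGroup B'] (L : LieD B) (L' : LieD B') (u v : B × B') :
    (L.prod L').br u v = (L.br u.1 v.1, L'.br u.2 v.2) := rfl

/-- closed additive subgroups -/
def Closed (A : AddSubgroup B) : Prop := ∀ x ∈ A, ∀ y ∈ A, L.br x y ∈ A

end LieD

section corr
variable {H B : Type*} [Group H] [AddCommGroup B] (L : LieD B) (e : H ≃ B)
  (he : ∀ x y, e (x * y) = e x + e y + L.br (e x) (e y))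

include he

lemma e_one : e 1 = 0 := by
  have h := he 1 1
  rw [mul_one, L.alt, add_zero] at h
  exact left_eq_add.mp h

lemma e_inv (x : H) : e x⁻¹ = - e x := by
  have h := he (e.symm (- e x)) x
  have h0 : L.br (-(e x)) (e x) = 0 := by
    rw [map_neg, AddMonoidHom.neg_apply, L.alt, neg_zero]
  rw [Equiv.apply_symm_apply, h0, add_zero,
    neg_add_cancel, ← e_one L e he] at h
  have h2 := e.injective h
  rw [mul_eq_one_iff_eq_inv] at h2
  rw [← h2, Equiv.apply_symm_apply]

lemma e_pow (x : H) (n : ℕ) : e (x ^ n) = n • e x := by
  induction n with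
  | zero => rw [pow_zero, zero_nsmul, e_one L e he]
  | succ n ih =>
    rw [pow_succ, he, ih, map_nsmul, AddMonoidHom.nsmul_apply, L.alt, smul_zero, add_zero,
      succ_nsmul]

lemma e_comm (x y : H) : e (x * y * x⁻¹ * y⁻¹) = 2 • L.br (e x) (e y) := by
  rw [he, he, he, e_inv L e he, e_inv L e he]
  simp only [map_add, map_neg, AddMonoidHom.add_apply, AddMonoidHom.neg_apply, L.alt, L.nil,
    add_zero]
  rw [L.anti (e y) (e x)]
  abel_nf
  simp

variable (m : ℕ) (hm : ∀ b : B, m • (2 • b) = b)
include hm

lemma e_add (x y : H) :
    e (x * y * ((x * y * x⁻¹ * y⁻¹) ^ m)⁻¹) = e x + e y := by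
  have h1 : e ((x * y * x⁻¹ * y⁻¹) ^ m) = L.br (e x) (e y) := by
    rw [e_pow L e he, e_comm L e he, hm]
  rw [he, e_inv L e he, h1, he]
  simp only [map_neg, L.nil', neg_zero, add_zero]
  abel

/-- Subgroups correspond to closed additive subgroups. -/
def subEquiv : Subgroup H ≃ {A : AddSubgroup B // L.Closed A} where
  toFun S := ⟨{ carrier := {b | e.symm b ∈ S}
                zero_mem' := by
                  show e.symm 0 ∈ S
                  rw [← e_one L e he, Equiv.symm_apply_apply]
                  exact S.one_mem
                neg_mem' := by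
                  intro b hb
                  have hb' : e.symm b ∈ S := hb
                  show e.symm (-b) ∈ S
                  have : e.symm (-b) = (e.symm b)⁻¹ := by
                    rw [Equiv.symm_apply_eq, e_inv L e he, Equiv.apply_symm_apply]
                  rw [this]; exact S.inv_mem hb'
                add_mem' := by
                  intro a b ha hb
                  have ha' : e.symm a ∈ S := ha
                  have hb' : e.symm b ∈ S := hb
                  show e.symm (a + b) ∈ S
                  have h := e_add L e he m hm (e.symm a) (e.symm b)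
                  rw [Equiv.apply_symm_apply, Equiv.apply_symm_apply] at h
                  rw [← h, Equiv.symm_apply_apply]
                  have h1 := S.mul_mem ha' hb'
                  have h2 := S.mul_mem (S.mul_mem h1 (S.inv_mem ha')) (S.inv_mem hb')
                  exact S.mul_mem h1 (S.inv_mem (S.pow_mem h2 m)) }, by
              intro a ha b hb
              have ha' : e.symm a ∈ S := ha
              have hb' : e.symm b ∈ S := hb
              show e.symm (L.br a b) ∈ S
              have h1 : e (((e.symm a) * (e.symm b) * (e.symm a)⁻¹ * (e.symm b)⁻¹) ^ m) =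
                  L.br a b := by
                rw [e_pow L e he, e_comm L e he, hm, Equiv.apply_symm_apply,
                  Equiv.apply_symm_apply]
              rw [← h1, Equiv.symm_apply_apply]
              exact S.pow_mem (S.mul_mem (S.mul_mem (S.mul_mem ha' hb') (S.inv_mem ha'))
                (S.inv_mem hb')) m⟩
  invFun A := { carrier := {x | e x ∈ A.1}
                one_mem' := by
                  show e 1 ∈ A.1
                  rw [e_one L e he]; exact A.1.zero_mem
                inv_mem' := by
                  intro x hx
                  have hx' : e x ∈ A.1 := hx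
                  show e x⁻¹ ∈ A.1
                  rw [e_inv L e he]; exact A.1.neg_mem hx'
                mul_mem' := by
                  intro x y hx hy
                  have hx' : e x ∈ A.1 := hx
                  have hy' : e y ∈ A.1 := hy
                  show e (x * y) ∈ A.1
                  rw [he]
                  exact A.1.add_mem (A.1.add_mem hx' hy') (A.2 _ hx' _ hy') }
  left_inv S := by
    ext x
    show e.symm (e x) ∈ S ↔ x ∈ S
    rw [Equiv.symm_apply_apply]
  right_inv A := by
    apply Subtype.ext
    ext b
    show e (e.symm b) ∈ A.1 ↔ b ∈ A.1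
    rw [Equiv.apply_symm_apply]

lemma mem_subEquiv (S : Subgroup H) (b : B) :
    b ∈ (subEquiv L e he m hm S).1 ↔ e.symm b ∈ S := Iff.rfl

end corr

section homs
variable {H B : Type*} [Group H] [AddCommGroup B] (L : LieD B) (e : H ≃ B)
  (he : ∀ x y, e (x * y) = e x + e y + L.br (e x) (e y))
  {H' B' : Type*} [Group H'] [AddCommGroup B'] (L' : LieD B') (e' : H' ≃ B')
  (he' : ∀ x y, e' (x * y) = e' x + e' y + L'.br (e' x) (e' y))
  (m : ℕ) (hm : ∀ b : B, m • (2 • b) = b) (hm' : ∀ b : B', m • (2 • b) = b)

/-- Group homomorphisms correspond to bracket preserving additive homomorphisms. -/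
def homEquiv : (H →* H') ≃ {g : B →+ B' // ∀ x y, g (L.br x y) = L'.br (g x) (g y)} where
  toFun f := ⟨{ toFun := fun b => e' (f (e.symm b))
                map_zero' := by
                  rw [← e_one L e he, Equiv.symm_apply_apply, map_one, e_one L' e' he']
                map_add' := by
                  intro a b
                  have h := e_add L e he m hm (e.symm a) (e.symm b)
                  rw [Equiv.apply_symm_apply, Equiv.apply_symm_apply] at h
                  rw [← h, Equiv.symm_apply_apply]
                  simp only [map_mul, map_inv, map_pow]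
                  rw [e_add L' e' he' m hm'] }, by
              intro a b
              show e' (f (e.symm (L.br a b))) = L'.br (e' (f (e.symm a))) (e' (f (e.symm b)))
              have h1 : e (((e.symm a) * (e.symm b) * (e.symm a)⁻¹ * (e.symm b)⁻¹) ^ m) =
                  L.br a b := by
                rw [e_pow L e he, e_comm L e he, hm, Equiv.apply_symm_apply,
                  Equiv.apply_symm_apply]
              rw [← h1, Equiv.symm_apply_apply]
              simp only [map_mul, map_inv, map_pow]
              rw [e_pow L' e' he', e_comm L' e' he', hm']⟩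
  invFun g := { toFun := fun x => e'.symm (g.1 (e x))
                map_one' := by
                  rw [e_one L e he, map_zero, ← e_one L' e' he', Equiv.symm_apply_apply]
                map_mul' := by
                  intro x y
                  rw [Equiv.symm_apply_eq, he', Equiv.apply_symm_apply, Equiv.apply_symm_apply,
                    he, map_add, map_add, g.2] }
  left_inv f := by
    ext x
    show e'.symm (e' (f (e.symm (e x)))) = f x
    rw [Equiv.symm_apply_apply, Equiv.symm_apply_apply]
  right_inv g := by
    apply Subtype.ext
    ext b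
    show e' (e'.symm (g.1 (e (e.symm b)))) = g.1 b
    rw [Equiv.apply_symm_apply, Equiv.apply_symm_apply]

end homs

/-- Graph-like additive subgroups of a product. -/
def ALike {X Y : Type*} [AddCommGroup X] [AddCommGroup Y] (S : AddSubgroup (X × Y)) : Prop :=
  (∀ x : X, (x, 0) ∈ S → x = 0) ∧ (∀ y : Y, (0, y) ∈ S → y = 0)

namespace LieD

variable {B : Type*} [AddCommGroup B] (L : LieD B) (m : ℕ) (hm : ∀ b : B, m • (2 • b) = b)

include hm in
theorem card_end : Nat.card (L.Grp →* L.Grp) =
    Nat.card {g : B →+ B // ∀ x y, g (L.br x y) = L.br (g x) (g y)} :=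
  Nat.card_congr (homEquiv L L.eqv L.eqv_mul L L.eqv L.eqv_mul m hm hm)

include hm in
theorem card_glike : Nat.card {S : Subgroup (L.Grp × L.Grp) // GLike S} =
    Nat.card {A : AddSubgroup (B × B) // ALike A ∧ (L.prod L).Closed A} := by
  let e : L.Grp × L.Grp ≃ B × B := Equiv.prodCongr L.eqv L.eqv
  have he : ∀ x y, e (x * y) = e x + e y + (L.prod L).br (e x) (e y) := by
    rintro ⟨x, x'⟩ ⟨y, y'⟩
    rfl
  have hm2 : ∀ b : B × B, m • (2 • b) = b := by
    rintro ⟨a, b⟩
    exact Prod.ext (hm a) (hm b)
  let E := subEquiv (L.prod L) e he m hm2
  have key : ∀ S : Subgroup (L.Grp × L.Grp), GLike S ↔ ALike (E S).1 := by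
    intro S
    constructor
    · intro h
      constructor
      · intro x hx
        have h1 : ((⟨x⟩, 1) : L.Grp × L.Grp) ∈ S := hx
        exact congrArg Grp.val (h.1 ⟨x⟩ h1)
      · intro x hx
        have h1 : ((1, ⟨x⟩) : L.Grp × L.Grp) ∈ S := hx
        exact congrArg Grp.val (h.2 ⟨x⟩ h1)
    · intro h
      constructor
      · intro x hx
        have h1 : ((x.val, 0) : B × B) ∈ (E S).1 := hx
        exact Grp.ext' (h.1 _ h1)
      · intro x hx
        have h1 : ((0, x.val) : B × B) ∈ (E S).1 := hx
        exact Grp.ext' (h.2 _ h1)
  apply Nat.card_congr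
  exact
    { toFun := fun S => ⟨(E S.1).1, (key S.1).1 S.2, (E S.1).2⟩
      invFun := fun A => ⟨E.symm ⟨A.1, A.2.2⟩, by
        rw [key, Equiv.apply_symm_apply]; exact A.2.1⟩
      left_inv := fun S => Subtype.ext (by
        show E.symm ⟨(E S.1).1, _⟩ = S.1
        exact E.symm_apply_apply S.1)
      right_inv := fun A => Subtype.ext (by
        show (E (E.symm ⟨A.1, A.2.2⟩)).1 = A.1
        rw [Equiv.apply_symm_apply]) }

end LieD

end H130
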