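import Mathlib
import Pool.Agent.Helper130_piso.Basic
import Pool.Agent.Helper130_piso.Baer

/-!
The abelian identity: for finite abelian groups the number of partial isomorphisms from `X` to `Y`
equals the number of homomorphisms from `X` to `Y`.
-/

namespace H130

open Function

/-- injective homs -/
abbrev Inj (A H : Type*) [Group A] [Group H] := {f : A →* H // Injective f}

/-- transport of injective homs -/
def injCongr {A A' : Type*} [Group A] [Group A'] (H : Type*) [Group H] (e : A ≃* A') :
    Inj A H ≃ Inj A' H where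
  toFun f := ⟨f.1.comp e.symm.toMonoidHom, f.2.comp e.symm.injective⟩
  invFun f := ⟨f.1.comp e.toMonoidHom, f.2.comp e.injective⟩
  left_inv f := by
    apply Subtype.ext
    ext x
    simp
  right_inv f := by
    apply Subtype.ext
    ext x
    simp

/-- partial injective homs -/
abbrev P1 (G H : Type*) [Group G] [Group H] := Σ A : Subgroup G, Inj A H

def P1congr {G G' : Type*} [Group G] [Group G'] (H : Type*) [Group H] (e : G ≃* G') :
    P1 G H ≃ P1 G' H :=
  Equiv.sigmaCongr (e.mapSubgroup.toEquiv) (fun A => injCongr H (e.subgroupMap A))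

/-- partial isomorphisms versus partial injective homs -/
noncomputable def pisoEquivP1 (G H : Type*) [Group G] [Group H] :
    (Σ (A : Subgroup G) (B : Subgroup H), (A ≃* B)) ≃ P1 G H where
  toFun t := ⟨t.1, ⟨t.2.1.subtype.comp t.2.2.toMonoidHom,
    (Subtype.val_injective).comp t.2.2.injective⟩⟩
  invFun t := ⟨t.1, t.2.1.range, MonoidHom.ofInjective t.2.2⟩
  left_inv t := by
    obtain ⟨A, B, e⟩ := t
    apply pgraph_inj
    ext ⟨x, y⟩
    rw [mem_pgraph, mem_pgraph]
    rfl
  right_inv t := by
    obtain ⟨A, f⟩ := t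
    rfl

/-- homs through the kernel -/
def homEquivQuot (G H : Type*) [CommGroup G] [Group H] :
    (G →* H) ≃ Σ K : Subgroup G, Inj (G ⧸ K) H where
  toFun f := ⟨f.ker, ⟨QuotientGroup.kerLift f, QuotientGroup.kerLift_injective f⟩⟩
  invFun t := t.2.1.comp (QuotientGroup.mk' t.1)
  left_inv f := by
    ext x
    rfl
  right_inv t := by
    obtain ⟨K, f, hf⟩ := t
    have hK : (f.comp (QuotientGroup.mk' K)).ker = K := by
      ext x
      rw [MonoidHom.mem_ker, MonoidHom.comp_apply, ← map_one f, hf.eq_iff]
      simp
    have key : ∀ (K' : Subgroup G) (hK' : K' = K) (g : G ⧸ K' →* H) (hg : Injective g),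
        (∀ x : G, g (QuotientGroup.mk x) = f (QuotientGroup.mk x)) →
        (⟨K', ⟨g, hg⟩⟩ : Σ K : Subgroup G, Inj (G ⧸ K) H) = ⟨K, ⟨f, hf⟩⟩ := by
      intro K' hK' g hg h
      subst hK'
      have : g = f := by
        apply MonoidHom.ext
        intro x
        obtain ⟨x, rfl⟩ := QuotientGroup.mk_surjective x
        exact h x
      subst this
      rfl
    apply key _ hK
    intro x
    rfl

theorem card_hom_eq (G H : Type*) [CommGroup G] [Finite G] [Group H] :
    Nat.card (G →* H) = Nat.card (P1 G H) := by
  have hne : Monoid.exponent G ≠ 0 := Monoid.exponent_ne_zero_of_finite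
  have : NeZero ((Monoid.exponent G : ℕ) : ℂ) := ⟨Nat.cast_ne_zero.2 hne⟩
  have : HasEnoughRootsOfUnity ℂ (Monoid.exponent G) := inferInstance
  have hq : ∀ K : Subgroup G, HasEnoughRootsOfUnity ℂ (Monoid.exponent (G ⧸ K)) := fun K =>
    HasEnoughRootsOfUnity.of_dvd ℂ <| Group.exponent_quotient_dvd K
  let D := CommGroup.subgroupOrderIsoSubgroupMonoidHom G ℂ
  have h1 : ∀ K : Subgroup G, Nonempty (G ⧸ K ≃* (D K).ofDual) := by
    intro K
    have := hq K
    obtain ⟨e⟩ := CommGroup.monoidHom_mulEquiv_of_hasEnoughRootsOfUnity (G ⧸ K) ℂ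
    exact ⟨(e.symm).trans (MonoidHom.domRestrictHomKerEquiv ℂˣ K).symm⟩
  let e1 : (Σ K : Subgroup G, Inj (G ⧸ K) H) ≃ P1 (G →* ℂˣ) H :=
    Equiv.sigmaCongr (D.toEquiv.trans OrderDual.ofDual) (fun K => injCongr H (h1 K).some)
  obtain ⟨e2⟩ := CommGroup.monoidHom_mulEquiv_of_hasEnoughRootsOfUnity G ℂ
  exact Nat.card_congr ((homEquivQuot G H).trans (e1.trans (P1congr H e2)))

/-- The abelian identity. -/
theorem card_glike_comm (G H : Type*) [CommGroup G] [Finite G] [Group H] :
    Nat.card {S : Subgroup (G × H) // GLike S} = Nat.card (G →* H) := by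
  rw [← card_piso, card_hom_eq]
  exact Nat.card_congr (pisoEquivP1 G H)

/-- The abelian identity, additively. -/
theorem card_alike (X Y : Type*) [AddCommGroup X] [Finite X] [AddCommGroup Y] :
    Nat.card {S : AddSubgroup (X × Y) // ALike S} = Nat.card (X →+ Y) := by
  have h1 : Nat.card (X →+ Y) = Nat.card (Multiplicative X →* Multiplicative Y) :=
    Nat.card_congr AddMonoidHom.toMultiplicative
  have : Finite (Multiplicative X) := inferInstanceAs (Finite X)
  rw [h1, ← card_glike_comm (Multiplicative X) (Multiplicative Y)]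
  apply Nat.card_congr
  exact
    { toFun := fun S => ⟨{ carrier := {u | ((u.1.toAdd, u.2.toAdd) : X × Y) ∈ S.1}
                           one_mem' := S.1.zero_mem
                           mul_mem' := fun {a b} ha hb => S.1.add_mem ha hb
                           inv_mem' := fun {a} ha => S.1.neg_mem ha },
        ⟨fun x hx => S.2.1 _ hx, fun y hy => S.2.2 _ hy⟩⟩
      invFun := fun S => ⟨{ carrier := {u | ((Multiplicative.ofAdd u.1, Multiplicative.ofAdd u.2) :
                                Multiplicative X × Multiplicative Y) ∈ S.1}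
                            zero_mem' := S.1.one_mem
                            add_mem' := fun {a b} ha hb => S.1.mul_mem ha hb
                            neg_mem' := fun {a} ha => S.1.inv_mem ha },
        ⟨fun x hx => S.2.1 _ hx, fun y hy => S.2.2 _ hy⟩⟩
      left_inv := fun S => rfl
      right_inv := fun S => rfl }

end H130
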