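import Mathlib
import Pool.Agent.Helper130_piso.Basic
import Pool.Agent.Helper130_piso.Baer
import Pool.Agent.Helper130_piso.Abel

/-!
Core data: an abelian group `B` with a map `w : B → F²`, and the bracket `det (w x) (w y) • c`.
-/

namespace H130

open Function

/-- determinant of two plane vectors -/
def det {p : ℕ} (u v : ZMod p × ZMod p) : ZMod p := u.1 * v.2 - u.2 * v.1

section det
variable {p : ℕ}

lemma det_add_left (u u' v : ZMod p × ZMod p) : det (u + u') v = det u v + det u' v := by
  simp only [det, Prod.fst_add, Prod.snd_add]; ring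

lemma det_add_right (u v v' : ZMod p × ZMod p) : det u (v + v') = det u v + det u v' := by
  simp only [det, Prod.fst_add, Prod.snd_add]; ring

lemma det_self (u : ZMod p × ZMod p) : det u u = 0 := by
  simp only [det]; ring

lemma det_zero_left (v : ZMod p × ZMod p) : det 0 v = 0 := by
  simp [det]

lemma det_zero_right (v : ZMod p × ZMod p) : det v 0 = 0 := by
  simp [det]

end det

/-- core data -/
structure CD (p : ℕ) (B : Type) [AddCommGroup B] where
  w : B →+ ZMod p × ZMod p
  lam : B →+ ZMod p
  ic : ZMod p →+ B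
  ic_inj : Injective ic
  w_ic : ∀ a, w (ic a) = 0
  lam_ic : ∀ a, lam (ic a) = 0
  psmul : ∀ x, p • x = ic (lam x)

namespace CD

variable {p : ℕ} {B : Type} [AddCommGroup B] (C : CD p B)

/-- the bracket -/
def L : LieD B where
  br := AddMonoidHom.mk' (fun x => AddMonoidHom.mk' (fun y => C.ic (det (C.w x) (C.w y)))
    (by intro y y'; rw [map_add, det_add_right, map_add]))
    (by intro x x'; ext y; simp only [AddMonoidHom.mk'_apply, AddMonoidHom.add_apply]
        rw [map_add, det_add_left, map_add])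
  alt := by
    intro x
    simp only [AddMonoidHom.mk'_apply]
    rw [det_self, map_zero]
  nil := by
    intro x y z
    simp only [AddMonoidHom.mk'_apply]
    rw [C.w_ic, det_zero_left, map_zero]

lemma br_eq (x y : B) : C.L.br x y = C.ic (det (C.w x) (C.w y)) := rfl

/-- first isotropy -/
def Iso1 (S : AddSubgroup (B × B)) : Prop := ∀ u ∈ S, ∀ v ∈ S, det (C.w u.1) (C.w v.1) = 0
/-- second isotropy -/
def Iso2 (S : AddSubgroup (B × B)) : Prop := ∀ u ∈ S, ∀ v ∈ S, det (C.w u.2) (C.w v.2) = 0

lemma closed_of_iso {S : AddSubgroup (B × B)} (h1 : C.Iso1 S) (h2 : C.Iso2 S) :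
    (C.L.prod C.L).Closed S := by
  intro x hx y hy
  rw [LieD.prod_br, br_eq, br_eq, h1 x hx y hy, h2 x hx y hy, map_zero]
  exact S.zero_mem

/-- functionals for the lines -/
def phi (i : Option (ZMod p)) : ZMod p × ZMod p →+ ZMod p :=
  match i with
  | none => AddMonoidHom.fst _ _
  | some a => AddMonoidHom.snd _ _ - (AddMonoidHom.mulLeft a).comp (AddMonoidHom.fst _ _)

lemma phi_none (w : ZMod p × ZMod p) : phi none w = w.1 := rfl
lemma phi_some (a : ZMod p) (w : ZMod p × ZMod p) : phi (some a) w = w.2 - a * w.1 := rfl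

variable [Fact p.Prime]

lemma phi_exists (w : ZMod p × ZMod p) : ∃ i, phi i w = 0 := by
  by_cases h : w.1 = 0
  · exact ⟨none, h⟩
  · refine ⟨some (w.2 / w.1), ?_⟩
    rw [phi_some, div_mul_cancel₀ _ h, sub_self]

lemma det_of_phi {i : Option (ZMod p)} {u v : ZMod p × ZMod p} (hu : phi i u = 0)
    (hv : phi i v = 0) : det u v = 0 := by
  cases i with
  | none =>
    rw [phi_none] at hu hv
    simp [det, hu, hv]
  | some a =>
    rw [phi_some, sub_eq_zero] at hu hv
    simp only [det, hu, hv]; ring

lemma phi_unique {i j : Option (ZMod p)} {u : ZMod p × ZMod p} (hu : u ≠ 0) (hi : phi i u = 0)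
    (hj : phi j u = 0) : i = j := by
  cases i with
  | none =>
    cases j with
    | none => rfl
    | some b =>
      exfalso
      rw [phi_none] at hi
      rw [phi_some, hi, mul_zero, sub_zero] at hj
      exact hu (Prod.ext hi hj)
  | some a =>
    cases j with
    | none =>
      exfalso
      rw [phi_none] at hj
      rw [phi_some, hj, mul_zero, sub_zero] at hi
      exact hu (Prod.ext hj hi)
    | some b =>
      rw [phi_some, sub_eq_zero] at hi hj
      have h1 : u.1 ≠ 0 := by
        intro h
        apply hu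
        rw [h, mul_zero] at hi
        exact Prod.ext h hi
      rw [hi] at hj
      rw [mul_right_cancel₀ h1 hj]

lemma phi_of_det {i : Option (ZMod p)} {u v : ZMod p × ZMod p} (hu : u ≠ 0) (hi : phi i u = 0)
    (hd : det u v = 0) : phi i v = 0 := by
  cases i with
  | none =>
    rw [phi_none] at hi ⊢
    simp only [det, hi, zero_mul, zero_sub, neg_eq_zero, mul_eq_zero] at hd
    rcases hd with h | h
    · exact absurd (Prod.ext hi h) hu
    · exact h
  | some a =>
    rw [phi_some, sub_eq_zero] at hi ⊢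
    have h1 : u.1 ≠ 0 := by
      intro h
      apply hu
      rw [h, mul_zero] at hi
      exact Prod.ext h hi
    simp only [det, hi] at hd
    have : u.1 * (v.2 - a * v.1) = 0 := by linear_combination hd
    rcases mul_eq_zero.1 this with h | h
    · exact absurd h h1
    · exact sub_eq_zero.1 h

open Classical in
/-- indicator -/
noncomputable def ind (P : Prop) : ℤ := if P then 1 else 0

lemma ind_true {P : Prop} (h : P) : ind P = 1 := if_pos h
lemma ind_false {P : Prop} (h : ¬ P) : ind P = 0 := if_neg h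
lemma ind_and (P Q : Prop) : ind (P ∧ Q) = ind P * ind Q := by
  by_cases hP : P
  · by_cases hQ : Q
    · rw [ind_true hP, ind_true hQ, ind_true ⟨hP, hQ⟩, mul_one]
    · rw [ind_false hQ, mul_zero, ind_false (fun h => hQ h.2)]
  · rw [ind_false hP, zero_mul, ind_false (fun h => hP h.1)]
lemma ind_congr {P Q : Prop} (h : P ↔ Q) : ind P = ind Q := by
  rw [propext h]

lemma card_ind {α : Type*} [Fintype α] (P : α → Prop) :
    (Nat.card {a // P a} : ℤ) = ∑ a, ind (P a) := by
  classical
  rw [Nat.card_eq_fintype_card, Fintype.card_subtype]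
  unfold ind
  rw [Finset.sum_boole]

/-- the counting lemma for lines -/
lemma line_count (U : Set (ZMod p × ZMod p)) :
    (∑ i : Option (ZMod p), ind (∀ u ∈ U, phi i u = 0)) -
      p * ind (∀ u ∈ U, u = 0) = ind (∀ u ∈ U, ∀ v ∈ U, det u v = 0) := by
  by_cases hz : ∀ u ∈ U, u = 0
  · have h1 : ∀ i : Option (ZMod p), ∀ u ∈ U, phi i u = 0 := by
      intro i u hu
      rw [hz u hu, map_zero]
    have h2 : ∀ u ∈ U, ∀ v ∈ U, det u v = 0 := by
      intro u hu v _
      rw [hz u hu, det_zero_left]
    rw [ind_true hz, ind_true h2]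
    rw [Finset.sum_congr rfl (fun i _ => ind_true (h1 i))]
    rw [Finset.sum_const, Finset.card_univ, Fintype.card_option, ZMod.card]
    simp
  · rw [ind_false hz, mul_zero, sub_zero]
    push Not at hz
    obtain ⟨u0, hu0, hne⟩ := hz
    by_cases hd : ∀ u ∈ U, ∀ v ∈ U, det u v = 0
    · rw [ind_true hd]
      obtain ⟨i0, hi0⟩ := phi_exists u0
      have h1 : ∀ i : Option (ZMod p), (∀ u ∈ U, phi i u = 0) ↔ i = i0 := by
        intro i
        constructor
        · intro h
          exact phi_unique hne (h u0 hu0) hi0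
        · rintro rfl u hu
          exact phi_of_det hne hi0 (hd u0 hu0 u hu)
      rw [Finset.sum_congr rfl (fun i _ => ind_congr (h1 i))]
      rw [Finset.sum_eq_single i0]
      · exact ind_true rfl
      · intro j _ hj
        exact ind_false hj
      · intro h
        exact absurd (Finset.mem_univ _) h
    · rw [ind_false hd]
      apply Finset.sum_eq_zero
      intro i _
      apply ind_false
      intro h
      apply hd
      intro u hu v hv
      exact det_of_phi (h u hu) (h v hv)

/-- graph-like subgroups inside a product of subgroups -/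
theorem card_le_prod [Finite B] (X Y : AddSubgroup B) :
    Nat.card {S : AddSubgroup (B × B) // ALike S ∧ ∀ u ∈ S, u.1 ∈ X ∧ u.2 ∈ Y} =
      Nat.card (X →+ Y) := by
  rw [← card_alike X Y]
  let m : X × Y →+ B × B := (X.subtype.comp (AddMonoidHom.fst X Y)).prod
    (Y.subtype.comp (AddMonoidHom.snd X Y))
  have hm : ∀ u : X × Y, m u = ((u.1 : B), (u.2 : B)) := fun u => rfl
  apply Nat.card_congr
  exact
    { toFun := fun S => ⟨S.1.comap m, by
        constructor
        · intro x hx
          have h1 : (((x : B), 0) : B × B) ∈ S.1 := hx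
          exact Subtype.ext (S.2.1.1 _ h1)
        · intro x hx
          have h1 : ((0, (x : B)) : B × B) ∈ S.1 := hx
          exact Subtype.ext (S.2.1.2 _ h1)⟩
      invFun := fun T => ⟨T.1.map m, by
        refine ⟨⟨?_, ?_⟩, ?_⟩
        · intro x hx
          rw [AddSubgroup.mem_map] at hx
          obtain ⟨⟨a, b⟩, hab, h⟩ := hx
          rw [hm] at h
          have h2 : (b : B) = 0 := congrArg Prod.snd h
          have h3 : b = 0 := Subtype.ext h2
          subst h3
          have := T.2.1 a hab
          rw [this] at h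
          exact (congrArg Prod.fst h).symm
        · intro x hx
          rw [AddSubgroup.mem_map] at hx
          obtain ⟨⟨a, b⟩, hab, h⟩ := hx
          rw [hm] at h
          have h2 : (a : B) = 0 := congrArg Prod.fst h
          have h3 : a = 0 := Subtype.ext h2
          subst h3
          have := T.2.2 b hab
          rw [this] at h
          exact (congrArg Prod.snd h).symm
        · intro u hu
          rw [AddSubgroup.mem_map] at hu
          obtain ⟨⟨a, b⟩, hab, h⟩ := hu
          rw [hm] at h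
          rw [← h]
          exact ⟨a.2, b.2⟩⟩
      left_inv := by
        intro S
        apply Subtype.ext
        ext u
        show u ∈ (S.1.comap m).map m ↔ u ∈ S.1
        rw [AddSubgroup.mem_map]
        constructor
        · rintro ⟨x, hx, rfl⟩
          exact hx
        · intro hu
          have h2 := S.2.2 u hu
          exact ⟨(⟨u.1, h2.1⟩, ⟨u.2, h2.2⟩), hu, rfl⟩
      right_inv := by
        intro T
        apply Subtype.ext
        ext u
        show m u ∈ T.1.map m ↔ u ∈ T.1
        rw [AddSubgroup.mem_map]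
        constructor
        · rintro ⟨x, hx, h⟩
          have : x = u := by
            rw [hm, hm] at h
            exact Prod.ext (Subtype.ext (congrArg Prod.fst h)) (Subtype.ext (congrArg Prod.snd h))
          rwa [← this]
        · intro hu
          exact ⟨u, hu, rfl⟩ }

/-- the subgroup over a line -/
def M (i : Option (ZMod p)) : AddSubgroup B := ((phi i).comp C.w).ker
/-- the centre -/
def Z : AddSubgroup B := C.w.ker

/-- the number of isotropic graphs -/
theorem card_iso [Finite B] :
    (Nat.card {S : AddSubgroup (B × B) // ALike S ∧ C.Iso1 S ∧ C.Iso2 S} : ℤ) =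
      (∑ i : Option (ZMod p), ∑ j : Option (ZMod p), (Nat.card (C.M i →+ C.M j) : ℤ))
      - p * (∑ i : Option (ZMod p), (Nat.card (C.M i →+ C.Z) : ℤ))
      - p * (∑ j : Option (ZMod p), (Nat.card (C.Z →+ C.M j) : ℤ))
      + p * p * (Nat.card (C.Z →+ C.Z) : ℤ) := by
  have : Fintype (AddSubgroup (B × B)) := Fintype.ofFinite _
  let a1 : AddSubgroup B → AddSubgroup (B × B) → ℤ := fun X S => ind (∀ u ∈ S, u.1 ∈ X)
  let a2 : AddSubgroup B → AddSubgroup (B × B) → ℤ := fun X S => ind (∀ u ∈ S, u.2 ∈ X)
  have key1 : ∀ S, (∑ i : Option (ZMod p), a1 (C.M i) S) - p * a1 C.Z S = ind (C.Iso1 S) := by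
    intro S
    have h := line_count (p := p) {x | ∃ u ∈ S, C.w u.1 = x}
    have e1 : ∀ i : Option (ZMod p), (∀ u ∈ S, u.1 ∈ C.M i) ↔
        (∀ x ∈ {x | ∃ u ∈ S, C.w u.1 = x}, phi i x = 0) := by
      intro i
      constructor
      · rintro h x ⟨u, hu, rfl⟩
        exact h u hu
      · intro h u hu
        exact h _ ⟨u, hu, rfl⟩
    have e2 : (∀ u ∈ S, u.1 ∈ C.Z) ↔ (∀ x ∈ {x | ∃ u ∈ S, C.w u.1 = x}, x = 0) := by
      constructor
      · rintro h x ⟨u, hu, rfl⟩
        exact h u hu
      · intro h u hu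
        exact h _ ⟨u, hu, rfl⟩
    have e3 : C.Iso1 S ↔ (∀ x ∈ {x | ∃ u ∈ S, C.w u.1 = x},
        ∀ y ∈ {x | ∃ u ∈ S, C.w u.1 = x}, det x y = 0) := by
      constructor
      · rintro h x ⟨u, hu, rfl⟩ y ⟨v, hv, rfl⟩
        exact h u hu v hv
      · intro h u hu v hv
        exact h _ ⟨u, hu, rfl⟩ _ ⟨v, hv, rfl⟩
    simp only [a1, ind_congr (e1 _), ind_congr e2, ind_congr e3]
    exact h
  have key2 : ∀ S, (∑ i : Option (ZMod p), a2 (C.M i) S) - p * a2 C.Z S = ind (C.Iso2 S) := by
    intro S
    have h := line_count (p := p) {x | ∃ u ∈ S, C.w u.2 = x}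
    have e1 : ∀ i : Option (ZMod p), (∀ u ∈ S, u.2 ∈ C.M i) ↔
        (∀ x ∈ {x | ∃ u ∈ S, C.w u.2 = x}, phi i x = 0) := by
      intro i
      constructor
      · rintro h x ⟨u, hu, rfl⟩
        exact h u hu
      · intro h u hu
        exact h _ ⟨u, hu, rfl⟩
    have e2 : (∀ u ∈ S, u.2 ∈ C.Z) ↔ (∀ x ∈ {x | ∃ u ∈ S, C.w u.2 = x}, x = 0) := by
      constructor
      · rintro h x ⟨u, hu, rfl⟩
        exact h u hu
      · intro h u hu
        exact h _ ⟨u, hu, rfl⟩
    have e3 : C.Iso2 S ↔ (∀ x ∈ {x | ∃ u ∈ S, C.w u.2 = x},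
        ∀ y ∈ {x | ∃ u ∈ S, C.w u.2 = x}, det x y = 0) := by
      constructor
      · rintro h x ⟨u, hu, rfl⟩ y ⟨v, hv, rfl⟩
        exact h u hu v hv
      · intro h u hu v hv
        exact h _ ⟨u, hu, rfl⟩ _ ⟨v, hv, rfl⟩
    simp only [a2, ind_congr (e1 _), ind_congr e2, ind_congr e3]
    exact h
  have hpair : ∀ X Y : AddSubgroup B, (Nat.card (X →+ Y) : ℤ) =
      ∑ S : AddSubgroup (B × B), ind (ALike S) * (a1 X S * a2 Y S) := by
    intro X Y
    rw [← card_le_prod X Y, card_ind]
    apply Finset.sum_congr rfl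
    intro S _
    rw [ind_and]
    congr 1
    rw [← ind_and]
    apply ind_congr
    constructor
    · intro h
      exact ⟨fun u hu => (h u hu).1, fun u hu => (h u hu).2⟩
    · rintro ⟨h1, h2⟩ u hu
      exact ⟨h1 u hu, h2 u hu⟩
  rw [card_ind]
  have e : ∀ S : AddSubgroup (B × B), ind (ALike S ∧ C.Iso1 S ∧ C.Iso2 S) =
      (∑ i : Option (ZMod p), ∑ j : Option (ZMod p),
        ind (ALike S) * (a1 (C.M i) S * a2 (C.M j) S))
      - p * (∑ i : Option (ZMod p), ind (ALike S) * (a1 (C.M i) S * a2 C.Z S))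
      - p * (∑ j : Option (ZMod p), ind (ALike S) * (a1 C.Z S * a2 (C.M j) S))
      + p * p * (ind (ALike S) * (a1 C.Z S * a2 C.Z S)) := by
    intro S
    rw [ind_and, ind_and, ← key1, ← key2]
    have h1 : (∑ i : Option (ZMod p), ∑ j : Option (ZMod p),
        ind (ALike S) * (a1 (C.M i) S * a2 (C.M j) S)) =
        ind (ALike S) * ((∑ i : Option (ZMod p), a1 (C.M i) S) *
          (∑ j : Option (ZMod p), a2 (C.M j) S)) := by
      rw [Finset.sum_mul_sum, Finset.mul_sum]
      apply Finset.sum_congr rfl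
      intro i _
      rw [Finset.mul_sum]
    have h2 : (∑ i : Option (ZMod p), ind (ALike S) * (a1 (C.M i) S * a2 C.Z S)) =
        ind (ALike S) * ((∑ i : Option (ZMod p), a1 (C.M i) S) * a2 C.Z S) := by
      rw [Finset.sum_mul, Finset.mul_sum]
    have h3 : (∑ j : Option (ZMod p), ind (ALike S) * (a1 C.Z S * a2 (C.M j) S)) =
        ind (ALike S) * (a1 C.Z S * (∑ j : Option (ZMod p), a2 (C.M j) S)) := by
      rw [Finset.mul_sum, Finset.mul_sum]
    rw [h1, h2, h3]
    ring
  rw [Finset.sum_congr rfl (fun S _ => e S)]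
  rw [Finset.sum_add_distrib, Finset.sum_sub_distrib, Finset.sum_sub_distrib]
  have g1 : ∑ S : AddSubgroup (B × B), (∑ i : Option (ZMod p), ∑ j : Option (ZMod p),
        ind (ALike S) * (a1 (C.M i) S * a2 (C.M j) S)) =
      ∑ i : Option (ZMod p), ∑ j : Option (ZMod p), (Nat.card (C.M i →+ C.M j) : ℤ) := by
    rw [Finset.sum_comm]
    apply Finset.sum_congr rfl
    intro i _
    rw [Finset.sum_comm]
    apply Finset.sum_congr rfl
    intro j _
    rw [hpair]
  have g2 : ∑ S : AddSubgroup (B × B), (p : ℤ) *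
      (∑ i : Option (ZMod p), ind (ALike S) * (a1 (C.M i) S * a2 C.Z S)) =
      p * (∑ i : Option (ZMod p), (Nat.card (C.M i →+ C.Z) : ℤ)) := by
    rw [← Finset.mul_sum, Finset.sum_comm]
    congr 1
    apply Finset.sum_congr rfl
    intro i _
    rw [hpair]
  have g3 : ∑ S : AddSubgroup (B × B), (p : ℤ) *
      (∑ j : Option (ZMod p), ind (ALike S) * (a1 C.Z S * a2 (C.M j) S)) =
      p * (∑ j : Option (ZMod p), (Nat.card (C.Z →+ C.M j) : ℤ)) := by
    rw [← Finset.mul_sum, Finset.sum_comm]
    congr 1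
    apply Finset.sum_congr rfl
    intro i _
    rw [hpair]
  have g4 : ∑ S : AddSubgroup (B × B), (p : ℤ) * p *
      (ind (ALike S) * (a1 C.Z S * a2 C.Z S)) =
      p * p * (Nat.card (C.Z →+ C.Z) : ℤ) := by
    rw [← Finset.mul_sum, hpair]
  rw [g1, g2, g3, g4]

end CD

end H130
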