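import Mathlib
import Pool.Agent.Helper130_piso.Core

/-!
Non-isotropic graphs.
-/

namespace H130

open Function

namespace CD

variable {p : ℕ} {B : Type} [AddCommGroup B] (C : CD p B)

/-- closed non isotropic graphs through `(c, κ c)` -/
def SK (κ : ZMod p) (S : AddSubgroup (B × B)) : Prop :=
  ALike S ∧ (C.L.prod C.L).Closed S ∧ (∃ u ∈ S, ∃ v ∈ S, det (C.w u.1) (C.w v.1) ≠ 0) ∧
    (C.ic 1, C.ic κ) ∈ S

/-- central graphs through `(c, κ c)` -/
def TK (κ : ZMod p) (T : AddSubgroup (B × B)) : Prop :=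
  ALike T ∧ (∀ u ∈ T, C.w u.1 = 0 ∧ C.w u.2 = 0) ∧ (C.ic 1, C.ic κ) ∈ T

/-- the central part of a graph -/
def core (S : AddSubgroup (B × B)) : AddSubgroup (B × B) :=
  S ⊓ ((C.w.comp (AddMonoidHom.fst B B)).ker ⊓ (C.w.comp (AddMonoidHom.snd B B)).ker)

lemma mem_core (S : AddSubgroup (B × B)) (u : B × B) :
    u ∈ C.core S ↔ u ∈ S ∧ C.w u.1 = 0 ∧ C.w u.2 = 0 := Iff.rfl

variable [Fact p.Prime]

lemma val_smul_ic (a b : ZMod p) : a.val • C.ic b = C.ic (a * b) := by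
  rw [← map_nsmul, nsmul_eq_mul, ZMod.natCast_val, ZMod.cast_id]

/-- multiples of the central pair -/
lemma pair_mem {κ : ZMod p} {T : AddSubgroup (B × B)} (h : (C.ic 1, C.ic κ) ∈ T) (a : ZMod p) :
    (C.ic a, C.ic (κ * a)) ∈ T := by
  have h1 := T.nsmul_mem h a.val
  rw [Prod.smul_mk, val_smul_ic, val_smul_ic, mul_one, mul_comm] at h1
  exact h1

lemma pair_eq {κ : ZMod p} {T : AddSubgroup (B × B)} (hT : ALike T)
    (h : (C.ic 1, C.ic κ) ∈ T) {a a' : ZMod p} (h' : (C.ic a, C.ic a') ∈ T) : a' = κ * a := by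
  have h1 := T.sub_mem h' (C.pair_mem h a)
  rw [Prod.mk_sub_mk, sub_self, ← map_sub] at h1
  have h2 := hT.2 _ h1
  rw [← map_zero C.ic] at h2
  exact sub_eq_zero.1 (C.ic_inj h2)

lemma lam_eq {κ : ZMod p} {T : AddSubgroup (B × B)} (hT : ALike T)
    (h : (C.ic 1, C.ic κ) ∈ T) {u : B × B} (hu : u ∈ T) : C.lam u.2 = κ * C.lam u.1 := by
  have h1 := T.nsmul_mem hu p
  have h2 : p • u = (C.ic (C.lam u.1), C.ic (C.lam u.2)) := Prod.ext (C.psmul u.1) (C.psmul u.2)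
  rw [h2] at h1
  exact C.pair_eq hT h h1

lemma psmul_mem {κ : ZMod p} {T : AddSubgroup (B × B)}
    (h : (C.ic 1, C.ic κ) ∈ T) {u : B × B} (hu : C.lam u.2 = κ * C.lam u.1) : p • u ∈ T := by
  have h2 : p • u = (C.ic (C.lam u.1), C.ic (C.lam u.2)) := Prod.ext (C.psmul u.1) (C.psmul u.2)
  rw [h2, hu]
  exact C.pair_mem h _

lemma det_eq {κ : ZMod p} {S : AddSubgroup (B × B)} (hS : C.SK κ S) {u v : B × B}
    (hu : u ∈ S) (hv : v ∈ S) : det (C.w u.2) (C.w v.2) = κ * det (C.w u.1) (C.w v.1) := by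
  have h1 := hS.2.1 u hu v hv
  rw [LieD.prod_br, br_eq, br_eq] at h1
  exact C.pair_eq hS.1 hS.2.2.2 h1

lemma vec_zero {x y z : ZMod p × ZMod p} (hyz : det y z ≠ 0) (h1 : det x y = 0)
    (h2 : det x z = 0) : x = 0 := by
  have e1 : x.1 * det y z = y.1 * det x z - z.1 * det x y := by
    simp only [det]; ring
  have e2 : x.2 * det y z = y.2 * det x z - z.2 * det x y := by
    simp only [det]; ring
  rw [h1, h2, mul_zero, mul_zero, sub_zero] at e1 e2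
  exact Prod.ext ((mul_eq_zero.1 e1).resolve_right hyz) ((mul_eq_zero.1 e2).resolve_right hyz)

lemma w_zero {κ : ZMod p} (hκ : κ ≠ 0) {S : AddSubgroup (B × B)} (hS : C.SK κ S) {u : B × B}
    (hu : u ∈ S) (h : C.w u.1 = 0) : C.w u.2 = 0 := by
  obtain ⟨a, ha, b, hb, hab⟩ := hS.2.2.1
  have h1 : det (C.w a.2) (C.w b.2) ≠ 0 := by
    rw [C.det_eq hS ha hb]
    exact mul_ne_zero hκ hab
  apply vec_zero h1
  · rw [C.det_eq hS hu ha, h, det_zero_left, mul_zero]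
  · rw [C.det_eq hS hu hb, h, det_zero_left, mul_zero]

lemma w_nsmul (n : ℕ) (u : B) : C.w (n • u) = n • C.w u := map_nsmul _ _ _

lemma surj {κ : ZMod p} {S : AddSubgroup (B × B)} (hS : C.SK κ S) (e : ZMod p × ZMod p) :
    ∃ u ∈ S, C.w u.1 = e := by
  obtain ⟨a, ha, b, hb, hab⟩ := hS.2.2.1
  set d := det (C.w a.1) (C.w b.1) with hd
  let s : ZMod p := det e (C.w b.1) / d
  let t : ZMod p := det (C.w a.1) e / d
  refine ⟨s.val • a + t.val • b, S.add_mem (S.nsmul_mem ha _) (S.nsmul_mem hb _), ?_⟩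
  have h1 : C.w ((s.val • a + t.val • b : B × B).1) = s.val • C.w a.1 + t.val • C.w b.1 := by
    rw [Prod.fst_add, Prod.smul_fst, Prod.smul_fst, map_add, map_nsmul, map_nsmul]
  rw [h1]
  have hs : s * d = det e (C.w b.1) := div_mul_cancel₀ _ hab
  have ht : t * d = det (C.w a.1) e := div_mul_cancel₀ _ hab
  apply Prod.ext
  · simp only [Prod.fst_add, Prod.smul_fst]
    simp only [nsmul_eq_mul, ZMod.natCast_val, ZMod.cast_id, id]
    apply mul_right_cancel₀ hab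
    rw [add_mul, mul_right_comm, hs, mul_right_comm, ht]
    simp only [hd, det]; ring
  · simp only [Prod.snd_add, Prod.smul_snd]
    simp only [nsmul_eq_mul, ZMod.natCast_val, ZMod.cast_id, id]
    apply mul_right_cancel₀ hab
    rw [add_mul, mul_right_comm, hs, mul_right_comm, ht]
    simp only [hd, det]; ring

lemma core_TK {κ : ZMod p} {S : AddSubgroup (B × B)} (hS : C.SK κ S) : C.TK κ (C.core S) := by
  refine ⟨⟨fun x hx => hS.1.1 x hx.1, fun x hx => hS.1.2 x hx.1⟩, fun u hu => hu.2, ?_⟩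
  exact ⟨hS.2.2.2, C.w_ic _, C.w_ic _⟩

/-- the condition on pairs of generators -/
def Cond (κ : ZMod p) (X : (B × B) × (B × B)) : Prop :=
  C.w X.1.1 = (1, 0) ∧ C.w X.2.1 = (0, 1) ∧ det (C.w X.1.2) (C.w X.2.2) = κ ∧
    C.lam X.1.2 = κ * C.lam X.1.1 ∧ C.lam X.2.2 = κ * C.lam X.2.1

lemma cond_of_mem {κ : ZMod p} {S : AddSubgroup (B × B)} (hS : C.SK κ S) {X Y : B × B}
    (hX : X ∈ S) (hY : Y ∈ S) (h1 : C.w X.1 = (1, 0)) (h2 : C.w Y.1 = (0, 1)) :
    C.Cond κ (X, Y) := by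
  refine ⟨h1, h2, ?_, C.lam_eq hS.1 hS.2.2.2 hX, C.lam_eq hS.1 hS.2.2.2 hY⟩
  show det (C.w X.2) (C.w Y.2) = κ
  rw [C.det_eq hS hX hY, h1, h2]
  simp [det]

/-- generated graph -/
def gen (T : AddSubgroup (B × B)) (X Y : B × B) : AddSubgroup (B × B) where
  carrier := {u | ∃ a b : ℤ, u - (a • X + b • Y) ∈ T}
  zero_mem' := ⟨0, 0, by simpa using T.zero_mem⟩
  add_mem' := by
    rintro u v ⟨a, b, h⟩ ⟨a', b', h'⟩
    refine ⟨a + a', b + b', ?_⟩
    have := T.add_mem h h'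
    convert this using 1
    rw [add_smul, add_smul]
    abel
  neg_mem' := by
    rintro u ⟨a, b, h⟩
    refine ⟨-a, -b, ?_⟩
    have := T.neg_mem h
    convert this using 1
    rw [neg_smul, neg_smul]
    abel

lemma mem_gen (T : AddSubgroup (B × B)) (X Y u : B × B) :
    u ∈ gen T X Y ↔ ∃ a b : ℤ, u - (a • X + b • Y) ∈ T := Iff.rfl

lemma zsmul_mem_of_dvd {κ : ZMod p} {T : AddSubgroup (B × B)}
    (h : (C.ic 1, C.ic κ) ∈ T) {u : B × B} (hu : C.lam u.2 = κ * C.lam u.1) {a : ℤ}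
    (ha : (a : ZMod p) = 0) : a • u ∈ T := by
  rw [ZMod.intCast_zmod_eq_zero_iff_dvd] at ha
  obtain ⟨b, rfl⟩ := ha
  rw [mul_comm, mul_smul, natCast_zsmul]
  exact T.zsmul_mem (C.psmul_mem h hu) b

lemma gen_w1 {κ : ZMod p} {T : AddSubgroup (B × B)} (hT : C.TK κ T) {X Y : B × B}
    (hc : C.Cond κ (X, Y)) {u : B × B} {a b : ℤ} (h : u - (a • X + b • Y) ∈ T) :
    C.w u.1 = ((a : ZMod p), (b : ZMod p)) := by
  have h1 := (hT.2.1 _ h).1
  rw [Prod.fst_sub, map_sub, sub_eq_zero, Prod.fst_add, Prod.smul_fst, Prod.smul_fst, map_add,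
    map_zsmul, map_zsmul, hc.1, hc.2.1] at h1
  rw [h1]
  ext <;> simp

lemma gen_w2 {κ : ZMod p} {T : AddSubgroup (B × B)} (hT : C.TK κ T) {X Y : B × B}
    {u : B × B} {a b : ℤ} (h : u - (a • X + b • Y) ∈ T) :
    C.w u.2 = a • C.w X.2 + b • C.w Y.2 := by
  have h1 := (hT.2.1 _ h).2
  rw [Prod.snd_sub, map_sub, sub_eq_zero, Prod.snd_add, Prod.smul_snd, Prod.smul_snd, map_add,
    map_zsmul, map_zsmul] at h1
  exact h1

lemma mem_T_of {κ : ZMod p} {T : AddSubgroup (B × B)} (hT : C.TK κ T) {X Y : B × B}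
    (hc : C.Cond κ (X, Y)) {u : B × B} (h : u ∈ gen T X Y) (hw : C.w u.1 = 0) : u ∈ T := by
  obtain ⟨a, b, h⟩ := h
  have h1 := C.gen_w1 hT hc h
  rw [hw] at h1
  have ha : (a : ZMod p) = 0 := (congrArg Prod.fst h1).symm
  have hb : (b : ZMod p) = 0 := (congrArg Prod.snd h1).symm
  have h2 := T.add_mem h (T.add_mem (C.zsmul_mem_of_dvd hT.2.2 hc.2.2.2.1 ha)
    (C.zsmul_mem_of_dvd hT.2.2 hc.2.2.2.2 hb))
  simpa using h2

lemma T_le_gen (T : AddSubgroup (B × B)) (X Y : B × B) {u : B × B} (h : u ∈ T) :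
    u ∈ gen T X Y := ⟨0, 0, by simpa using h⟩

lemma X_mem_gen (T : AddSubgroup (B × B)) (X Y : B × B) : X ∈ gen T X Y :=
  ⟨1, 0, by simp⟩

lemma Y_mem_gen (T : AddSubgroup (B × B)) (X Y : B × B) : Y ∈ gen T X Y :=
  ⟨0, 1, by simp⟩

lemma gen_SK {κ : ZMod p} (hκ : κ ≠ 0) {T : AddSubgroup (B × B)} (hT : C.TK κ T) {X Y : B × B}
    (hc : C.Cond κ (X, Y)) : C.SK κ (gen T X Y) := by
  have hd2 : ∀ a b a' b' : ℤ, det (a • C.w X.2 + b • C.w Y.2) (a' • C.w X.2 + b' • C.w Y.2) =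
      κ * ((a : ZMod p) * b' - b * a') := by
    intro a b a' b'
    have := hc.2.2.1
    simp only [det] at this
    simp only [det, Prod.fst_add, Prod.snd_add, Prod.smul_fst, Prod.smul_snd]
    simp only [zsmul_eq_mul]
    linear_combination ((a : ZMod p) * b' - b * a') * this
  refine ⟨⟨?_, ?_⟩, ?_, ?_, ?_⟩
  · intro x hx
    obtain ⟨a, b, h⟩ := hx
    have h2 := C.gen_w2 hT h
    have h3 : a • C.w X.2 + b • C.w Y.2 = 0 := by
      rw [← h2]; exact map_zero _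
    have h4 : κ * ((a : ZMod p) * (1 : ℤ) - b * (0 : ℤ)) = 0 := by
      rw [← hd2, h3, det_zero_left]
    have h5 : κ * ((a : ZMod p) * (0 : ℤ) - b * (1 : ℤ)) = 0 := by
      rw [← hd2, h3, det_zero_left]
    have ha : (a : ZMod p) = 0 := by
      simpa [hκ] using h4
    have hb : (b : ZMod p) = 0 := by
      simpa [hκ] using h5
    have h6 : (x, (0 : B)) ∈ T := by
      apply C.mem_T_of hT hc ⟨a, b, h⟩
      rw [C.gen_w1 hT hc h, ha, hb]; rfl
    exact hT.1.1 x h6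
  · intro x hx
    have h6 : ((0 : B), x) ∈ T := by
      apply C.mem_T_of hT hc hx
      exact map_zero _
    exact hT.1.2 x h6
  · rintro u ⟨a, b, h⟩ v ⟨a', b', h'⟩
    rw [LieD.prod_br, br_eq, br_eq, C.gen_w1 hT hc h, C.gen_w1 hT hc h', C.gen_w2 hT h,
      C.gen_w2 hT h', hd2]
    apply T_le_gen
    exact C.pair_mem hT.2.2 _
  · refine ⟨X, X_mem_gen T X Y, Y, Y_mem_gen T X Y, ?_⟩
    rw [hc.1, hc.2.1]
    simp [det]
  · exact T_le_gen T X Y hT.2.2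

lemma gen_core {κ : ZMod p} {T : AddSubgroup (B × B)} (hT : C.TK κ T) {X Y : B × B}
    (hc : C.Cond κ (X, Y)) : C.core (gen T X Y) = T := by
  ext u
  rw [mem_core]
  constructor
  · rintro ⟨h1, h2, _⟩
    exact C.mem_T_of hT hc h1 h2
  · intro h
    exact ⟨T_le_gen T X Y h, hT.2.1 u h⟩

lemma eq_gen {κ : ZMod p} (hκ : κ ≠ 0) {S T : AddSubgroup (B × B)} (hS : C.SK κ S)
    (hST : C.core S = T) {X Y : B × B} (hX : X ∈ S) (hY : Y ∈ S) (h1 : C.w X.1 = (1, 0))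
    (h2 : C.w Y.1 = (0, 1)) : S = gen T X Y := by
  subst hST
  ext u
  rw [mem_gen]
  constructor
  · intro hu
    refine ⟨((C.w u.1).1.val : ℤ), ((C.w u.1).2.val : ℤ), ?_⟩
    set v := u - ((((C.w u.1).1.val : ℤ)) • X + (((C.w u.1).2.val : ℤ)) • Y) with hv
    have hvS : v ∈ S := S.sub_mem hu (S.add_mem (S.zsmul_mem hX _) (S.zsmul_mem hY _))
    have hw : C.w v.1 = 0 := by
      rw [hv, Prod.fst_sub, map_sub, Prod.fst_add, Prod.smul_fst, Prod.smul_fst, map_add,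
        map_zsmul, map_zsmul, h1, h2]
      ext <;> simp
    exact ⟨hvS, hw, C.w_zero hκ hS hvS hw⟩
  · rintro ⟨a, b, h⟩
    have h3 := S.add_mem h.1 (S.add_mem (S.zsmul_mem hX a) (S.zsmul_mem hY b))
    simpa using h3

end CD

end H130
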