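import Mathlib
import Pool.Agent.Helper130_piso.NonAb

/-!
Counting non-isotropic graphs.
-/

namespace H130

open Function

namespace CD

variable {p : ℕ} {B : Type} [AddCommGroup B] (C : CD p B) [Fact p.Prime]

lemma card_over {κ : ZMod p} (hκ : κ ≠ 0) {S T : AddSubgroup (B × B)} (hS : C.SK κ S)
    (hST : C.core S = T) (e : ZMod p × ZMod p) :
    Nat.card {X : B × B // X ∈ S ∧ C.w X.1 = e} = Nat.card T := by
  obtain ⟨X0, hX0, h0⟩ := C.surj hS e
  subst hST
  apply Nat.card_congr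
  exact
    { toFun := fun X => ⟨X.1 - X0, by
        have h1 : X.1 - X0 ∈ S := S.sub_mem X.2.1 hX0
        have h2 : C.w (X.1 - X0).1 = 0 := by
          rw [Prod.fst_sub, map_sub, X.2.2, h0, sub_self]
        exact ⟨h1, h2, C.w_zero hκ hS h1 h2⟩⟩
      invFun := fun t => ⟨t.1 + X0, S.add_mem t.2.1 hX0, by
        have h2 : C.w t.1.1 = 0 := t.2.2.1
        rw [Prod.fst_add, map_add, h2, h0, zero_add]⟩
      left_inv := fun X => Subtype.ext (by simp)
      right_inv := fun t => Subtype.ext (by simp) }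

theorem fiber_card [Finite B] {κ : ZMod p} (hκ : κ ≠ 0) {T : AddSubgroup (B × B)}
    (hT : C.TK κ T) :
    Nat.card {S : AddSubgroup (B × B) // C.SK κ S ∧ C.core S = T} * (Nat.card T) ^ 2 =
      Nat.card {X : (B × B) × (B × B) // C.Cond κ X} := by
  have : Fintype {S : AddSubgroup (B × B) // C.SK κ S ∧ C.core S = T} := Fintype.ofFinite _
  let E : {X : (B × B) × (B × B) // C.Cond κ X} ≃
      Σ S : {S : AddSubgroup (B × B) // C.SK κ S ∧ C.core S = T},
        {X : B × B // X ∈ S.1 ∧ C.w X.1 = (1, 0)} × {X : B × B // X ∈ S.1 ∧ C.w X.1 = (0, 1)} :=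
    { toFun := fun X => ⟨⟨gen T X.1.1 X.1.2, C.gen_SK hκ hT X.2, C.gen_core hT X.2⟩,
        ⟨X.1.1, X_mem_gen T X.1.1 X.1.2, X.2.1⟩, ⟨X.1.2, Y_mem_gen T X.1.1 X.1.2, X.2.2.1⟩⟩
      invFun := fun t => ⟨(t.2.1.1, t.2.2.1),
        C.cond_of_mem t.1.2.1 t.2.1.2.1 t.2.2.2.1 t.2.1.2.2 t.2.2.2.2⟩
      left_inv := fun X => rfl
      right_inv := by
        rintro ⟨⟨S, hS⟩, ⟨X, hX⟩, ⟨Y, hY⟩⟩
        have h := C.eq_gen hκ hS.1 hS.2 hX.1 hY.1 hX.2 hY.2
        subst h
        rfl }
  rw [Nat.card_congr E, Nat.card_sigma]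
  have h1 : ∀ S : {S : AddSubgroup (B × B) // C.SK κ S ∧ C.core S = T},
      Nat.card ({X : B × B // X ∈ S.1 ∧ C.w X.1 = (1, 0)} ×
        {X : B × B // X ∈ S.1 ∧ C.w X.1 = (0, 1)}) = (Nat.card T) ^ 2 := by
    intro S
    rw [Nat.card_prod, C.card_over hκ S.2.1 S.2.2, C.card_over hκ S.2.1 S.2.2, sq]
  rw [Finset.sum_congr rfl (fun S _ => h1 S), Finset.sum_const, Finset.card_univ,
    Nat.card_eq_fintype_card, smul_eq_mul]

theorem card_SK [Finite B] {κ : ZMod p} (hκ : κ ≠ 0)
    [Fintype {T : AddSubgroup (B × B) // C.TK κ T}] :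
    (Nat.card {S : AddSubgroup (B × B) // C.SK κ S} : ℚ) =
      ∑ T : {T : AddSubgroup (B × B) // C.TK κ T},
        (Nat.card {X : (B × B) × (B × B) // C.Cond κ X} : ℚ) / (Nat.card T.1 : ℚ) ^ 2 := by
  let E : {S : AddSubgroup (B × B) // C.SK κ S} ≃
      Σ T : {T : AddSubgroup (B × B) // C.TK κ T},
        {S : AddSubgroup (B × B) // C.SK κ S ∧ C.core S = T.1} :=
    { toFun := fun S => ⟨⟨C.core S.1, C.core_TK S.2⟩, ⟨S.1, S.2, rfl⟩⟩
      invFun := fun t => ⟨t.2.1, t.2.2.1⟩
      left_inv := fun S => rfl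
      right_inv := by
        rintro ⟨⟨T, hT⟩, ⟨S, hS⟩⟩
        have hS2 : C.core S = T := hS.2
        subst hS2
        rfl }
  rw [Nat.card_congr E, Nat.card_sigma, Nat.cast_sum]
  apply Finset.sum_congr rfl
  intro T _
  have h := C.fiber_card hκ T.2
  have hpos : (Nat.card T.1 : ℚ) ≠ 0 := by
    exact_mod_cast (Nat.card_pos (α := T.1)).ne'
  rw [eq_div_iff (pow_ne_zero 2 hpos)]
  exact_mod_cast h

/-- the dichotomy -/
theorem card_split [Finite B] :
    Nat.card {S : AddSubgroup (B × B) // ALike S ∧ (C.L.prod C.L).Closed S} =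
      Nat.card {S : AddSubgroup (B × B) // ALike S ∧ C.Iso1 S ∧ C.Iso2 S} +
      ∑ κ : {κ : ZMod p // κ ≠ 0}, Nat.card {S : AddSubgroup (B × B) // C.SK κ.1 S} := by
  have : Fintype (AddSubgroup (B × B)) := Fintype.ofFinite _
  have key : (Nat.card {S : AddSubgroup (B × B) // ALike S ∧ (C.L.prod C.L).Closed S} : ℤ) =
      (Nat.card {S : AddSubgroup (B × B) // ALike S ∧ C.Iso1 S ∧ C.Iso2 S} : ℤ) +
      ∑ κ : {κ : ZMod p // κ ≠ 0}, (Nat.card {S : AddSubgroup (B × B) // C.SK κ.1 S} : ℤ) := by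
    simp only [card_ind]
    rw [Finset.sum_comm, ← Finset.sum_add_distrib]
    apply Finset.sum_congr rfl
    intro S _
    by_cases hAC : ALike S ∧ (C.L.prod C.L).Closed S
    · rw [ind_true hAC]
      by_cases hI : C.Iso1 S ∧ C.Iso2 S
      · rw [ind_true ⟨hAC.1, hI⟩, Finset.sum_eq_zero, add_zero]
        intro κ _
        apply ind_false
        rintro ⟨_, _, ⟨u, hu, v, hv, huv⟩, _⟩
        exact huv (hI.1 u hu v hv)
      · rw [ind_false (fun h => hI h.2), zero_add]
        -- find κ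
        have hI1 : ¬ C.Iso1 S := by
          intro h1
          apply hI
          refine ⟨h1, ?_⟩
          intro u hu v hv
          have h2 := hAC.2 u hu v hv
          rw [LieD.prod_br, br_eq, br_eq, h1 u hu v hv, map_zero] at h2
          have h3 := hAC.1.2 _ h2
          rw [← map_zero C.ic] at h3
          exact C.ic_inj h3
        unfold Iso1 at hI1
        push Not at hI1
        obtain ⟨u, hu, v, hv, huv⟩ := hI1
        have h2 := hAC.2 u hu v hv
        rw [LieD.prod_br, br_eq, br_eq] at h2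
        set d := det (C.w u.1) (C.w v.1) with hd
        set d' := det (C.w u.2) (C.w v.2) with hd'
        have hd0 : d' ≠ 0 := by
          intro h0
          rw [h0, map_zero] at h2
          have h3 := hAC.1.1 _ h2
          rw [← map_zero C.ic] at h3
          exact huv (C.ic_inj h3)
        have hm : (C.ic 1, C.ic (d' / d)) ∈ S := by
          have h4 := S.nsmul_mem h2 (d⁻¹).val
          rw [Prod.smul_mk, val_smul_ic, val_smul_ic, inv_mul_cancel₀ huv] at h4
          rwa [div_eq_inv_mul]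
        have hκ : d' / d ≠ 0 := div_ne_zero hd0 huv
        have hSK : C.SK (d' / d) S := ⟨hAC.1, hAC.2, ⟨u, hu, v, hv, huv⟩, hm⟩
        rw [Finset.sum_eq_single (⟨d' / d, hκ⟩ : {κ : ZMod p // κ ≠ 0})]
        · rw [ind_true hSK]
        · rintro ⟨κ, hκ0⟩ _ hne
          apply ind_false
          intro h5
          apply hne
          apply Subtype.ext
          have h6 := C.pair_eq h5.1 hm h5.2.2.2
          rw [mul_one] at h6
          exact h6
        · intro h
          exact absurd (Finset.mem_univ _) h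
    · rw [ind_false hAC, ind_false, Finset.sum_eq_zero, zero_add]
      · intro κ _
        apply ind_false
        intro h
        exact hAC ⟨h.1, h.2.1⟩
      · intro h
        exact hAC ⟨h.1, C.closed_of_iso h.2.1 h.2.2⟩
  exact_mod_cast key

end CD

end H130
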