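import Mathlib
import Pool.Agent.Helper130_piso.NonAb2

/-!
Central graphs.
-/

namespace H130

open Function

/-- a complement `V` to the line `F c` in the `p`-torsion of the centre -/
structure CV {p : ℕ} {B : Type} [AddCommGroup B] (C : CD p B) (V : Type) [AddCommGroup V] where
  j : V →+ B
  pv : B →+ V
  pv_j : ∀ v, pv (j v) = v
  pv_ic : ∀ a, pv (C.ic a) = 0
  w_j : ∀ v, C.w (j v) = 0
  lam_j : ∀ v, C.lam (j v) = 0
  dec : ∀ x, C.w x = 0 → C.lam x = 0 → ∃ a, x = C.ic a + j (pv x)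

namespace CV

variable {p : ℕ} {B : Type} [AddCommGroup B] {C : CD p B} {V : Type} [AddCommGroup V]
  (K : CV C V)

/-- index type -/
abbrev Idx (p : ℕ) (V : Type) [AddCommGroup V] :=
  Σ D : AddSubgroup V, {g : D →+ V // Injective g} × (D →+ ZMod p)

/-- the hom defining the graph -/
def mkHom (κ : ZMod p) (t : Idx p V) : ZMod p × t.1 →+ B × B :=
  (AddMonoidHom.coprod C.ic (K.j.comp t.1.subtype)).prod
    (AddMonoidHom.coprod (C.ic.comp (AddMonoidHom.mulLeft κ))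
      ((C.ic.comp t.2.2) + (K.j.comp t.2.1.1)))

lemma mkHom_apply (κ : ZMod p) (t : Idx p V) (a : ZMod p) (d : t.1) :
    K.mkHom κ t (a, d) = (C.ic a + K.j d, C.ic (κ * a) + (C.ic (t.2.2 d) + K.j (t.2.1.1 d))) := rfl

/-- the graph attached to an index -/
def mkT (κ : ZMod p) (t : Idx p V) : AddSubgroup (B × B) := (K.mkHom κ t).range

lemma mem_mkT (κ : ZMod p) (t : Idx p V) (u : B × B) :
    u ∈ K.mkT κ t ↔ ∃ (a : ZMod p) (d : t.1),
      u = (C.ic a + K.j d, C.ic (κ * a) + (C.ic (t.2.2 d) + K.j (t.2.1.1 d))) := by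
  unfold mkT
  rw [AddMonoidHom.mem_range]
  constructor
  · rintro ⟨⟨a, d⟩, h⟩
    exact ⟨a, d, by rw [← h, mkHom_apply]⟩
  · rintro ⟨a, d, h⟩
    exact ⟨(a, d), by rw [h, mkHom_apply]⟩

lemma fst_inj {a : ZMod p} {v : V} (h : C.ic a + K.j v = 0) : a = 0 ∧ v = 0 := by
  have h1 := congrArg K.pv h
  rw [map_add, K.pv_ic, K.pv_j, zero_add, map_zero] at h1
  rw [h1, map_zero, add_zero, ← map_zero C.ic] at h
  exact ⟨C.ic_inj h, h1⟩

lemma mkHom_inj (κ : ZMod p) (t : Idx p V) : Injective (K.mkHom κ t) := by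
  rw [injective_iff_map_eq_zero]
  rintro ⟨a, d⟩ h
  rw [mkHom_apply] at h
  have h1 := congrArg Prod.fst h
  obtain ⟨h2, h3⟩ := K.fst_inj h1
  exact Prod.ext h2 (Subtype.ext h3)

lemma card_mkT (κ : ZMod p) (t : Idx p V) [NeZero p] : Nat.card (K.mkT κ t) = p * Nat.card t.1 := by
  have h := Nat.card_congr (AddMonoidHom.ofInjective (K.mkHom_inj κ t)).toEquiv
  unfold mkT
  rw [← h, Nat.card_prod, Nat.card_zmod]

lemma mkT_TK {κ : ZMod p} [Fact p.Prime] (hκ : κ ≠ 0) (t : Idx p V) :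
    C.TK κ (K.mkT κ t) ∧ ∀ u ∈ K.mkT κ t, C.lam u.1 = 0 := by
  refine ⟨⟨⟨?_, ?_⟩, ?_, ?_⟩, ?_⟩
  · intro x hx
    rw [mem_mkT] at hx
    obtain ⟨a, d, h⟩ := hx
    have h1 := (congrArg Prod.snd h).symm
    have h2 : C.ic (κ * a + t.2.2 d) + K.j (t.2.1.1 d) = 0 := by
      rw [map_add, add_assoc]; exact h1
    obtain ⟨h3, h4⟩ := K.fst_inj h2
    have h5 : d = 0 := by
      apply t.2.1.2
      rw [h4, map_zero]
    rw [h5, map_zero, add_zero] at h3
    have h6 : a = 0 := (mul_eq_zero.1 h3).resolve_left hκ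
    have h7 := congrArg Prod.fst h
    have h8 : x = C.ic a + K.j d := h7
    rw [h8, h6, h5]
    simp
  · intro x hx
    rw [mem_mkT] at hx
    obtain ⟨a, d, h⟩ := hx
    obtain ⟨h3, h4⟩ := K.fst_inj (congrArg Prod.fst h).symm
    have h5 : d = 0 := Subtype.ext h4
    have h8 : x = C.ic (κ * a) + (C.ic (t.2.2 d) + K.j (t.2.1.1 d)) := congrArg Prod.snd h
    rw [h8, h3, h5]
    simp
  · intro u hu
    rw [mem_mkT] at hu
    obtain ⟨a, d, rfl⟩ := hu
    simp only [map_add, C.w_ic, K.w_j, add_zero, and_self]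
  · rw [mem_mkT]
    exact ⟨1, 0, by simp⟩
  · intro u hu
    rw [mem_mkT] at hu
    obtain ⟨a, d, rfl⟩ := hu
    simp only [map_add, C.lam_ic, K.lam_j, add_zero]

lemma mkT_injective {κ : ZMod p} : Injective (K.mkT κ) := by
  rintro ⟨D, g, h⟩ ⟨D', g', h'⟩ he
  have hm : ∀ u, u ∈ K.mkT κ ⟨D, g, h⟩ ↔ u ∈ K.mkT κ ⟨D', g', h'⟩ := by
    intro u; rw [he]
  simp only [mem_mkT] at hm
  have hD : D = D' := by
    ext d
    constructor
    · intro hd
      obtain ⟨a, d', h1⟩ := (hm _).1 ⟨0, ⟨d, hd⟩, rfl⟩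
      have h2 := congrArg (fun z : B × B => K.pv z.1) h1
      simp only [map_add, K.pv_ic, K.pv_j, zero_add] at h2
      rw [h2]; exact d'.2
    · intro hd
      obtain ⟨a, d', h1⟩ := (hm _).2 ⟨0, ⟨d, hd⟩, rfl⟩
      have h2 := congrArg (fun z : B × B => K.pv z.1) h1
      simp only [map_add, K.pv_ic, K.pv_j, zero_add] at h2
      rw [h2]; exact d'.2
  subst hD
  have key : ∀ d : D, h d = h' d ∧ g.1 d = g'.1 d := by
    intro d
    obtain ⟨a, d', h1⟩ := (hm _).1 ⟨0, d, rfl⟩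
    have h2 := congrArg (fun z : B × B => K.pv z.1) h1
    simp only [map_add, K.pv_ic, K.pv_j, zero_add] at h2
    have h3 : d = d' := Subtype.ext h2
    subst h3
    have h4 := congrArg Prod.fst h1
    simp only [add_left_inj] at h4
    have h5 := C.ic_inj h4
    subst h5
    have h6 := congrArg Prod.snd h1
    simp only [add_right_inj] at h6
    have h7 : C.ic (h d - h' d) + K.j (g.1 d - g'.1 d) = 0 := by
      rw [map_sub, map_sub]
      have : C.ic (h d) - C.ic (h' d) + (K.j (g.1 d) - K.j (g'.1 d)) =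
        (C.ic (h d) + K.j (g.1 d)) - (C.ic (h' d) + K.j (g'.1 d)) := by abel
      rw [this, h6, sub_self]
    obtain ⟨h8, h9⟩ := K.fst_inj h7
    exact ⟨sub_eq_zero.1 h8, sub_eq_zero.1 h9⟩
  have hg : g = g' := Subtype.ext (AddMonoidHom.ext fun d => (key d).2)
  have hh : h = h' := AddMonoidHom.ext fun d => (key d).1
  subst hg
  subst hh
  rfl

lemma mkT_surj {κ : ZMod p} [Fact p.Prime] (hκ : κ ≠ 0) {T : AddSubgroup (B × B)}
    (hT : C.TK κ T) (hl : ∀ u ∈ T, C.lam u.1 = 0) : ∃ t, K.mkT κ t = T := by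
  have hl2 : ∀ u ∈ T, C.lam u.2 = 0 := by
    intro u hu
    rw [C.lam_eq hT.1 hT.2.2 hu, hl u hu, mul_zero]
  let D : AddSubgroup V :=
    { carrier := {d | ∃ x, (K.j d, x) ∈ T}
      zero_mem' := ⟨0, by rw [map_zero]; exact T.zero_mem⟩
      add_mem' := by
        rintro a b ⟨x, hx⟩ ⟨y, hy⟩
        exact ⟨x + y, by rw [map_add]; exact T.add_mem hx hy⟩
      neg_mem' := by
        rintro a ⟨x, hx⟩
        exact ⟨-x, by rw [map_neg]; exact T.neg_mem hx⟩ }
  have hD : ∀ d : D, ∃ x, (K.j d, x) ∈ T := fun d => d.2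
  choose f hf using hD
  have huniq : ∀ {x y z : B}, (x, y) ∈ T → (x, z) ∈ T → y = z := by
    intro x y z h1 h2
    have h3 := T.sub_mem h1 h2
    rw [Prod.mk_sub_mk, sub_self] at h3
    exact sub_eq_zero.1 (hT.1.2 _ h3)
  let fh : D →+ B := AddMonoidHom.mk' f (by
    intro a b
    apply huniq (hf (a + b))
    have := T.add_mem (hf a) (hf b)
    rw [Prod.mk_add_mk, ← map_add] at this
    exact this)
  have hfw : ∀ d, C.w (f d) = 0 := fun d => (hT.2.1 _ (hf d)).2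
  have hfl : ∀ d, C.lam (f d) = 0 := fun d => hl2 _ (hf d)
  have hdec : ∀ d : D, ∃ a, f d = C.ic a + K.j (K.pv (f d)) := fun d => K.dec _ (hfw d) (hfl d)
  choose h hh using hdec
  let hhom : D →+ ZMod p := AddMonoidHom.mk' h (by
    intro a b
    apply C.ic_inj
    have e1 : C.ic (h (a + b)) = f (a + b) - K.j (K.pv (f (a + b))) := by
      rw [eq_sub_iff_add_eq]; exact (hh (a + b)).symm
    have e2 : f (a + b) = f a + f b := fh.map_add a b
    rw [e1, e2, map_add K.pv, map_add K.j, map_add C.ic]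
    have e3 : C.ic (h a) = f a - K.j (K.pv (f a)) := by
      rw [eq_sub_iff_add_eq]; exact (hh a).symm
    have e4 : C.ic (h b) = f b - K.j (K.pv (f b)) := by
      rw [eq_sub_iff_add_eq]; exact (hh b).symm
    rw [e3, e4]
    abel)
  have hinj : Injective (K.pv.comp fh) := by
    rw [injective_iff_map_eq_zero]
    intro d hd
    have h1 : K.pv (f d) = 0 := hd
    have h2 := hh d
    rw [h1, map_zero, add_zero] at h2
    have h3 := hf d
    rw [h2] at h3
    have h4 := C.pair_mem hT.2.2 (κ⁻¹ * h d)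
    rw [← mul_assoc, mul_inv_cancel₀ hκ, one_mul] at h4
    have h5 := T.sub_mem h3 h4
    rw [Prod.mk_sub_mk, sub_self] at h5
    have h6 := hT.1.1 _ h5
    have h7 : C.ic (-(κ⁻¹ * h d)) + K.j (d : V) = 0 := by
      rw [map_neg]
      rw [← h6]; abel
    exact Subtype.ext (K.fst_inj h7).2
  refine ⟨⟨D, ⟨K.pv.comp fh, hinj⟩, hhom⟩, ?_⟩
  ext u
  rw [mem_mkT]
  constructor
  · rintro ⟨a, d, rfl⟩
    have h1 : C.ic (hhom d) + K.j ((K.pv.comp fh) d) = f d := (hh d).symm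
    simp only at h1 ⊢
    rw [h1]
    have h2 := T.add_mem (C.pair_mem hT.2.2 a) (hf d)
    exact h2
  · intro hu
    obtain ⟨a, ha⟩ := K.dec u.1 (hT.2.1 _ hu).1 (hl u hu)
    have h1 := T.sub_mem hu (C.pair_mem hT.2.2 a)
    have h2 : u - (C.ic a, C.ic (κ * a)) = (K.j (K.pv u.1), u.2 - C.ic (κ * a)) := by
      apply Prod.ext
      · show u.1 - C.ic a = K.j (K.pv u.1)
        rw [sub_eq_iff_eq_add, add_comm]; exact ha
      · rfl
    rw [h2] at h1
    let d : D := ⟨K.pv u.1, ⟨_, h1⟩⟩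
    refine ⟨a, d, ?_⟩
    have h3 : f d = u.2 - C.ic (κ * a) := huniq (hf d) h1
    have h4 : C.ic (hhom d) + K.j ((K.pv.comp fh) d) = f d := (hh d).symm
    apply Prod.ext
    · exact ha
    · simp only at h4 ⊢
      rw [h4, h3]; abel

/-- central graphs of exponent `p` -/
noncomputable def idxEquiv {κ : ZMod p} [Fact p.Prime] (hκ : κ ≠ 0) :
    Idx p V ≃ {T : AddSubgroup (B × B) // C.TK κ T ∧ ∀ u ∈ T, C.lam u.1 = 0} :=
  Equiv.ofBijective (fun t => ⟨K.mkT κ t, K.mkT_TK hκ t⟩)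
    ⟨fun t t' h => K.mkT_injective (congrArg Subtype.val h),
     fun T => by
      obtain ⟨t, ht⟩ := K.mkT_surj hκ T.2.1 T.2.2
      exact ⟨t, Subtype.ext ht⟩⟩

end CV

end H130
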