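import Mathlib
import Pool.Agent.Helper130_piso.TLevel

/-!
Central graphs with elements of order `p²`.
-/

namespace H130

open Function

namespace CD

variable {p : ℕ} {B : Type} [AddCommGroup B] (C : CD p B) [Fact p.Prime]

/-- conditions on the extra generator -/
def Cond3 (κ : ZMod p) (X : B × B) : Prop :=
  C.w X.1 = 0 ∧ C.w X.2 = 0 ∧ C.lam X.1 = 1 ∧ C.lam X.2 = κ

/-- the part of exponent `p` -/
def core2 (T : AddSubgroup (B × B)) : AddSubgroup (B × B) :=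
  T ⊓ (C.lam.comp (AddMonoidHom.fst B B)).ker

lemma mem_core2 (T : AddSubgroup (B × B)) (u : B × B) :
    u ∈ C.core2 T ↔ u ∈ T ∧ C.lam u.1 = 0 := Iff.rfl

/-- one generator extension -/
def gen3 (T : AddSubgroup (B × B)) (X : B × B) : AddSubgroup (B × B) where
  carrier := {u | ∃ a : ℤ, u - a • X ∈ T}
  zero_mem' := ⟨0, by simpa using T.zero_mem⟩
  add_mem' := by
    rintro u v ⟨a, h⟩ ⟨a', h'⟩
    refine ⟨a + a', ?_⟩
    have := T.add_mem h h'
    convert this using 1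
    rw [add_smul]
    abel
  neg_mem' := by
    rintro u ⟨a, h⟩
    refine ⟨-a, ?_⟩
    have := T.neg_mem h
    convert this using 1
    rw [neg_smul]
    abel

/-- exponent p central graphs -/
def TK0 (κ : ZMod p) (T : AddSubgroup (B × B)) : Prop :=
  C.TK κ T ∧ ∀ u ∈ T, C.lam u.1 = 0

/-- central graphs of exponent `p²` -/
def TK1 (κ : ZMod p) (T : AddSubgroup (B × B)) : Prop :=
  C.TK κ T ∧ ∃ u ∈ T, C.lam u.1 = 1

lemma core2_TK0 {κ : ZMod p} {T : AddSubgroup (B × B)} (hT : C.TK κ T) : C.TK0 κ (C.core2 T) := by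
  refine ⟨⟨⟨fun x hx => hT.1.1 x hx.1, fun x hx => hT.1.2 x hx.1⟩, fun u hu => hT.2.1 u hu.1, ?_⟩,
    fun u hu => hu.2⟩
  exact ⟨hT.2.2, C.lam_ic _⟩

lemma zsmul3 {κ : ZMod p} {T : AddSubgroup (B × B)} (hT : C.TK κ T) {X : B × B}
    (hX : C.Cond3 κ X) {a : ℤ} (ha : (a : ZMod p) = 0) : a • X ∈ T := by
  apply C.zsmul_mem_of_dvd hT.2.2 _ ha
  rw [hX.2.2.1, hX.2.2.2, mul_one]

lemma gen3_lam1 {κ : ZMod p} {T : AddSubgroup (B × B)} (hT : C.TK0 κ T) {X u : B × B}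
    (hX : C.Cond3 κ X) {a : ℤ} (h : u - a • X ∈ T) : C.lam u.1 = (a : ZMod p) := by
  have h1 := hT.2 _ h
  rw [Prod.fst_sub, map_sub, sub_eq_zero, Prod.smul_fst, map_zsmul, hX.2.2.1] at h1
  rw [h1]; simp

lemma gen3_lam2 {κ : ZMod p} {T : AddSubgroup (B × B)} (hT : C.TK0 κ T) {X u : B × B}
    (hX : C.Cond3 κ X) {a : ℤ} (h : u - a • X ∈ T) : C.lam u.2 = (a : ZMod p) * κ := by
  have h1 := C.lam_eq hT.1.1 hT.1.2.2 h
  rw [hT.2 _ h, mul_zero, Prod.snd_sub, map_sub, sub_eq_zero, Prod.smul_snd, map_zsmul,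
    hX.2.2.2] at h1
  rw [h1]; simp

lemma gen3_mem {κ : ZMod p} {T : AddSubgroup (B × B)} (hT : C.TK0 κ T) {X u : B × B}
    (hX : C.Cond3 κ X) {a : ℤ} (h : u - a • X ∈ T) (ha : (a : ZMod p) = 0) : u ∈ T := by
  have h2 := T.add_mem h (C.zsmul3 hT.1 hX ha)
  simpa using h2

lemma gen3_TK1 {κ : ZMod p} (hκ : κ ≠ 0) {T : AddSubgroup (B × B)} (hT : C.TK0 κ T) {X : B × B}
    (hX : C.Cond3 κ X) : C.TK1 κ (gen3 T X) := by
  refine ⟨⟨⟨?_, ?_⟩, ?_, ?_⟩, ?_⟩
  · rintro x ⟨a, h⟩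
    have h1 := C.gen3_lam2 hT hX h
    rw [map_zero] at h1
    have ha : (a : ZMod p) = 0 := (mul_eq_zero.1 h1.symm).resolve_right hκ
    exact hT.1.1.1 x (C.gen3_mem hT hX h ha)
  · rintro x ⟨a, h⟩
    have h1 := C.gen3_lam1 hT hX h
    rw [map_zero] at h1
    exact hT.1.1.2 x (C.gen3_mem hT hX h h1.symm)
  · rintro u ⟨a, h⟩
    have h1 := hT.1.2.1 _ h
    constructor
    · have h2 := h1.1
      rw [Prod.fst_sub, map_sub, Prod.smul_fst, map_zsmul, hX.1, smul_zero, sub_zero] at h2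
      exact h2
    · have h2 := h1.2
      rw [Prod.snd_sub, map_sub, Prod.smul_snd, map_zsmul, hX.2.1, smul_zero, sub_zero] at h2
      exact h2
  · exact ⟨0, by simpa using hT.1.2.2⟩
  · exact ⟨X, ⟨1, by simp⟩, hX.2.2.1⟩

lemma gen3_core {κ : ZMod p} {T : AddSubgroup (B × B)} (hT : C.TK0 κ T) {X : B × B}
    (hX : C.Cond3 κ X) : C.core2 (gen3 T X) = T := by
  ext u
  rw [mem_core2]
  constructor
  · rintro ⟨⟨a, h⟩, h2⟩
    have h1 := C.gen3_lam1 hT hX h
    rw [h2] at h1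
    exact C.gen3_mem hT hX h h1.symm
  · intro h
    exact ⟨⟨0, by simpa using h⟩, hT.2 u h⟩

lemma eq_gen3 {κ : ZMod p} {S T : AddSubgroup (B × B)}
    (hST : C.core2 S = T) {X : B × B} (hX : X ∈ S) (h1 : C.lam X.1 = 1) : S = gen3 T X := by
  subst hST
  ext u
  constructor
  · intro hu
    refine ⟨((C.lam u.1).val : ℤ), S.sub_mem hu (S.zsmul_mem hX _), ?_⟩
    show C.lam (u - ((C.lam u.1).val : ℤ) • X).1 = 0
    rw [Prod.fst_sub, map_sub, Prod.smul_fst, map_zsmul, h1]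
    simp
  · rintro ⟨a, h⟩
    have h3 := S.add_mem h.1 (S.zsmul_mem hX a)
    simpa using h3

lemma card_over3 {κ : ZMod p} {S T : AddSubgroup (B × B)} (hS : C.TK1 κ S)
    (hST : C.core2 S = T) :
    Nat.card {X : B × B // X ∈ S ∧ C.lam X.1 = 1} = Nat.card T := by
  obtain ⟨X0, hX0, h0⟩ := hS.2
  subst hST
  apply Nat.card_congr
  exact
    { toFun := fun X => ⟨X.1 - X0, by
        have h1 : X.1 - X0 ∈ S := S.sub_mem X.2.1 hX0
        have h2 : C.lam (X.1 - X0).1 = 0 := by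
          rw [Prod.fst_sub, map_sub, X.2.2, h0, sub_self]
        exact ⟨h1, h2⟩⟩
      invFun := fun t => ⟨t.1 + X0, S.add_mem t.2.1 hX0, by
        have h2 : C.lam t.1.1 = 0 := t.2.2
        rw [Prod.fst_add, map_add, h2, h0, zero_add]⟩
      left_inv := fun X => Subtype.ext (by simp)
      right_inv := fun t => Subtype.ext (by simp) }

lemma card_TK1 {κ : ZMod p} {S T : AddSubgroup (B × B)} (hS : C.TK1 κ S)
    (hST : C.core2 S = T) : Nat.card S = p * Nat.card T := by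
  obtain ⟨X0, hX0, h0⟩ := hS.2
  subst hST
  have hcc : Nat.card S = Nat.card (ZMod p × C.core2 S) := Nat.card_congr
    { toFun := fun u => (C.lam u.1.1, ⟨u.1 - (C.lam u.1.1).val • X0, by
        refine ⟨S.sub_mem u.2 (S.nsmul_mem hX0 _), ?_⟩
        show C.lam (u.1 - (C.lam u.1.1).val • X0).1 = 0
        rw [Prod.fst_sub, map_sub, Prod.smul_fst, map_nsmul, h0]
        simp⟩)
      invFun := fun t => ⟨t.2.1 + t.1.val • X0, S.add_mem t.2.2.1 (S.nsmul_mem hX0 _)⟩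
      left_inv := fun u => Subtype.ext (by simp)
      right_inv := by
        rintro ⟨a, ⟨t, ht⟩⟩
        have h1 : C.lam (t + a.val • X0).1 = a := by
          have h2 : C.lam t.1 = 0 := ht.2
          rw [Prod.fst_add, map_add, Prod.smul_fst, map_nsmul, h0, h2]
          simp
        apply Prod.ext
        · exact h1
        · apply Subtype.ext
          show t + a.val • X0 - (C.lam (t + a.val • X0).1).val • X0 = t
          rw [h1]; simp }
  rw [hcc, Nat.card_prod, Nat.card_zmod]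

theorem fiber3 [Finite B] {κ : ZMod p} (hκ : κ ≠ 0) {T : AddSubgroup (B × B)}
    (hT : C.TK0 κ T) :
    Nat.card {S : AddSubgroup (B × B) // C.TK1 κ S ∧ C.core2 S = T} * Nat.card T =
      Nat.card {X : B × B // C.Cond3 κ X} := by
  have : Fintype {S : AddSubgroup (B × B) // C.TK1 κ S ∧ C.core2 S = T} := Fintype.ofFinite _
  let E : {X : B × B // C.Cond3 κ X} ≃
      Σ S : {S : AddSubgroup (B × B) // C.TK1 κ S ∧ C.core2 S = T},
        {X : B × B // X ∈ S.1 ∧ C.lam X.1 = 1} :=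
    { toFun := fun X => ⟨⟨gen3 T X.1, C.gen3_TK1 hκ hT X.2, C.gen3_core hT X.2⟩,
        ⟨X.1, ⟨1, by simp⟩, X.2.2.2.1⟩⟩
      invFun := fun t => ⟨t.2.1, by
        have h1 := t.1.2.1.1.2.1 _ t.2.2.1
        refine ⟨h1.1, h1.2, t.2.2.2, ?_⟩
        rw [C.lam_eq t.1.2.1.1.1 t.1.2.1.1.2.2 t.2.2.1, t.2.2.2, mul_one]⟩
      left_inv := fun X => rfl
      right_inv := by
        rintro ⟨⟨S, hS⟩, ⟨X, hX⟩⟩
        have h := C.eq_gen3 (κ := κ) hS.2 hX.1 hX.2
        subst h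
        rfl }
  rw [Nat.card_congr E, Nat.card_sigma]
  rw [Finset.sum_congr rfl (fun S _ => C.card_over3 S.2.1 S.2.2), Finset.sum_const,
    Finset.card_univ, Nat.card_eq_fintype_card, smul_eq_mul]

/-- sum over all central graphs -/
theorem sum_TK [Finite B] {κ : ZMod p} (hκ : κ ≠ 0)
    [Fintype {T : AddSubgroup (B × B) // C.TK κ T}]
    [Fintype {T : AddSubgroup (B × B) // C.TK0 κ T}] (f : ℕ → ℚ) :
    ∑ T : {T : AddSubgroup (B × B) // C.TK κ T}, f (Nat.card T.1) =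
      ∑ T : {T : AddSubgroup (B × B) // C.TK0 κ T}, (f (Nat.card T.1) +
        (Nat.card {X : B × B // C.Cond3 κ X} : ℚ) / (Nat.card T.1 : ℚ) *
          f (p * Nat.card T.1)) := by
  have inst : ∀ T : {T : AddSubgroup (B × B) // C.TK0 κ T},
    Fintype {S : AddSubgroup (B × B) // C.TK1 κ S ∧ C.core2 S = T.1} :=
      fun T => Fintype.ofFinite _
  have hdis : ∀ T, C.TK0 κ T → C.TK1 κ T → False := by
    intro T h0 h1
    obtain ⟨u, hu, h⟩ := h1.2
    rw [h0.2 u hu] at h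
    exact zero_ne_one h
  have hcov : ∀ T, C.TK κ T → C.TK0 κ T ∨ C.TK1 κ T := by
    intro T hT
    by_cases h : ∀ u ∈ T, C.lam u.1 = 0
    · exact Or.inl ⟨hT, h⟩
    · right
      push Not at h
      obtain ⟨u, hu, hne⟩ := h
      refine ⟨hT, ((C.lam u.1)⁻¹).val • u, T.nsmul_mem hu _, ?_⟩
      rw [Prod.smul_fst, map_nsmul, nsmul_eq_mul, ZMod.natCast_val, ZMod.cast_id,
        inv_mul_cancel₀ hne]
  let F : ({T : AddSubgroup (B × B) // C.TK0 κ T} ⊕
      (Σ T : {T : AddSubgroup (B × B) // C.TK0 κ T},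
        {S : AddSubgroup (B × B) // C.TK1 κ S ∧ C.core2 S = T.1})) →
      {T : AddSubgroup (B × B) // C.TK κ T} := fun x =>
    match x with
    | Sum.inl T => ⟨T.1, T.2.1⟩
    | Sum.inr t => ⟨t.2.1, t.2.2.1.1⟩
  have hF : Bijective F := by
    constructor
    · rintro (⟨T, hT⟩ | ⟨⟨T, hT⟩, ⟨S, hS⟩⟩) (⟨T', hT'⟩ | ⟨⟨T', hT'⟩, ⟨S', hS'⟩⟩) h
      · have : T = T' := congrArg Subtype.val h
        subst this; rfl
      · have : T = S' := congrArg Subtype.val h
        subst this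
        exact (hdis _ hT hS'.1).elim
      · have : S = T' := congrArg Subtype.val h
        subst this
        exact (hdis _ hT' hS.1).elim
      · have h1 : S = S' := congrArg Subtype.val h
        subst h1
        have h2 : C.core2 S = T := hS.2
        have h3 : C.core2 S = T' := hS'.2
        subst h2
        subst h3
        rfl
    · rintro ⟨T, hT⟩
      rcases hcov T hT with h | h
      · exact ⟨Sum.inl ⟨T, h⟩, rfl⟩
      · exact ⟨Sum.inr ⟨⟨C.core2 T, C.core2_TK0 hT⟩, ⟨T, h, rfl⟩⟩, rfl⟩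
  rw [← Fintype.sum_bijective F hF (fun x => f (Nat.card (F x).1)) _ (fun x => rfl)]
  rw [Fintype.sum_sum_type, Fintype.sum_sigma, ← Finset.sum_add_distrib]
  apply Finset.sum_congr rfl
  intro T _
  congr 1
  have h1 : ∀ S : {S : AddSubgroup (B × B) // C.TK1 κ S ∧ C.core2 S = T.1},
      f (Nat.card (F (Sum.inr ⟨T, S⟩)).1) = f (p * Nat.card T.1) := by
    intro S
    have : Nat.card (F (Sum.inr ⟨T, S⟩)).1 = p * Nat.card T.1 := C.card_TK1 S.2.1 S.2.2
    rw [this]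
  rw [Finset.sum_congr rfl (fun S _ => h1 S), Finset.sum_const, Finset.card_univ, nsmul_eq_mul]
  congr 1
  have hpos : (Nat.card T.1 : ℚ) ≠ 0 := by
    exact_mod_cast (Nat.card_pos (α := T.1)).ne'
  rw [eq_div_iff hpos, ← Nat.card_eq_fintype_card]
  exact_mod_cast C.fiber3 hκ T.2

end CD

end H130
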