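import Mathlib
import Pool.Agent.Helper130_piso.TLevel2

/-!
Counting subspaces and injective maps.
-/

namespace H130

open Function

section vec

variable {p : ℕ} [Fact p.Prime] {V : Type} [AddCommGroup V] [Module (ZMod p) V] [Finite V]

/-- the product counting independent tuples -/
def PP (p t k : ℕ) : ℚ := ∏ i ∈ Finset.range t, ((p : ℚ) ^ k - (p : ℚ) ^ i)

omit [Fact p.Prime] in
lemma PP_cast (hp : 0 < p) {t k : ℕ} (h : t ≤ k) :
    ((∏ i : Fin t, (p ^ k - p ^ i.val) : ℕ) : ℚ) = PP p t k := by
  unfold PP
  rw [← Fin.prod_univ_eq_prod_range (fun i => ((p : ℚ) ^ k - (p : ℚ) ^ i)), Nat.cast_prod]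
  apply Finset.prod_congr rfl
  intro i _
  rw [Nat.cast_sub (Nat.pow_le_pow_right hp (i.2.le.trans h))]
  push_cast
  rfl

lemma PP_ne {t : ℕ} : PP p t t ≠ 0 := by
  unfold PP
  rw [Finset.prod_ne_zero_iff]
  intro i hi
  rw [Finset.mem_range] at hi
  have h1 : (1 : ℚ) < p := by exact_mod_cast (Fact.out : p.Prime).one_lt
  have : (p : ℚ) ^ i < (p : ℚ) ^ t := pow_lt_pow_right₀ h1 hi
  linarith

lemma card_li {W : Type} [AddCommGroup W] [Module (ZMod p) W] [Finite W] {t : ℕ}
    (ht : t ≤ Module.finrank (ZMod p) W) :
    (Nat.card {s : Fin t → W // LinearIndependent (ZMod p) s} : ℚ) =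
      PP p t (Module.finrank (ZMod p) W) := by
  rw [card_linearIndependent ht, ZMod.card]
  exact PP_cast (Fact.out : p.Prime).pos ht

/-- number of subspaces of given dimension -/
lemma card_subspaces (t : ℕ) (ht : t ≤ Module.finrank (ZMod p) V) :
    (Nat.card {D : Submodule (ZMod p) V // Module.finrank (ZMod p) D = t} : ℚ) * PP p t t =
      PP p t (Module.finrank (ZMod p) V) := by
  rw [← card_li ht]
  have : Fintype {D : Submodule (ZMod p) V // Module.finrank (ZMod p) D = t} := Fintype.ofFinite _
  let E : {s : Fin t → V // LinearIndependent (ZMod p) s} ≃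
      Σ D : {D : Submodule (ZMod p) V // Module.finrank (ZMod p) D = t},
        {s : Fin t → V // LinearIndependent (ZMod p) s ∧
          Submodule.span (ZMod p) (Set.range s) = D.1} :=
    { toFun := fun s => ⟨⟨Submodule.span (ZMod p) (Set.range s.1), by
        rw [finrank_span_eq_card s.2, Fintype.card_fin]⟩, ⟨s.1, s.2, rfl⟩⟩
      invFun := fun x => ⟨x.2.1, x.2.2.1⟩
      left_inv := fun s => rfl
      right_inv := by
        rintro ⟨⟨D, hD⟩, ⟨s, hs⟩⟩
        have h : Submodule.span (ZMod p) (Set.range s) = D := hs.2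
        subst h
        rfl }
  rw [Nat.card_congr E, Nat.card_sigma, Nat.cast_sum]
  have h1 : ∀ D : {D : Submodule (ZMod p) V // Module.finrank (ZMod p) D = t},
      (Nat.card {s : Fin t → V // LinearIndependent (ZMod p) s ∧
          Submodule.span (ZMod p) (Set.range s) = D.1} : ℚ) = PP p t t := by
    intro D
    have h2 : (Nat.card {s : Fin t → D.1 // LinearIndependent (ZMod p) s} : ℚ) = PP p t t := by
      have h3 := card_li (p := p) (W := D.1) (t := t) (by rw [D.2])
      rw [D.2] at h3
      exact h3
    rw [← h2]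
    congr 1
    apply Nat.card_congr
    exact
      { toFun := fun s => ⟨fun i => ⟨s.1 i, by
            have h5 : s.1 i ∈ Submodule.span (ZMod p) (Set.range s.1) :=
              Submodule.subset_span ⟨i, rfl⟩
            have h6 : Submodule.span (ZMod p) (Set.range s.1) = D.1 := s.2.2
            rw [h6] at h5
            exact h5⟩, by
            have h4 := s.2.1
            apply LinearIndependent.of_comp D.1.subtype
            exact h4⟩
        invFun := fun s => ⟨fun i => (s.1 i : V), by
            have h4 : LinearIndependent (ZMod p) (fun i => (s.1 i : V)) :=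
              s.2.map' D.1.subtype (Submodule.ker_subtype _)
            refine ⟨h4, ?_⟩
            apply Submodule.eq_of_le_of_finrank_eq
            · rw [Submodule.span_le]
              rintro _ ⟨i, rfl⟩
              exact (s.1 i).2
            · rw [finrank_span_eq_card h4, Fintype.card_fin, D.2]⟩
        left_inv := fun s => rfl
        right_inv := fun s => rfl }
  rw [Finset.sum_congr rfl (fun D _ => h1 D), Finset.sum_const, Finset.card_univ, nsmul_eq_mul,
    Nat.card_eq_fintype_card]

/-- additive homs from a space are determined on a basis -/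
noncomputable def homBasis {W X : Type} [AddCommGroup W] [Module (ZMod p) W] [AddCommGroup X]
    [Module (ZMod p) X] {t : ℕ} (b : Module.Basis (Fin t) (ZMod p) W) : (Fin t → X) ≃ (W →+ X) :=
  (b.constr (ZMod p)).toEquiv.trans
    { toFun := fun f => f.toAddMonoidHom
      invFun := fun f => f.toZModLinearMap p
      left_inv := fun f => by ext; rfl
      right_inv := fun f => by ext; rfl }

lemma homBasis_symm {W X : Type} [AddCommGroup W] [Module (ZMod p) W] [AddCommGroup X]
    [Module (ZMod p) X] {t : ℕ} (b : Module.Basis (Fin t) (ZMod p) W) (f : W →+ X) (i : Fin t) :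
    (homBasis b).symm f i = f (b i) := by
  rfl

lemma card_inj {W X : Type} [AddCommGroup W] [Module (ZMod p) W] [Finite W] [AddCommGroup X]
    [Module (ZMod p) X] [Finite X]
    (h : Module.finrank (ZMod p) W ≤ Module.finrank (ZMod p) X) :
    (Nat.card {g : W →+ X // Injective g} : ℚ) =
      PP p (Module.finrank (ZMod p) W) (Module.finrank (ZMod p) X) := by
  rw [← card_li h]
  congr 1
  let b := Module.finBasis (ZMod p) W
  apply Nat.card_congr
  refine (Equiv.subtypeEquiv (homBasis b).symm ?_)
  intro g
  constructor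
  · intro hg
    have h1 : LinearIndependent (ZMod p) (fun i => (g.toZModLinearMap p) (b i)) :=
      b.linearIndependent.map' _ (LinearMap.ker_eq_bot.2 hg)
    exact h1
  · intro hli
    have h1 : LinearIndependent (ZMod p) (fun i => (g.toZModLinearMap p) (b i)) := hli
    rw [injective_iff_map_eq_zero]
    intro x hx
    have h2 : (g.toZModLinearMap p) x = 0 := hx
    rw [← b.sum_repr x, map_sum] at h2
    simp only [map_smul] at h2
    have h3 := Fintype.linearIndependent_iff.1 h1 (fun i => b.repr x i) h2
    rw [← b.sum_repr x]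
    apply Finset.sum_eq_zero
    intro i _
    rw [h3 i, zero_smul]

lemma card_dual {W : Type} [AddCommGroup W] [Module (ZMod p) W] [Finite W] :
    Nat.card (W →+ ZMod p) = p ^ (Module.finrank (ZMod p) W) := by
  rw [← Nat.card_congr (homBasis (X := ZMod p) (Module.finBasis (ZMod p) W))]
  rw [Nat.card_fun]
  simp

lemma card_space {W : Type} [AddCommGroup W] [Module (ZMod p) W] [Finite W] :
    Nat.card W = p ^ (Module.finrank (ZMod p) W) := by
  have h := Module.natCard_eq_pow_finrank (K := ZMod p) (V := W)
  rw [h, Nat.card_zmod]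

/-- sum over the index type -/
theorem sum_idx [i0 : Fintype (CV.Idx p V)] (φ : ℕ → ℚ) :
    ∑ t : CV.Idx p V, φ (Nat.card t.1) =
      ∑ t ∈ Finset.range (Module.finrank (ZMod p) V + 1),
        (PP p t (Module.finrank (ZMod p) V)) ^ 2 / (PP p t t) * (p : ℚ) ^ t * φ (p ^ t) := by
  classical
  have i1 : Fintype (AddSubgroup V) := Fintype.ofFinite _
  have i2 : Fintype (Submodule (ZMod p) V) := Fintype.ofFinite _
  have i3 : ∀ D : AddSubgroup V, Fintype ({g : D →+ V // Injective g} × (D →+ ZMod p)) := by
    intro D
    have : Finite (D →+ V) := DFunLike.finite _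
    have : Finite (D →+ ZMod p) := DFunLike.finite _
    exact Fintype.ofFinite _
  have s1 : ∑ t : CV.Idx p V, φ (Nat.card t.1) =
      ∑ D : AddSubgroup V, ∑ _x : {g : D →+ V // Injective g} × (D →+ ZMod p),
        φ (Nat.card D) := by
    have s1' := Fintype.sum_sigma (fun x : (Σ D : AddSubgroup V,
      {g : D →+ V // Injective g} × (D →+ ZMod p)) => φ (Nat.card x.1))
    have e0 : i0 = (Sigma.instFintype : Fintype (Σ D : AddSubgroup V,
      {g : D →+ V // Injective g} × (D →+ ZMod p))) := Subsingleton.elim _ _
    refine Eq.trans ?_ s1'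
    rw [e0]
  rw [s1]
  set k := Module.finrank (ZMod p) V with hk
  let ψ : ℕ → ℚ := fun t => PP p t k * (p : ℚ) ^ t * φ (p ^ t)
  have s2 : ∀ D : AddSubgroup V, ∑ _x : {g : D →+ V // Injective g} × (D →+ ZMod p),
        φ (Nat.card D) = ψ (Module.finrank (ZMod p) (AddSubgroup.toZModSubmodule p D)) := by
    intro D
    rw [Finset.sum_const, Finset.card_univ, nsmul_eq_mul, ← Nat.card_eq_fintype_card,
      Nat.card_prod, Nat.cast_mul]
    have h1 := card_inj (p := p) (W := AddSubgroup.toZModSubmodule p D) (X := V)
      (Submodule.finrank_le _)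
    have h2 := card_dual (p := p) (W := AddSubgroup.toZModSubmodule p D)
    have h3 := card_space (p := p) (W := AddSubgroup.toZModSubmodule p D)
    have h1' : (Nat.card {g : D →+ V // Injective g} : ℚ) =
        PP p (Module.finrank (ZMod p) (AddSubgroup.toZModSubmodule p D)) k := h1
    have h2' : Nat.card (D →+ ZMod p) =
        p ^ (Module.finrank (ZMod p) (AddSubgroup.toZModSubmodule p D)) := h2
    have h3' : Nat.card D =
        p ^ (Module.finrank (ZMod p) (AddSubgroup.toZModSubmodule p D)) := h3
    rw [h1', h2', h3']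
    push_cast
    rfl
  rw [Finset.sum_congr rfl (fun D _ => s2 D)]
  have s3 : ∑ D : AddSubgroup V, ψ (Module.finrank (ZMod p) (AddSubgroup.toZModSubmodule p D)) =
      ∑ D : Submodule (ZMod p) V, ψ (Module.finrank (ZMod p) D) :=
    Fintype.sum_equiv (AddSubgroup.toZModSubmodule p).toEquiv _ _ (fun D => rfl)
  rw [s3]
  have s4 : ∑ D : Submodule (ZMod p) V, ψ (Module.finrank (ZMod p) D) =
      ∑ t ∈ Finset.range (k + 1), ∑ D ∈ Finset.univ.filter
        (fun D : Submodule (ZMod p) V => Module.finrank (ZMod p) D = t),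
        ψ (Module.finrank (ZMod p) D) := by
    rw [Finset.sum_fiberwise_of_maps_to]
    intro D _
    rw [Finset.mem_range]
    exact Nat.lt_succ_of_le (Submodule.finrank_le D)
  rw [s4]
  apply Finset.sum_congr rfl
  intro t ht
  rw [Finset.mem_range] at ht
  have s5 : ∑ D ∈ Finset.univ.filter
        (fun D : Submodule (ZMod p) V => Module.finrank (ZMod p) D = t),
        ψ (Module.finrank (ZMod p) D) =
      (Nat.card {D : Submodule (ZMod p) V // Module.finrank (ZMod p) D = t} : ℚ) * ψ t := by
    rw [Finset.sum_congr rfl (g := fun _ => ψ t)]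
    · rw [Finset.sum_const, nsmul_eq_mul, Nat.card_eq_fintype_card, Fintype.card_subtype]
    · intro D hD
      rw [Finset.mem_filter] at hD
      rw [hD.2]
  rw [s5]
  have h4 := card_subspaces (p := p) (V := V) t (Nat.lt_succ_iff.1 ht)
  rw [← hk] at h4
  have h5 : (Nat.card {D : Submodule (ZMod p) V // Module.finrank (ZMod p) D = t} : ℚ) =
      PP p t k / PP p t t := by
    rw [eq_div_iff PP_ne]
    exact h4
  rw [h5]
  simp only [ψ]
  ring

end vec

end H130
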