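import Mathlib
import Pool.Agent.Helper130_piso.Vec

/-!
Counting additive homomorphisms.
-/

namespace H130

open Function

section hom

variable {p : ℕ} [Fact p.Prime]

/-- the `p`-torsion subgroup -/
def tor (p : ℕ) (Y : Type) [AddCommGroup Y] : AddSubgroup Y where
  carrier := {y | p • y = 0}
  zero_mem' := smul_zero _
  add_mem' := by
    intro a b ha hb
    have ha' : p • a = 0 := ha
    have hb' : p • b = 0 := hb
    show p • (a + b) = 0
    rw [smul_add, ha', hb', add_zero]
  neg_mem' := by
    intro a ha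
    have ha' : p • a = 0 := ha
    show p • (-a) = 0
    rw [smul_neg, ha', neg_zero]

lemma mem_tor (Y : Type) [AddCommGroup Y] (y : Y) : y ∈ tor p Y ↔ p • y = 0 := Iff.rfl

/-- homs from an `F`-space -/
theorem card_hom_space {U Y : Type} [AddCommGroup U] [Module (ZMod p) U] [Finite U]
    [AddCommGroup Y] : Nat.card (U →+ Y) =
      (Nat.card (tor p Y)) ^ (Module.finrank (ZMod p) U) := by
  letI : Module (ZMod p) (tor p Y) := AddCommGroup.zmodModule (fun y => Subtype.ext y.2)
  have h1 : Nat.card (U →+ Y) = Nat.card (U →+ tor p Y) := by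
    apply Nat.card_congr
    exact
      { toFun := fun f => f.codRestrict (tor p Y) (fun u => by
          rw [mem_tor, ← map_nsmul]
          have : p • u = 0 := by
            have h := Nat.cast_smul_eq_nsmul (ZMod p) p u
            rw [← h]; simp
          rw [this, map_zero])
        invFun := fun f => (tor p Y).subtype.comp f
        left_inv := fun f => by ext; rfl
        right_inv := fun f => by ext; rfl }
  rw [h1, ← Nat.card_congr (homBasis (X := tor p Y) (Module.finBasis (ZMod p) U))]
  rw [Nat.card_fun]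
  simp

/-- homs from a space given by exponent and order -/
theorem card_hom_exp {U Y : Type} [AddCommGroup U] [Finite U] (hU : ∀ u : U, p • u = 0) {a : ℕ}
    (ha : Nat.card U = p ^ a) [AddCommGroup Y] : Nat.card (U →+ Y) = (Nat.card (tor p Y)) ^ a := by
  letI : Module (ZMod p) U := AddCommGroup.zmodModule hU
  have h1 := card_space (p := p) (W := U)
  rw [ha] at h1
  have h2 := Nat.pow_right_injective (Fact.out : p.Prime).two_le h1
  rw [card_hom_space (p := p), ← h2]

/-- homs from `ZMod (p^2)` -/
theorem card_hom_R {Y : Type} [AddCommGroup Y] (hY : ∀ y : Y, (p ^ 2) • y = 0) :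
    Nat.card (ZMod (p ^ 2) →+ Y) = Nat.card Y := by
  apply Nat.card_congr
  refine (ZMod.lift (p ^ 2)).symm.trans ?_
  exact
    { toFun := fun f => f.1 1
      invFun := fun y => ⟨zmultiplesHom Y y, by
        rw [zmultiplesHom_apply, natCast_zsmul]; exact hY y⟩
      left_inv := fun f => Subtype.ext (by
        ext; simp)
      right_inv := fun y => by simp }

theorem card_hom_prod {X X' Y : Type} [AddCommGroup X] [AddCommGroup X'] [AddCommGroup Y] :
    Nat.card (X × X' →+ Y) = Nat.card (X →+ Y) * Nat.card (X' →+ Y) := by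
  rw [← Nat.card_prod]
  apply Nat.card_congr
  exact
    { toFun := fun f => (f.comp (AddMonoidHom.inl X X'), f.comp (AddMonoidHom.inr X X'))
      invFun := fun g => g.1.coprod g.2
      left_inv := fun f => by
        ext x <;> simp
      right_inv := fun g => by
        apply Prod.ext
        · ext x; simp
        · ext x; simp }

/-- fibres of a surjection onto the prime field -/
theorem card_fiber {X : Type} [AddCommGroup X] [Finite X] (f : X →+ ZMod p) (hf : Surjective f)
    (a : ZMod p) : Nat.card {x // f x = a} * p = Nat.card X := by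
  have h1 : ∀ b : ZMod p, Nat.card {x // f x = b} = Nat.card {x // f x = a} := by
    intro b
    obtain ⟨z, hz⟩ := hf (a - b)
    apply Nat.card_congr
    exact
      { toFun := fun x => ⟨x.1 + z, by rw [map_add, x.2, hz]; abel⟩
        invFun := fun x => ⟨x.1 - z, by rw [map_sub, x.2, hz]; abel⟩
        left_inv := fun x => Subtype.ext (by simp)
        right_inv := fun x => Subtype.ext (by simp) }
  have h2 : Nat.card X = Nat.card (Σ b : ZMod p, {x // f x = b}) :=
    Nat.card_congr (Equiv.sigmaFiberEquiv f).symm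
  rw [h2, Nat.card_sigma, Finset.sum_congr rfl (fun b _ => h1 b), Finset.sum_const,
    Finset.card_univ, ZMod.card, smul_eq_mul, mul_comm]

theorem card_pair {X : Type} [AddCommGroup X] [Finite X] (f : X →+ ZMod p) (hf : Surjective f)
    (κ : ZMod p) : Nat.card {x : X × X // f x.2 = κ * f x.1} * p = Nat.card X ^ 2 := by
  let g : X × X →+ ZMod p := f.comp (AddMonoidHom.snd X X) -
    (AddMonoidHom.mulLeft κ).comp (f.comp (AddMonoidHom.fst X X))
  have hg : ∀ x, g x = f x.2 - κ * f x.1 := fun x => rfl
  have hgs : Surjective g := by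
    intro a
    obtain ⟨x, hx⟩ := hf a
    exact ⟨(0, x), by rw [hg]; simp [hx]⟩
  have h1 := card_fiber g hgs 0
  rw [Nat.card_prod, ← sq] at h1
  rw [← h1]
  congr 1
  apply Nat.card_congr
  apply Equiv.subtypeEquivRight
  intro x
  rw [hg, sub_eq_zero]

/-- number of pairs of plane vectors with given nonzero determinant -/
theorem card_det {κ : ZMod p} (hκ : κ ≠ 0) :
    Nat.card {x : (ZMod p × ZMod p) × (ZMod p × ZMod p) // det x.1 x.2 = κ} =
      (p ^ 2 - 1) * p := by
  have h0 : Nat.card {x : (ZMod p × ZMod p) × (ZMod p × ZMod p) // det x.1 x.2 = κ} =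
      Nat.card (Σ u : {u : ZMod p × ZMod p // u ≠ 0}, {v : ZMod p × ZMod p // det u.1 v = κ}) := by
    apply Nat.card_congr
    exact
      { toFun := fun x => ⟨⟨x.1.1, by
          intro h
          have := x.2
          rw [h, det_zero_left] at this
          exact hκ this.symm⟩, ⟨x.1.2, x.2⟩⟩
        invFun := fun t => ⟨(t.1.1, t.2.1), t.2.2⟩
        left_inv := fun x => rfl
        right_inv := fun t => rfl }
  have h1 : ∀ u : {u : ZMod p × ZMod p // u ≠ 0},
      Nat.card {v : ZMod p × ZMod p // det u.1 v = κ} = p := by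
    intro u
    let f : ZMod p × ZMod p →+ ZMod p := AddMonoidHom.mk' (fun v => det u.1 v)
      (fun a b => det_add_right _ _ _)
    have hf : Surjective f := by
      intro a
      have hu : u.1.1 ≠ 0 ∨ u.1.2 ≠ 0 := by
        by_contra h
        push Not at h
        exact u.2 (Prod.ext h.1 h.2)
      rcases hu with h | h
      · refine ⟨(0, a / u.1.1), ?_⟩
        show det u.1 (0, a / u.1.1) = a
        simp only [det, mul_zero, sub_zero]
        field_simp
      · refine ⟨(-(a / u.1.2), 0), ?_⟩
        show det u.1 (-(a / u.1.2), 0) = a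
        simp only [det, mul_zero]
        field_simp
        ring
    have h2 := card_fiber f hf κ
    rw [Nat.card_prod, Nat.card_zmod] at h2
    exact Nat.eq_of_mul_eq_mul_right (Fact.out : p.Prime).pos h2
  have h3 : Nat.card {u : ZMod p × ZMod p // u ≠ 0} = p ^ 2 - 1 := by
    rw [Nat.card_eq_fintype_card, Fintype.card_subtype_compl, Fintype.card_prod, ZMod.card,
      Fintype.card_subtype_eq, sq]
  rw [h0, Nat.card_sigma, Finset.sum_congr rfl (fun u _ => h1 u), Finset.sum_const,
    Finset.card_univ, ← Nat.card_eq_fintype_card, h3, smul_eq_mul]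

end hom

/-- reduction `ZMod (p^2) → ZMod p` -/
def rho (p : ℕ) : ZMod (p ^ 2) →+ ZMod p := (ZMod.castHom (dvd_pow_self p two_ne_zero) (ZMod p)).toAddMonoidHom

/-- multiplication by `p`: `ZMod p → ZMod (p^2)` -/
def iot (p : ℕ) : ZMod p →+ ZMod (p ^ 2) :=
  ZMod.lift p ⟨zmultiplesHom _ (p : ZMod (p ^ 2)), by
    rw [zmultiplesHom_apply, natCast_zsmul, nsmul_eq_mul, ← Nat.cast_mul, ← sq, ZMod.natCast_self]⟩

section rho
variable {p : ℕ} [Fact p.Prime]

lemma rho_surj : Surjective (rho p) :=
  ZMod.castHom_surjective (dvd_pow_self p two_ne_zero)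

lemma iot_natCast (n : ℕ) : iot p (n : ZMod p) = ((n * p : ℕ) : ZMod (p ^ 2)) := by
  have h : iot p ((n : ℤ) : ZMod p) = (n : ℤ) • (p : ZMod (p ^ 2)) := by
    unfold iot
    rw [ZMod.lift_coe]
    rfl
  rw [Int.cast_natCast] at h
  rw [h, natCast_zsmul, nsmul_eq_mul, Nat.cast_mul]

lemma rho_natCast (n : ℕ) : rho p (n : ZMod (p ^ 2)) = (n : ZMod p) := by
  unfold rho
  simp

lemma iot_rho (r : ZMod (p ^ 2)) : iot p (rho p r) = p • r := by
  have hp : NeZero (p ^ 2) := ⟨pow_ne_zero 2 (Fact.out : p.Prime).ne_zero⟩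
  obtain ⟨n, rfl⟩ := ZMod.natCast_zmod_surjective r
  rw [rho_natCast, iot_natCast, nsmul_eq_mul, Nat.cast_mul, mul_comm]

lemma rho_iot (a : ZMod p) : rho p (iot p a) = 0 := by
  obtain ⟨n, rfl⟩ := ZMod.natCast_zmod_surjective a
  rw [iot_natCast, rho_natCast, Nat.cast_mul, ZMod.natCast_self, mul_zero]

lemma iot_inj : Injective (iot p) := by
  rw [injective_iff_map_eq_zero]
  intro a ha
  obtain ⟨n, rfl⟩ := ZMod.natCast_zmod_surjective a
  rw [iot_natCast, ZMod.natCast_eq_zero_iff, sq] at ha
  rw [ZMod.natCast_eq_zero_iff]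
  exact Nat.dvd_of_mul_dvd_mul_right (Fact.out : p.Prime).pos ha

lemma iot_of_rho {r : ZMod (p ^ 2)} (h : rho p r = 0) : ∃ a, r = iot p a := by
  have hp : NeZero (p ^ 2) := ⟨pow_ne_zero 2 (Fact.out : p.Prime).ne_zero⟩
  obtain ⟨n, rfl⟩ := ZMod.natCast_zmod_surjective r
  rw [rho_natCast, ZMod.natCast_eq_zero_iff] at h
  obtain ⟨m, rfl⟩ := h
  refine ⟨(m : ZMod p), ?_⟩
  rw [iot_natCast, mul_comm]

end rho

end H130
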