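import Mathlib
import Pool.Agent.Helper130_piso.Hom

/-!
More counting of additive homomorphisms.
-/

namespace H130

open Function

section hom2

variable {p : ℕ} [Fact p.Prime]

theorem card_hom_congr {X X' Y Y' : Type} [AddCommGroup X] [AddCommGroup X'] [AddCommGroup Y]
    [AddCommGroup Y'] (e : X ≃+ X') (e' : Y ≃+ Y') :
    Nat.card (X →+ Y) = Nat.card (X' →+ Y') := by
  apply Nat.card_congr
  exact
    { toFun := fun f => (e'.toAddMonoidHom.comp f).comp e.symm.toAddMonoidHom
      invFun := fun f => (e'.symm.toAddMonoidHom.comp f).comp e.toAddMonoidHom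
      left_inv := fun f => by ext; simp
      right_inv := fun f => by ext; simp }

omit [Fact p.Prime] in
theorem card_tor_prod (X Y : Type) [AddCommGroup X] [AddCommGroup Y] :
    Nat.card (tor p (X × Y)) = Nat.card (tor p X) * Nat.card (tor p Y) := by
  rw [← Nat.card_prod]
  apply Nat.card_congr
  exact
    { toFun := fun u => (⟨u.1.1, congrArg Prod.fst u.2⟩, ⟨u.1.2, congrArg Prod.snd u.2⟩)
      invFun := fun t => ⟨(t.1.1, t.2.1), Prod.ext t.1.2 t.2.2⟩
      left_inv := fun u => rfl
      right_inv := fun t => rfl }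

omit [Fact p.Prime] in
theorem card_tor_exp {X : Type} [AddCommGroup X] (h : ∀ x : X, p • x = 0) :
    Nat.card (tor p X) = Nat.card X := by
  apply Nat.card_congr
  exact
    { toFun := fun u => u.1
      invFun := fun x => ⟨x, h x⟩
      left_inv := fun u => rfl
      right_inv := fun t => rfl }

instance : NeZero (p ^ 2) := ⟨pow_ne_zero 2 (Fact.out : p.Prime).ne_zero⟩

theorem card_tor_R : Nat.card (tor p (ZMod (p ^ 2))) = p := by
  have h1 := card_fiber (p := p) (rho p) rho_surj 0
  rw [Nat.card_zmod] at h1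
  have h2 : Nat.card (tor p (ZMod (p ^ 2))) = Nat.card {x // rho p x = 0} := by
    apply Nat.card_congr
    apply Equiv.subtypeEquivRight
    intro x
    rw [mem_tor, ← iot_rho]
    constructor
    · intro h
      rw [← map_zero (iot p)] at h
      exact iot_inj h
    · intro h
      rw [h, map_zero]
  rw [h2]
  have h3 : Nat.card {x // rho p x = 0} * p = p * p := by rw [h1, sq]
  exact Nat.eq_of_mul_eq_mul_right (Fact.out : p.Prime).pos h3

lemma smul_F (x : ZMod p) : p • x = 0 := by
  rw [nsmul_eq_mul, ZMod.natCast_self, zero_mul]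

lemma smul_V {k : ℕ} (x : Fin k → ZMod p) : p • x = 0 := by
  ext i
  rw [Pi.smul_apply, smul_F]; rfl

omit [Fact p.Prime] in
lemma exp_sq {Y : Type} [AddCommGroup Y] (h : ∀ y : Y, p • y = 0) (y : Y) : (p ^ 2) • y = 0 := by
  rw [sq, mul_smul, h]

lemma card_V (k : ℕ) : Nat.card (Fin k → ZMod p) = p ^ k := by
  rw [Nat.card_fun]; simp

theorem card_tor_F : Nat.card (tor p (ZMod p)) = p := by
  rw [card_tor_exp smul_F, Nat.card_zmod]

theorem card_tor_V (k : ℕ) : Nat.card (tor p (Fin k → ZMod p)) = p ^ k := by
  rw [card_tor_exp smul_V, card_V]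

theorem card_hom_F (Y : Type) [AddCommGroup Y] :
    Nat.card (ZMod p →+ Y) = Nat.card (tor p Y) := by
  have h := card_hom_exp (p := p) (U := ZMod p) (Y := Y) smul_F (a := 1) (by rw [Nat.card_zmod, pow_one])
  rw [h, pow_one]

theorem card_hom_V (k : ℕ) (Y : Type) [AddCommGroup Y] :
    Nat.card ((Fin k → ZMod p) →+ Y) = (Nat.card (tor p Y)) ^ k :=
  card_hom_exp (p := p) smul_V (card_V k)

/-- functionals proportional to a nonzero functional -/
theorem card_prop {X : Type} [AddCommGroup X] {α : X →+ ZMod p} (hα : α ≠ 0) :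
    Nat.card {β : X →+ ZMod p // ∀ x y, α x * β y - β x * α y = 0} = p := by
  obtain ⟨x1, hx1⟩ : ∃ x, α x ≠ 0 := by
    by_contra h
    push Not at h
    exact hα (AddMonoidHom.ext h)
  have h1 : Nat.card {β : X →+ ZMod p // ∀ x y, α x * β y - β x * α y = 0} =
      Nat.card (ZMod p) := by
    apply Nat.card_congr
    exact
      { toFun := fun β => β.1 x1 / α x1
        invFun := fun t => ⟨(AddMonoidHom.mulLeft t).comp α, by
          intro x y
          simp only [AddMonoidHom.comp_apply, AddMonoidHom.coe_mulLeft]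
          ring⟩
        left_inv := fun β => by
          apply Subtype.ext
          ext y
          have h := β.2 x1 y
          simp only [AddMonoidHom.comp_apply, AddMonoidHom.coe_mulLeft]
          field_simp
          linear_combination -h
        right_inv := fun t => by
          simp only [AddMonoidHom.comp_apply, AddMonoidHom.coe_mulLeft]
          field_simp }
  rw [h1, Nat.card_zmod]

/-- maps to the plane of rank at most one -/
theorem card_rank_le_one {X : Type} [AddCommGroup X] [Finite X] :
    Nat.card {g : X →+ ZMod p × ZMod p // ∀ x y, det (g x) (g y) = 0} =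
      Nat.card (X →+ ZMod p) + (Nat.card (X →+ ZMod p) - 1) * p := by
  classical
  have : Finite (X →+ ZMod p) := DFunLike.finite _
  have i1 : Fintype (X →+ ZMod p) := Fintype.ofFinite _
  have h0 : Nat.card {g : X →+ ZMod p × ZMod p // ∀ x y, det (g x) (g y) = 0} =
      Nat.card (Σ α : X →+ ZMod p, {β : X →+ ZMod p // ∀ x y, α x * β y - β x * α y = 0}) := by
    apply Nat.card_congr
    exact
      { toFun := fun g => ⟨(AddMonoidHom.fst _ _).comp g.1, ⟨(AddMonoidHom.snd _ _).comp g.1, g.2⟩⟩
        invFun := fun t => ⟨t.1.prod t.2.1, t.2.2⟩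
        left_inv := fun g => rfl
        right_inv := fun t => rfl }
  rw [h0, Nat.card_sigma]
  have h1 : ∀ α : X →+ ZMod p,
      Nat.card {β : X →+ ZMod p // ∀ x y, α x * β y - β x * α y = 0} =
      if α = 0 then Nat.card (X →+ ZMod p) else p := by
    intro α
    by_cases h : α = 0
    · rw [if_pos h]
      subst h
      apply Nat.card_congr
      exact
        { toFun := fun β => β.1
          invFun := fun β => ⟨β, by intro x y; simp⟩
          left_inv := fun β => rfl
          right_inv := fun β => rfl }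
    · rw [if_neg h, card_prop h]
  rw [Finset.sum_congr rfl (fun α _ => h1 α), Finset.sum_ite, Finset.sum_const, Finset.sum_const]
  have h2 : (Finset.univ.filter (fun α : X →+ ZMod p => α = 0)).card = 1 := by
    rw [Finset.card_eq_one]
    exact ⟨0, by ext a; simp⟩
  have h3 : (Finset.univ.filter (fun α : X →+ ZMod p => ¬ α = 0)).card =
      Nat.card (X →+ ZMod p) - 1 := by
    have h4 := Finset.card_filter_add_card_filter_not (s := (Finset.univ : Finset (X →+ ZMod p)))
      (fun α => α = 0)
    rw [h2, Finset.card_univ, ← Nat.card_eq_fintype_card] at h4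
    omega
  rw [h2, h3, one_smul, smul_eq_mul]

end hom2

namespace CD

variable {p : ℕ} {B : Type} [AddCommGroup B] (C : CD p B) [Fact p.Prime]

lemma g_ic {x0 : B} (hx0 : C.lam x0 = 1) (g : B →+ B) (d : ZMod p) :
    g (C.ic d) = C.ic (d * C.lam (g x0)) := by
  have h1 : C.ic d = p • (d.val • x0) := by
    rw [C.psmul, map_nsmul, hx0]
    simp
  rw [h1, map_nsmul, C.psmul, map_nsmul, map_nsmul, nsmul_eq_mul, ZMod.natCast_val, ZMod.cast_id]

lemma lam_g {x0 : B} (hx0 : C.lam x0 = 1) (g : B →+ B) (y : B) :
    C.lam (g y) = C.lam y * C.lam (g x0) := by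
  apply C.ic_inj
  rw [← C.psmul, ← map_nsmul, C.psmul, C.g_ic hx0]

lemma compat_iff {x0 : B} (hx0 : C.lam x0 = 1) (g : B →+ B) :
    (∀ x y, g (C.L.br x y) = C.L.br (g x) (g y)) ↔
      ∀ x y, det (C.w (g x)) (C.w (g y)) = det (C.w x) (C.w y) * C.lam (g x0) := by
  constructor
  · intro h x y
    have := h x y
    rw [br_eq, br_eq, C.g_ic hx0] at this
    exact (C.ic_inj this).symm
  · intro h x y
    rw [br_eq, br_eq, C.g_ic hx0, h x y]

end CD

end H130
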