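import Mathlib
import Pool.Agent.Helper130_piso.Hom2

/-!
The pieces `M_{p³} × C_p^k`.
-/

namespace H130

open Function

namespace TA

variable (p k : ℕ) [Fact p.Prime]

/-- the additive group -/
abbrev BA := ZMod (p ^ 2) × (ZMod p × (Fin k → ZMod p))

/-- core data -/
def CA : CD p (BA p k) where
  w := ((rho p).comp (AddMonoidHom.fst _ _)).prod ((AddMonoidHom.fst _ _).comp (AddMonoidHom.snd _ _))
  lam := (rho p).comp (AddMonoidHom.fst _ _)
  ic := (AddMonoidHom.inl _ _).comp (iot p)
  ic_inj := by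
    intro a b h
    have h1 := congrArg (fun x : BA p k => x.1) h
    exact iot_inj h1
  w_ic := fun a => Prod.ext (rho_iot a) rfl
  lam_ic := fun a => rho_iot a
  psmul := by
    rintro ⟨r, ⟨a, v⟩⟩
    apply Prod.ext
    · exact (iot_rho r).symm
    · exact Prod.ext (smul_F a) (smul_V v)

lemma w_eq (x : BA p k) : (CA p k).w x = (rho p x.1, x.2.1) := rfl
lemma lam_eq (x : BA p k) : (CA p k).lam x = rho p x.1 := rfl
lemma ic_eq (a : ZMod p) : (CA p k).ic a = (iot p a, 0) := rfl

/-- complement -/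
def KA : CV (CA p k) (Fin k → ZMod p) where
  j := (AddMonoidHom.inr _ _).comp (AddMonoidHom.inr _ _)
  pv := (AddMonoidHom.snd _ _).comp (AddMonoidHom.snd _ _)
  pv_j := fun v => rfl
  pv_ic := fun a => rfl
  w_j := fun v => Prod.ext (map_zero (rho p)) rfl
  lam_j := fun v => map_zero (rho p)
  dec := by
    rintro ⟨r, ⟨a, v⟩⟩ hw hl
    have h1 : rho p r = 0 := hl
    obtain ⟨c, rfl⟩ := iot_of_rho h1
    have h2 : a = 0 := congrArg Prod.snd hw
    refine ⟨c, ?_⟩
    rw [h2]
    apply Prod.ext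
    · show iot p c = iot p c + 0
      rw [add_zero]
    · apply Prod.ext
      · show (0 : ZMod p) = 0 + 0
        rw [add_zero]
      · show v = 0 + v
        rw [zero_add]

/-! standard models -/

/-- model of the centre -/
abbrev ZM := ZMod p × (Fin k → ZMod p)
/-- model of the homocyclic line -/
abbrev NM := ZMod p × (ZMod p × (Fin k → ZMod p))
/-- model of the other lines -/
abbrev RM := ZMod (p ^ 2) × (Fin k → ZMod p)

lemma ZM_exp (z : ZM p k) : p • z = 0 := Prod.ext (smul_F z.1) (smul_V z.2)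
lemma NM_exp (z : NM p k) : p • z = 0 := Prod.ext (smul_F z.1) (ZM_exp p k z.2)
lemma RM_exp (z : RM p k) : (p ^ 2) • z = 0 := by
  apply Prod.ext
  · show (p ^ 2) • z.1 = 0
    rw [nsmul_eq_mul, ZMod.natCast_self, zero_mul]
  · exact exp_sq smul_V z.2

lemma card_ZM : Nat.card (ZM p k) = p ^ (k + 1) := by
  rw [Nat.card_prod, Nat.card_zmod, card_V]; ring
lemma card_NM : Nat.card (NM p k) = p ^ (k + 2) := by
  rw [Nat.card_prod, Nat.card_zmod, card_ZM]; ring
lemma card_RM : Nat.card (RM p k) = p ^ (k + 2) := by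
  rw [Nat.card_prod, Nat.card_zmod, card_V]; ring
lemma card_torRM : Nat.card (tor p (RM p k)) = p ^ (k + 1) := by
  rw [card_tor_prod, card_tor_R, card_tor_V]; ring
lemma card_torZM : Nat.card (tor p (ZM p k)) = p ^ (k + 1) := by
  rw [card_tor_exp (ZM_exp p k), card_ZM]
lemma card_torNM : Nat.card (tor p (NM p k)) = p ^ (k + 2) := by
  rw [card_tor_exp (NM_exp p k), card_NM]

lemma hom_RM {Y : Type} [AddCommGroup Y] (hY : ∀ y : Y, (p ^ 2) • y = 0) :
    Nat.card (RM p k →+ Y) = Nat.card Y * (Nat.card (tor p Y)) ^ k := by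
  rw [card_hom_prod, card_hom_R hY, card_hom_V]
lemma hom_ZM {Y : Type} [AddCommGroup Y] :
    Nat.card (ZM p k →+ Y) = (Nat.card (tor p Y)) ^ (k + 1) := by
  rw [card_hom_prod, card_hom_F, card_hom_V]; ring
lemma hom_NM {Y : Type} [AddCommGroup Y] :
    Nat.card (NM p k →+ Y) = (Nat.card (tor p Y)) ^ (k + 2) := by
  rw [card_hom_prod, card_hom_F, hom_ZM]; ring

/-- the centre as a subgroup -/
noncomputable def eZ : (CA p k).Z ≃+ ZM p k :=
  (AddEquiv.ofBijective
    (AddMonoidHom.mk' (fun z : ZM p k => (⟨(iot p z.1, (0, z.2)), by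
      show (CA p k).w (iot p z.1, (0, z.2)) = 0
      exact Prod.ext (rho_iot z.1) rfl⟩ : (CA p k).Z)) (by
      intro a b
      apply Subtype.ext
      apply Prod.ext
      · exact map_add (iot p) a.1 b.1
      · apply Prod.ext
        · exact (add_zero _).symm
        · rfl))
    ⟨by
      intro a b h
      have h1 : ((iot p a.1, (0, a.2)) : BA p k) = (iot p b.1, (0, b.2)) := congrArg Subtype.val h
      exact Prod.ext (iot_inj (congrArg Prod.fst h1)) (congrArg (fun x : BA p k => x.2.2) h1),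
    by
      rintro ⟨⟨r, ⟨a, v⟩⟩, hw⟩
      have hw1 : (CA p k).w (r, (a, v)) = 0 := hw
      have h1 : rho p r = 0 := congrArg Prod.fst hw1
      have h2 : a = 0 := congrArg Prod.snd hw1
      obtain ⟨c, rfl⟩ := iot_of_rho h1
      subst h2
      exact ⟨(c, v), rfl⟩⟩).symm

/-- the special line -/
noncomputable def eN : (CA p k).M none ≃+ NM p k :=
  (AddEquiv.ofBijective
    (AddMonoidHom.mk' (fun z : NM p k => (⟨(iot p z.1, z.2), by
      show CD.phi none ((CA p k).w (iot p z.1, z.2)) = 0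
      exact rho_iot z.1⟩ : (CA p k).M none)) (by
      intro a b
      apply Subtype.ext
      apply Prod.ext
      · exact map_add (iot p) a.1 b.1
      · rfl))
    ⟨by
      intro a b h
      have h1 : ((iot p a.1, a.2) : BA p k) = (iot p b.1, b.2) := congrArg Subtype.val h
      exact Prod.ext (iot_inj (congrArg Prod.fst h1)) (congrArg (fun x : BA p k => x.2) h1),
    by
      rintro ⟨⟨r, z⟩, hw⟩
      have h1 : rho p r = 0 := hw
      obtain ⟨c, rfl⟩ := iot_of_rho h1
      exact ⟨(c, z), rfl⟩⟩).symm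

/-- the other lines -/
def eR (a : ZMod p) : (CA p k).M (some a) ≃+ RM p k where
  toFun x := (x.1.1, x.1.2.2)
  invFun z := ⟨(z.1, (a * rho p z.1, z.2)), by
    show CD.phi (some a) ((CA p k).w (z.1, (a * rho p z.1, z.2))) = 0
    rw [CD.phi_some, w_eq, sub_self]⟩
  left_inv x := by
    apply Subtype.ext
    apply Prod.ext
    · rfl
    · apply Prod.ext
      · have h : CD.phi (some a) ((CA p k).w x.1) = 0 := x.2
        rw [CD.phi_some, sub_eq_zero, w_eq] at h
        exact h.symm
      · rfl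
  right_inv z := rfl
  map_add' x y := rfl

theorem card_isoA :
    (Nat.card {S : AddSubgroup (BA p k × BA p k) // ALike S ∧ (CA p k).Iso1 S ∧ (CA p k).Iso2 S} : ℤ) =
      ((p ^ (k + 2)) ^ (k + 2) + p * (p ^ (k + 1)) ^ (k + 2)
        + p * (p ^ (k + 2) * (p ^ (k + 2)) ^ k) + p * p * (p ^ (k + 2) * (p ^ (k + 1)) ^ k))
      - p * ((p ^ (k + 1)) ^ (k + 2) + p * (p ^ (k + 1) * (p ^ (k + 1)) ^ k))
      - p * ((p ^ (k + 2)) ^ (k + 1) + p * (p ^ (k + 1)) ^ (k + 1))
      + p * p * (p ^ (k + 1)) ^ (k + 1) := by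
  rw [CD.card_iso]
  have h00 : (Nat.card ((CA p k).M none →+ (CA p k).M none) : ℤ) = (p ^ (k + 2)) ^ (k + 2) := by
    rw [card_hom_congr (eN p k) (eN p k), hom_NM, card_torNM]; push_cast; rfl
  have h01 : ∀ a, (Nat.card ((CA p k).M none →+ (CA p k).M (some a)) : ℤ) =
      (p ^ (k + 1)) ^ (k + 2) := by
    intro a
    rw [card_hom_congr (eN p k) (eR p k a), hom_NM, card_torRM]; push_cast; rfl
  have h10 : ∀ a, (Nat.card ((CA p k).M (some a) →+ (CA p k).M none) : ℤ) =
      p ^ (k + 2) * (p ^ (k + 2)) ^ k := by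
    intro a
    rw [card_hom_congr (eR p k a) (eN p k), hom_RM p k (exp_sq (NM_exp p k)), card_torNM, card_NM]
    push_cast; rfl
  have h11 : ∀ a b, (Nat.card ((CA p k).M (some a) →+ (CA p k).M (some b)) : ℤ) =
      p ^ (k + 2) * (p ^ (k + 1)) ^ k := by
    intro a b
    rw [card_hom_congr (eR p k a) (eR p k b), hom_RM p k (RM_exp p k), card_torRM, card_RM]
    push_cast; rfl
  have hZ0 : (Nat.card ((CA p k).Z →+ (CA p k).M none) : ℤ) = (p ^ (k + 2)) ^ (k + 1) := by
    rw [card_hom_congr (eZ p k) (eN p k), hom_ZM, card_torNM]; push_cast; rfl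
  have hZ1 : ∀ a, (Nat.card ((CA p k).Z →+ (CA p k).M (some a)) : ℤ) = (p ^ (k + 1)) ^ (k + 1) := by
    intro a
    rw [card_hom_congr (eZ p k) (eR p k a), hom_ZM, card_torRM]; push_cast; rfl
  have h0Z : (Nat.card ((CA p k).M none →+ (CA p k).Z) : ℤ) = (p ^ (k + 1)) ^ (k + 2) := by
    rw [card_hom_congr (eN p k) (eZ p k), hom_NM, card_torZM]; push_cast; rfl
  have h1Z : ∀ a, (Nat.card ((CA p k).M (some a) →+ (CA p k).Z) : ℤ) =
      p ^ (k + 1) * (p ^ (k + 1)) ^ k := by
    intro a
    rw [card_hom_congr (eR p k a) (eZ p k), hom_RM p k (exp_sq (ZM_exp p k)), card_torZM, card_ZM]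
    push_cast; rfl
  have hZZ : (Nat.card ((CA p k).Z →+ (CA p k).Z) : ℤ) = (p ^ (k + 1)) ^ (k + 1) := by
    rw [card_hom_congr (eZ p k) (eZ p k), hom_ZM, card_torZM]; push_cast; rfl
  simp only [Fintype.sum_option, h00, h01, h10, h11, hZ0, hZ1, h0Z, h1Z, hZZ, Finset.sum_const,
    Finset.card_univ, ZMod.card, nsmul_eq_mul]
  ring

/-- number of generator pairs -/
theorem card_condA {κ : ZMod p} (hκ : κ ≠ 0) :
    Nat.card {X : (BA p k × BA p k) × (BA p k × BA p k) // (CA p k).Cond κ X} =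
      p ^ (5 + 4 * k) := by
  have h1 : ∀ a, Nat.card {r : ZMod (p ^ 2) // rho p r = a} = p := by
    intro a
    have h := card_fiber (rho p) rho_surj a
    rw [Nat.card_zmod] at h
    exact Nat.eq_of_mul_eq_mul_right (Fact.out : p.Prime).pos (h.trans (sq p))
  have h2 : Nat.card {X : (BA p k × BA p k) × (BA p k × BA p k) // (CA p k).Cond κ X} =
      Nat.card ((({r : ZMod (p ^ 2) // rho p r = 1} × {r : ZMod (p ^ 2) // rho p r = κ}) ×
        ({r : ZMod (p ^ 2) // rho p r = 0} × {r : ZMod (p ^ 2) // rho p r = 0})) ×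
        (ZMod p × (((Fin k → ZMod p) × (Fin k → ZMod p)) × ((Fin k → ZMod p) × (Fin k → ZMod p))))) := by
    apply Nat.card_congr
    exact
      { toFun := fun X => (((⟨X.1.1.1.1, congrArg Prod.fst X.2.1⟩,
            ⟨X.1.1.2.1, by
              have h3 : rho p X.1.1.2.1 = κ * rho p X.1.1.1.1 := X.2.2.2.2.1
              have h4 : rho p X.1.1.1.1 = 1 := congrArg Prod.fst X.2.1
              rw [h3, h4, mul_one]⟩),
            (⟨X.1.2.1.1, congrArg Prod.fst X.2.2.1⟩,
            ⟨X.1.2.2.1, by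
              have h3 : rho p X.1.2.2.1 = κ * rho p X.1.2.1.1 := X.2.2.2.2.2
              have h4 : rho p X.1.2.1.1 = 0 := congrArg Prod.fst X.2.2.1
              rw [h3, h4, mul_zero]⟩)),
            (X.1.1.2.2.1, ((X.1.1.1.2.2, X.1.1.2.2.2), (X.1.2.1.2.2, X.1.2.2.2.2))))
        invFun := fun t => ⟨(((t.1.1.1.1, (0, t.2.2.1.1)), (t.1.1.2.1, (t.2.1, t.2.2.1.2))),
          ((t.1.2.1.1, (1, t.2.2.2.1)), (t.1.2.2.1, (1, t.2.2.2.2)))), by
            have e1 := t.1.1.1.2
            have e2 := t.1.1.2.2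
            have e3 := t.1.2.1.2
            have e4 := t.1.2.2.2
            refine ⟨Prod.ext e1 rfl, Prod.ext e3 rfl, ?_, ?_, ?_⟩
            · show rho p t.1.1.2.1 * 1 - t.2.1 * rho p t.1.2.2.1 = κ
              rw [e2, e4]; ring
            · show rho p t.1.1.2.1 = κ * rho p t.1.1.1.1
              rw [e2, e1, mul_one]
            · show rho p t.1.2.2.1 = κ * rho p t.1.2.1.1
              rw [e4, e3, mul_zero]⟩
        left_inv := fun X => by
          apply Subtype.ext
          have f1 : (0 : ZMod p) = X.1.1.1.2.1 := (congrArg Prod.snd X.2.1).symm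
          have f2 : (1 : ZMod p) = X.1.2.1.2.1 := (congrArg Prod.snd X.2.2.1).symm
          have f3 : (1 : ZMod p) = X.1.2.2.2.1 := by
            have h3 : rho p X.1.1.2.1 = κ * rho p X.1.1.1.1 := X.2.2.2.2.1
            have h4 : rho p X.1.1.1.1 = 1 := congrArg Prod.fst X.2.1
            have h5 : rho p X.1.2.2.1 = κ * rho p X.1.2.1.1 := X.2.2.2.2.2
            have h6 : rho p X.1.2.1.1 = 0 := congrArg Prod.fst X.2.2.1
            have h7 : rho p X.1.1.2.1 * X.1.2.2.2.1 - X.1.1.2.2.1 * rho p X.1.2.2.1 = κ := X.2.2.2.1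
            rw [h3, h5, h6, h4, mul_one, mul_zero, mul_zero, sub_zero] at h7
            exact (mul_left_cancel₀ hκ (by rw [h7, mul_one])).symm
          apply Prod.ext
          · apply Prod.ext
            · exact Prod.ext rfl (Prod.ext f1 rfl)
            · rfl
          · apply Prod.ext
            · exact Prod.ext rfl (Prod.ext f2 rfl)
            · exact Prod.ext rfl (Prod.ext f3 rfl)
        right_inv := fun t => rfl }
  rw [h2]
  simp only [Nat.card_prod, h1, card_V, Nat.card_zmod]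
  ring

/-- the number of closed non-isotropic graphs with given `κ` -/
theorem card_SKA {κ : ZMod p} (hκ : κ ≠ 0) :
    (Nat.card {S : AddSubgroup (BA p k × BA p k) // (CA p k).SK κ S} : ℚ) =
      ∑ t ∈ Finset.range (k + 1), (PP p t k) ^ 2 / (PP p t t) * (p : ℚ) ^ t *
        ((p : ℚ) ^ (5 + 4 * k) / (p * p ^ t) ^ 2) := by
  have i1 : Fintype {T : AddSubgroup (BA p k × BA p k) // (CA p k).TK κ T} := Fintype.ofFinite _
  let eI : CV.Idx p (Fin k → ZMod p) ≃
    {T : AddSubgroup (BA p k × BA p k) // (CA p k).TK κ T} :=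
    ((KA p k).idxEquiv hκ).trans (Equiv.subtypeEquivRight (fun T => by
      constructor
      · exact fun h => h.1
      · intro h
        refine ⟨h, fun u hu => ?_⟩
        exact congrArg Prod.fst (h.2.1 u hu).1))
  have i3 : Fintype (CV.Idx p (Fin k → ZMod p)) := Fintype.ofEquiv _ eI.symm
  rw [CD.card_SK (CA p k) hκ, card_condA p k hκ]
  have h4 : ∑ T : {T : AddSubgroup (BA p k × BA p k) // (CA p k).TK κ T},
      (((p ^ (5 + 4 * k) : ℕ) : ℚ) / ((Nat.card T.1 : ℕ) : ℚ) ^ 2) =
      ∑ t : CV.Idx p (Fin k → ZMod p),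
        (((p ^ (5 + 4 * k) : ℕ) : ℚ) / ((p * Nat.card t.1 : ℕ) : ℚ) ^ 2) := by
    symm
    apply Fintype.sum_equiv eI
    intro t
    have h5 : Nat.card (eI t).1 = p * Nat.card t.1 := (KA p k).card_mkT κ t
    rw [h5]
  rw [h4]
  have h6 := sum_idx (p := p) (V := Fin k → ZMod p)
    (fun n => ((p ^ (5 + 4 * k) : ℕ) : ℚ) / ((p * n : ℕ) : ℚ) ^ 2)
  rw [h6]
  have hfr : Module.finrank (ZMod p) (Fin k → ZMod p) = k := by simp
  rw [hfr]
  apply Finset.sum_congr rfl
  intro t _
  push_cast
  rfl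

/-- the special element -/
def x0 : BA p k := (1, (0, 0))

lemma lam_x0 : (CA p k).lam (x0 p k) = 1 := by
  rw [lam_eq]
  show rho p (1 : ZMod (p ^ 2)) = 1
  have := rho_natCast (p := p) 1
  simpa using this

lemma homBV : Nat.card (BA p k →+ (Fin k → ZMod p)) = (p ^ k) ^ (k + 2) := by
  rw [card_hom_prod, card_hom_R (exp_sq smul_V), hom_ZM, card_tor_V, card_V]; ring
lemma homBR : Nat.card (BA p k →+ ZMod (p ^ 2)) = p ^ 2 * p ^ (k + 1) := by
  rw [card_hom_prod, card_hom_R, hom_ZM, card_tor_R, Nat.card_zmod]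
  intro y
  rw [nsmul_eq_mul, ZMod.natCast_self, zero_mul]
lemma homBF : Nat.card (BA p k →+ ZMod p) = p ^ (k + 2) := by
  rw [card_hom_prod, card_hom_R (exp_sq smul_F), hom_ZM, card_tor_F, Nat.card_zmod]; ring

/-- endomorphism count -/
theorem card_endA :
    Nat.card {g : BA p k →+ BA p k // ∀ x y, g ((CA p k).L.br x y) = (CA p k).L.br (g x) (g y)} * p =
      (p ^ k) ^ (k + 2) * (p ^ 2 * p ^ (k + 1)) * (p ^ (k + 2) + (p - 1) * p) := by
  classical
  have : Finite (BA p k →+ (Fin k → ZMod p)) := DFunLike.finite _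
  have : Finite (BA p k →+ ZMod (p ^ 2)) := DFunLike.finite _
  have : Finite (BA p k →+ ZMod p) := DFunLike.finite _
  have i1 : Fintype (BA p k →+ ZMod (p ^ 2)) := Fintype.ofFinite _
  let μ : (BA p k →+ ZMod (p ^ 2)) →+ ZMod p :=
    AddMonoidHom.mk' (fun g => rho p (g (x0 p k))) (by
      intro a b
      rw [AddMonoidHom.add_apply, map_add])
  have hμ : ∀ g, μ g = rho p (g (x0 p k)) := fun g => rfl
  have hμs : Surjective μ := by
    intro a
    obtain ⟨r, hr⟩ := rho_surj (p := p) a
    refine ⟨(AddMonoidHom.mulLeft r).comp (AddMonoidHom.fst _ _), ?_⟩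
    rw [hμ]
    show rho p (r * 1) = a
    rw [mul_one, hr]
  have hlam : ∀ (gR : BA p k →+ ZMod (p ^ 2)) (y : BA p k),
      rho p (gR y) = rho p y.1 * μ gR := by
    intro gR y
    have h := (CA p k).lam_g (lam_x0 p k) (gR.prod (0 : BA p k →+ ZM p k)) y
    exact h
  let lamh : BA p k →+ ZMod p := (rho p).comp (AddMonoidHom.fst _ _)
  have hlam0 : lamh ≠ 0 := by
    intro h
    have h1 : lamh (x0 p k) = 1 := lam_x0 p k
    rw [h] at h1
    exact one_ne_zero h1.symm
  let nu : BA p k →+ ZMod p := (AddMonoidHom.fst _ _).comp (AddMonoidHom.snd _ _)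
  have h1 : Nat.card {g : BA p k →+ BA p k //
      ∀ x y, g ((CA p k).L.br x y) = (CA p k).L.br (g x) (g y)} =
      Nat.card ((BA p k →+ (Fin k → ZMod p)) ×
        (Σ gR : BA p k →+ ZMod (p ^ 2), {gF : BA p k →+ ZMod p //
        ∀ x y, rho p (gR x) * gF y - gF x * rho p (gR y) =
          (rho p x.1 * y.2.1 - x.2.1 * rho p y.1) * μ gR})) := by
    apply Nat.card_congr
    exact
      { toFun := fun g => ((AddMonoidHom.snd _ _).comp ((AddMonoidHom.snd _ _).comp g.1),
          ⟨(AddMonoidHom.fst _ _).comp g.1,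
            ⟨(AddMonoidHom.fst _ _).comp ((AddMonoidHom.snd _ _).comp g.1),
          ((CA p k).compat_iff (lam_x0 p k) g.1).1 g.2⟩⟩)
        invFun := fun t => ⟨t.2.1.prod (t.2.2.1.prod t.1),
          ((CA p k).compat_iff (lam_x0 p k) (t.2.1.prod (t.2.2.1.prod t.1))).2 t.2.2.2⟩
        left_inv := fun g => rfl
        right_inv := fun t => rfl }
  have h2 : ∀ gR : BA p k →+ ZMod (p ^ 2), Nat.card {gF : BA p k →+ ZMod p //
        ∀ x y, rho p (gR x) * gF y - gF x * rho p (gR y) =
          (rho p x.1 * y.2.1 - x.2.1 * rho p y.1) * μ gR} =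
        if μ gR = 0 then p ^ (k + 2) else p := by
    intro gR
    by_cases hm : μ gR = 0
    · rw [if_pos hm, ← homBF p k]
      apply Nat.card_congr
      exact
        { toFun := fun g => g.1
          invFun := fun g => ⟨g, by
            intro x y
            rw [hlam gR x, hlam gR y, hm]; ring⟩
          left_inv := fun g => rfl
          right_inv := fun g => rfl }
    · rw [if_neg hm]
      refine Eq.trans ?_ (card_prop hlam0)
      apply Nat.card_congr
      exact
        { toFun := fun g => ⟨g.1 - nu, by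
            intro x y
            have h := g.2 x y
            rw [hlam gR x, hlam gR y] at h
            show rho p x.1 * (g.1 y - y.2.1) - (g.1 x - x.2.1) * rho p y.1 = 0
            apply mul_right_cancel₀ hm
            linear_combination h⟩
          invFun := fun b => ⟨b.1 + nu, by
            intro x y
            have h : rho p x.1 * b.1 y - b.1 x * rho p y.1 = 0 := b.2 x y
            rw [hlam gR x, hlam gR y]
            show rho p x.1 * μ gR * (b.1 y + y.2.1) - (b.1 x + x.2.1) * (rho p y.1 * μ gR) = _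
            linear_combination (μ gR) * h⟩
          left_inv := fun g => Subtype.ext (sub_add_cancel _ _)
          right_inv := fun g => Subtype.ext (add_sub_cancel_right _ _) }
  rw [h1, Nat.card_prod, homBV, Nat.card_sigma, Finset.sum_congr rfl (fun g _ => h2 g)]
  have h3 : ∑ g : BA p k →+ ZMod (p ^ 2), (if μ g = 0 then p ^ (k + 2) else p) =
      ∑ m : ZMod p, Nat.card {g // μ g = m} * (if m = 0 then p ^ (k + 2) else p) := by
    rw [← Finset.sum_fiberwise (s := Finset.univ) (g := μ)]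
    apply Finset.sum_congr rfl
    intro m _
    rw [Finset.sum_congr rfl (g := fun _ => (if m = 0 then p ^ (k + 2) else p))]
    · rw [Finset.sum_const, smul_eq_mul, Nat.card_eq_fintype_card, Fintype.card_subtype]
    · intro g hg
      rw [Finset.mem_filter] at hg
      rw [hg.2]
  rw [h3, mul_assoc, Finset.sum_mul, mul_assoc]
  congr 1
  have h4 : ∀ m : ZMod p, Nat.card {g // μ g = m} * (if m = 0 then p ^ (k + 2) else p) * p =
        (p ^ 2 * p ^ (k + 1)) * (if m = 0 then p ^ (k + 2) else p) := by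
    intro m
    rw [mul_right_comm, card_fiber μ hμs m, homBR]
  rw [Finset.sum_congr rfl (fun m _ => h4 m), ← Finset.mul_sum]
  congr 1
  rw [Finset.sum_ite, Finset.sum_const, Finset.sum_const]
  have h5 : (Finset.univ.filter (fun m : ZMod p => m = 0)).card = 1 := by
    rw [Finset.card_eq_one]
    exact ⟨0, by ext a; simp⟩
  have h6 : (Finset.univ.filter (fun m : ZMod p => ¬ m = 0)).card = p - 1 := by
    have h7 := Finset.card_filter_add_card_filter_not (s := (Finset.univ : Finset (ZMod p)))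
      (fun m => m = 0)
    rw [h5, Finset.card_univ, ZMod.card] at h7
    omega
  rw [h5, h6, one_smul, smul_eq_mul]

end TA

end H130
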