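import Mathlib
import Pool.Agent.Helper130_piso.TypeA

/-!
The pieces `M_{p³}` and `M_{p³} × C_p` as `Good` triples.
-/

namespace H130

open Function

namespace TA

variable (p : ℕ) [Fact p.Prime]

lemma exists_half (hp : p ≠ 2) (k : ℕ) : ∃ m : ℕ, ∀ b : BA p k, m • (2 • b) = b := by
  have hodd : Odd p := (Fact.out : p.Prime).odd_of_ne_two hp
  have h2 : Odd (p ^ 2) := hodd.pow
  obtain ⟨c, hc⟩ := h2
  refine ⟨c + 1, fun b => ?_⟩
  have h3 : (c + 1) * 2 = p ^ 2 + 1 := by omega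
  rw [← mul_smul, h3, add_smul, one_smul]
  have : (p ^ 2) • b = 0 := by
    apply Prod.ext
    · show (p ^ 2) • b.1 = 0
      rw [nsmul_eq_mul, ZMod.natCast_self, zero_mul]
    · exact exp_sq (ZM_exp p k) b.2
  rw [this, zero_add]

lemma nonabA (hp : p ≠ 2) (k : ℕ) : ∃ a b : (CA p k).L.Grp, a * b ≠ b * a := by
  refine ⟨⟨(1, (0, 0))⟩, ⟨(0, (1, 0))⟩, ?_⟩
  intro h
  have h1 := congrArg LieD.Grp.val h
  rw [LieD.mul_val, LieD.mul_val] at h1
  have h2 := congrArg (fun x : BA p k => x.1) h1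
  have h3 : iot p (det ((rho p 1, 0) : ZMod p × ZMod p) (rho p 0, 1)) =
      iot p (det ((rho p 0, 1) : ZMod p × ZMod p) (rho p 1, 0)) := by
    have h4 : (1 : ZMod (p ^ 2)) + 0 + iot p (det ((rho p 1, 0) : ZMod p × ZMod p) (rho p 0, 1)) =
      0 + 1 + iot p (det ((rho p 0, 1) : ZMod p × ZMod p) (rho p 1, 0)) := h2
    rwa [add_zero, zero_add, add_right_inj] at h4
  have h5 := iot_inj h3
  have h6 : rho p 1 = 1 := lam_x0 p k
  rw [h6, map_zero] at h5
  simp only [det, mul_one, mul_zero, zero_mul, sub_zero, zero_sub] at h5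
  have h7 : ((2 : ℕ) : ZMod p) = 0 := by
    push_cast
    linear_combination h5
  rw [ZMod.natCast_eq_zero_iff] at h7
  exact hp ((Nat.prime_dvd_prime_iff_eq (Fact.out : p.Prime) Nat.prime_two).1 h7)

lemma card_ne_zero : Fintype.card {κ : ZMod p // κ ≠ 0} = p - 1 := by
  rw [Fintype.card_subtype_compl, ZMod.card, Fintype.card_subtype_eq]

/-- the partial isomorphism count in closed form -/
lemma cast_split (k : ℕ) (s : ℚ) (hs : ∀ κ : {κ : ZMod p // κ ≠ 0},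
    (Nat.card {S : AddSubgroup (BA p k × BA p k) // (CA p k).SK κ.1 S} : ℚ) = s) :
    (Nat.card {S : AddSubgroup (BA p k × BA p k) // ALike S ∧ ((CA p k).L.prod (CA p k).L).Closed S} : ℚ)
      = (((p ^ (k + 2)) ^ (k + 2) + p * (p ^ (k + 1)) ^ (k + 2)
        + p * (p ^ (k + 2) * (p ^ (k + 2)) ^ k) + p * p * (p ^ (k + 2) * (p ^ (k + 1)) ^ k))
      - p * ((p ^ (k + 1)) ^ (k + 2) + p * (p ^ (k + 1) * (p ^ (k + 1)) ^ k))
      - p * ((p ^ (k + 2)) ^ (k + 1) + p * (p ^ (k + 1)) ^ (k + 1))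
      + p * p * (p ^ (k + 1)) ^ (k + 1)) + ((p : ℚ) - 1) * s := by
  rw [(CA p k).card_split]
  have h := congrArg (fun z : ℤ => (z : ℚ)) (card_isoA p k)
  simp only [Int.cast_natCast] at h
  rw [Nat.cast_add, h, Nat.cast_sum, Finset.sum_congr rfl (fun κ _ => hs κ), Finset.sum_const,
    Finset.card_univ, card_ne_zero, nsmul_eq_mul, Nat.cast_sub (Fact.out : p.Prime).one_lt.le]
  push_cast
  ring

theorem goodA0 (hp : p ≠ 2) : Good (p ^ 3) (p ^ 3 * (2 * p - 1)) (p ^ 3 * (3 * p - 2)) := by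
  obtain ⟨m, hm⟩ := exists_half p hp 0
  have hpos : 0 < p := (Fact.out : p.Prime).pos
  have h1p : 1 ≤ p := hpos
  refine ⟨(CA p 0).L.Grp, inferInstance, inferInstance, nonabA p hp 0, ?_, ?_, ?_⟩
  · rw [Nat.card_congr (CA p 0).L.eqv, Nat.card_prod, Nat.card_zmod, card_ZM]
    ring
  · rw [LieD.card_end (CA p 0).L m hm]
    have h := card_endA p 0
    apply Nat.eq_of_mul_eq_mul_right hpos
    rw [h]
    zify [h1p, (by omega : 1 ≤ 2 * p)]
    ring
  · rw [LieD.card_glike (CA p 0).L m hm]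
    have hs : ∀ κ : {κ : ZMod p // κ ≠ 0},
        (Nat.card {S : AddSubgroup (BA p 0 × BA p 0) // (CA p 0).SK κ.1 S} : ℚ) = (p : ℚ) ^ 3 := by
      intro κ
      rw [card_SKA p 0 κ.2]
      have : (p : ℚ) ≠ 0 := by exact_mod_cast hpos.ne'
      simp [Finset.sum_range_succ, PP]
      field_simp
    have h := cast_split p 0 _ hs
    have h2 : ((Nat.card {S : AddSubgroup (BA p 0 × BA p 0) // ALike S ∧
        ((CA p 0).L.prod (CA p 0).L).Closed S} : ℕ) : ℚ) = ((p ^ 3 * (3 * p - 2) : ℕ) : ℚ) := by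
      rw [h, Nat.cast_mul, Nat.cast_sub (by omega : 2 ≤ 3 * p)]
      push_cast
      ring
    exact_mod_cast h2

theorem goodA1 (hp : p ≠ 2) :
    Good (p ^ 4) (p ^ 7 * (p ^ 2 + p - 1)) (p ^ 7 * (p ^ 2 + 2 * p - 2)) := by
  obtain ⟨m, hm⟩ := exists_half p hp 1
  have hpos : 0 < p := (Fact.out : p.Prime).pos
  have h1p : 1 ≤ p := hpos
  refine ⟨(CA p 1).L.Grp, inferInstance, inferInstance, nonabA p hp 1, ?_, ?_, ?_⟩
  · rw [Nat.card_congr (CA p 1).L.eqv, Nat.card_prod, Nat.card_zmod, card_ZM]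
    ring
  · rw [LieD.card_end (CA p 1).L m hm]
    have h := card_endA p 1
    apply Nat.eq_of_mul_eq_mul_right hpos
    rw [h]
    zify [h1p, (by nlinarith : 1 ≤ p ^ 2 + p)]
    ring
  · rw [LieD.card_glike (CA p 1).L m hm]
    have hs : ∀ κ : {κ : ZMod p // κ ≠ 0},
        (Nat.card {S : AddSubgroup (BA p 1 × BA p 1) // (CA p 1).SK κ.1 S} : ℚ) =
          2 * (p : ℚ) ^ 7 - (p : ℚ) ^ 6 := by
      intro κ
      rw [card_SKA p 1 κ.2]
      have h0 : (p : ℚ) ≠ 0 := by exact_mod_cast hpos.ne'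
      have h1 : (p : ℚ) - 1 ≠ 0 := by
        have : (1 : ℚ) < p := by exact_mod_cast (Fact.out : p.Prime).one_lt
        linarith
      simp [Finset.sum_range_succ, PP]
      field_simp
      ring
    have h := cast_split p 1 _ hs
    have h2 : ((Nat.card {S : AddSubgroup (BA p 1 × BA p 1) // ALike S ∧
        ((CA p 1).L.prod (CA p 1).L).Closed S} : ℕ) : ℚ) = ((p ^ 7 * (p ^ 2 + 2 * p - 2) : ℕ) : ℚ) := by
      rw [h, Nat.cast_mul, Nat.cast_sub (by nlinarith : 2 ≤ p ^ 2 + 2 * p)]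
      push_cast
      ring
    exact_mod_cast h2

end TA

end H130
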