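import Mathlib
import Pool.Agent.Helper130_piso.Hom2

/-!
The special piece: `C_{p²} ∘ p^{1+2} × C_p^k`.
-/

namespace H130

open Function

namespace TC

variable (p k : ℕ) [Fact p.Prime]

/-- the centre -/
abbrev ZC := ZMod (p ^ 2) × (Fin k → ZMod p)
/-- the additive group -/
abbrev BC := (ZMod p × ZMod p) × ZC p k

/-- core data -/
def CC : CD p (BC p k) where
  w := AddMonoidHom.fst _ _
  lam := (rho p).comp ((AddMonoidHom.fst _ _).comp (AddMonoidHom.snd _ _))
  ic := (AddMonoidHom.inr _ _).comp ((AddMonoidHom.inl _ _).comp (iot p))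
  ic_inj := by
    intro a b h
    have h1 := congrArg (fun x : BC p k => x.2.1) h
    exact iot_inj h1
  w_ic := fun a => rfl
  lam_ic := fun a => rho_iot a
  psmul := by
    rintro ⟨⟨a, b⟩, ⟨r, v⟩⟩
    apply Prod.ext
    · exact Prod.ext (smul_F a) (smul_F b)
    · exact Prod.ext (iot_rho r).symm (smul_V v)

lemma w_eq (x : BC p k) : (CC p k).w x = x.1 := rfl
lemma lam_eq (x : BC p k) : (CC p k).lam x = rho p x.2.1 := rfl
lemma ic_eq (a : ZMod p) : (CC p k).ic a = ((0, 0), (iot p a, 0)) := rfl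

/-- complement -/
def KC : CV (CC p k) (Fin k → ZMod p) where
  j := (AddMonoidHom.inr _ _).comp (AddMonoidHom.inr _ _)
  pv := (AddMonoidHom.snd _ _).comp (AddMonoidHom.snd _ _)
  pv_j := fun v => rfl
  pv_ic := fun a => rfl
  w_j := fun v => rfl
  lam_j := fun v => map_zero (rho p)
  dec := by
    rintro ⟨⟨a, b⟩, ⟨r, v⟩⟩ hw hl
    have h1 : rho p r = 0 := hl
    obtain ⟨c, rfl⟩ := iot_of_rho h1
    have h2 : ((a, b) : ZMod p × ZMod p) = 0 := hw
    refine ⟨c, ?_⟩
    rw [h2]
    apply Prod.ext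
    · show (0 : ZMod p × ZMod p) = 0 + 0
      rw [add_zero]
    · apply Prod.ext
      · show iot p c = iot p c + 0
        rw [add_zero]
      · show v = 0 + v
        rw [zero_add]

/-! cardinalities of standard groups -/

lemma ZC_exp (z : ZC p k) : (p ^ 2) • z = 0 := by
  apply Prod.ext
  · show (p ^ 2) • z.1 = 0
    rw [nsmul_eq_mul, ZMod.natCast_self, zero_mul]
  · exact exp_sq smul_V z.2

lemma card_ZC : Nat.card (ZC p k) = p ^ (k + 2) := by
  rw [Nat.card_prod, Nat.card_zmod, card_V, ← pow_add, add_comm]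

lemma card_torZC : Nat.card (tor p (ZC p k)) = p ^ (k + 1) := by
  rw [card_tor_prod, card_tor_R, card_tor_V, pow_succ, mul_comm]

/-- the standard model of the subgroups over lines -/
abbrev MC := ZMod p × ZC p k

lemma MC_exp (z : MC p k) : (p ^ 2) • z = 0 := by
  apply Prod.ext
  · exact exp_sq smul_F z.1
  · exact ZC_exp p k z.2

lemma card_MC : Nat.card (MC p k) = p ^ (k + 3) := by
  rw [Nat.card_prod, Nat.card_zmod, card_ZC]; ring

lemma card_torMC : Nat.card (tor p (MC p k)) = p ^ (k + 2) := by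
  rw [card_tor_prod, card_tor_F, card_torZC]; ring

lemma hom_ZC {Y : Type} [AddCommGroup Y] (hY : ∀ y : Y, (p ^ 2) • y = 0) :
    Nat.card (ZC p k →+ Y) = Nat.card Y * (Nat.card (tor p Y)) ^ k := by
  rw [card_hom_prod, card_hom_R hY, card_hom_V]

lemma hom_MC {Y : Type} [AddCommGroup Y] (hY : ∀ y : Y, (p ^ 2) • y = 0) :
    Nat.card (MC p k →+ Y) = Nat.card Y * (Nat.card (tor p Y)) ^ (k + 1) := by
  rw [card_hom_prod, card_hom_F, hom_ZC p k hY]; ring

lemma hMM : Nat.card (MC p k →+ MC p k) = p ^ (k + 3) * (p ^ (k + 2)) ^ (k + 1) := by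
  rw [hom_MC p k (MC_exp p k), card_MC, card_torMC]

lemma hMZ : Nat.card (MC p k →+ ZC p k) = p ^ (k + 2) * (p ^ (k + 1)) ^ (k + 1) := by
  rw [hom_MC p k (ZC_exp p k), card_ZC, card_torZC]

lemma hZM : Nat.card (ZC p k →+ MC p k) = p ^ (k + 3) * (p ^ (k + 2)) ^ k := by
  rw [hom_ZC p k (MC_exp p k), card_MC, card_torMC]

lemma hZZ : Nat.card (ZC p k →+ ZC p k) = p ^ (k + 2) * (p ^ (k + 1)) ^ k := by
  rw [hom_ZC p k (ZC_exp p k), card_ZC, card_torZC]

/-- the centre as a subgroup -/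
def eZ : (CC p k).Z ≃+ ZC p k where
  toFun x := x.1.2
  invFun z := ⟨(0, z), rfl⟩
  left_inv x := by
    apply Subtype.ext
    apply Prod.ext
    · exact (show (0 : ZMod p × ZMod p) = x.1.1 from x.2.symm)
    · rfl
  right_inv z := rfl
  map_add' x y := rfl

/-- the subgroups over lines -/
def eM (i : Option (ZMod p)) : (CC p k).M i ≃+ MC p k :=
  match i with
  | none =>
    { toFun := fun x => (x.1.1.2, x.1.2)
      invFun := fun z => ⟨((0, z.1), z.2), rfl⟩
      left_inv := fun x => by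
        apply Subtype.ext
        apply Prod.ext
        · apply Prod.ext
          · exact (show (0 : ZMod p) = x.1.1.1 from x.2.symm)
          · rfl
        · rfl
      right_inv := fun z => rfl
      map_add' := fun x y => rfl }
  | some a =>
    { toFun := fun x => (x.1.1.1, x.1.2)
      invFun := fun z => ⟨((z.1, a * z.1), z.2), by
        show CD.phi (some a) ((z.1, a * z.1) : ZMod p × ZMod p) = 0
        rw [CD.phi_some]; simp⟩
      left_inv := fun x => by
        apply Subtype.ext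
        apply Prod.ext
        · apply Prod.ext
          · rfl
          · have h : CD.phi (some a) x.1.1 = 0 := x.2
            rw [CD.phi_some, sub_eq_zero] at h
            exact h.symm
        · rfl
      right_inv := fun z => rfl
      map_add' := fun x y => rfl }

theorem card_isoC :
    (Nat.card {S : AddSubgroup (BC p k × BC p k) // ALike S ∧ (CC p k).Iso1 S ∧ (CC p k).Iso2 S} : ℤ) =
      (p + 1) * (p + 1) * (p ^ (k + 3) * (p ^ (k + 2)) ^ (k + 1))
      - p * ((p + 1) * (p ^ (k + 2) * (p ^ (k + 1)) ^ (k + 1)))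
      - p * ((p + 1) * (p ^ (k + 3) * (p ^ (k + 2)) ^ k))
      + p * p * (p ^ (k + 2) * (p ^ (k + 1)) ^ k) := by
  rw [CD.card_iso]
  have e1 : ∀ i j, (Nat.card ((CC p k).M i →+ (CC p k).M j) : ℤ) =
      p ^ (k + 3) * (p ^ (k + 2)) ^ (k + 1) := by
    intro i j
    rw [card_hom_congr (eM p k i) (eM p k j), hMM]; push_cast; rfl
  have e2 : ∀ i, (Nat.card ((CC p k).M i →+ (CC p k).Z) : ℤ) =
      p ^ (k + 2) * (p ^ (k + 1)) ^ (k + 1) := by
    intro i
    rw [card_hom_congr (eM p k i) (eZ p k), hMZ]; push_cast; rfl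
  have e3 : ∀ i, (Nat.card ((CC p k).Z →+ (CC p k).M i) : ℤ) =
      p ^ (k + 3) * (p ^ (k + 2)) ^ k := by
    intro i
    rw [card_hom_congr (eZ p k) (eM p k i), hZM]; push_cast; rfl
  have e4 : (Nat.card ((CC p k).Z →+ (CC p k).Z) : ℤ) =
      p ^ (k + 2) * (p ^ (k + 1)) ^ k := by
    rw [card_hom_congr (eZ p k) (eZ p k), hZZ]; push_cast; rfl
  simp only [e1, e2, e3, e4, Finset.sum_const, Finset.card_univ, Fintype.card_option, ZMod.card,
    nsmul_eq_mul]
  push_cast
  ring

/-- the functional `z ↦ rho z.1` -/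
def rZ : ZC p k →+ ZMod p := (rho p).comp (AddMonoidHom.fst _ _)

lemma rZ_surj : Surjective (rZ p k) := by
  intro a
  obtain ⟨r, hr⟩ := rho_surj (p := p) a
  exact ⟨(r, 0), hr⟩

/-- number of generator pairs -/
theorem card_condC {κ : ZMod p} (hκ : κ ≠ 0) :
    Nat.card {X : (BC p k × BC p k) × (BC p k × BC p k) // (CC p k).Cond κ X} =
      (p ^ 2 - 1) * p * (p ^ (2 * k + 3)) ^ 2 := by
  have h1 : Nat.card {z : ZC p k × ZC p k // rZ p k z.2 = κ * rZ p k z.1} = p ^ (2 * k + 3) := by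
    have h := card_pair (rZ p k) (rZ_surj p k) κ
    rw [card_ZC, ← pow_mul] at h
    have h2 : p ^ ((k + 2) * 2) = p ^ (2 * k + 3) * p := by ring
    rw [h2] at h
    exact Nat.eq_of_mul_eq_mul_right (Fact.out : p.Prime).pos h
  have h2 : Nat.card {X : (BC p k × BC p k) × (BC p k × BC p k) // (CC p k).Cond κ X} =
      Nat.card ({x : (ZMod p × ZMod p) × (ZMod p × ZMod p) // det x.1 x.2 = κ} ×
        ({z : ZC p k × ZC p k // rZ p k z.2 = κ * rZ p k z.1} ×
          {z : ZC p k × ZC p k // rZ p k z.2 = κ * rZ p k z.1})) := by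
    apply Nat.card_congr
    exact
      { toFun := fun X => (⟨(X.1.1.2.1, X.1.2.2.1), X.2.2.2.1⟩,
          (⟨(X.1.1.1.2, X.1.1.2.2), X.2.2.2.2.1⟩, ⟨(X.1.2.1.2, X.1.2.2.2), X.2.2.2.2.2⟩))
        invFun := fun t => ⟨((((1, 0), t.2.1.1.1), (t.1.1.1, t.2.1.1.2)),
          (((0, 1), t.2.2.1.1), (t.1.1.2, t.2.2.1.2))),
          ⟨rfl, rfl, t.1.2, t.2.1.2, t.2.2.2⟩⟩
        left_inv := fun X => by
          apply Subtype.ext
          have h3 : X.1.1.1.1 = ((1, 0) : ZMod p × ZMod p) := X.2.1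
          have h4 : X.1.2.1.1 = ((0, 1) : ZMod p × ZMod p) := X.2.2.1
          apply Prod.ext
          · apply Prod.ext
            · apply Prod.ext
              · exact h3.symm
              · rfl
            · rfl
          · apply Prod.ext
            · apply Prod.ext
              · exact h4.symm
              · rfl
            · rfl
        right_inv := fun t => rfl }
  rw [h2, Nat.card_prod, Nat.card_prod, card_det hκ, h1, sq (p ^ (2 * k + 3))]

theorem card_cond3C (κ : ZMod p) :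
    Nat.card {X : BC p k × BC p k // (CC p k).Cond3 κ X} = (p ^ (k + 1)) ^ 2 := by
  have h1 : ∀ a, Nat.card {z : ZC p k // rZ p k z = a} = p ^ (k + 1) := by
    intro a
    have h := card_fiber (rZ p k) (rZ_surj p k) a
    have h' : p ^ (k + 2) = p ^ (k + 1) * p := pow_succ _ _
    rw [card_ZC, h'] at h
    exact Nat.eq_of_mul_eq_mul_right (Fact.out : p.Prime).pos h
  have h2 : Nat.card {X : BC p k × BC p k // (CC p k).Cond3 κ X} =
      Nat.card ({z : ZC p k // rZ p k z = 1} × {z : ZC p k // rZ p k z = κ}) := by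
    apply Nat.card_congr
    exact
      { toFun := fun X => (⟨X.1.1.2, X.2.2.2.1⟩, ⟨X.1.2.2, X.2.2.2.2⟩)
        invFun := fun t => ⟨((0, t.1.1), (0, t.2.1)), ⟨rfl, rfl, t.1.2, t.2.2⟩⟩
        left_inv := fun X => by
          apply Subtype.ext
          have h3 : X.1.1.1 = 0 := X.2.1
          have h4 : X.1.2.1 = 0 := X.2.2.1
          apply Prod.ext
          · exact Prod.ext h3.symm rfl
          · exact Prod.ext h4.symm rfl
        right_inv := fun t => rfl }
  rw [h2, Nat.card_prod, h1, h1, sq]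

/-- the number of closed non-isotropic graphs with given `κ` -/
theorem card_SKC {κ : ZMod p} (hκ : κ ≠ 0) :
    (Nat.card {S : AddSubgroup (BC p k × BC p k) // (CC p k).SK κ S} : ℚ) =
      ∑ t ∈ Finset.range (k + 1), (PP p t k) ^ 2 / (PP p t t) * (p : ℚ) ^ t *
        ((((p : ℚ) ^ 2 - 1) * p * (p ^ (2 * k + 3)) ^ 2) / (p * p ^ t) ^ 2 +
          (p ^ (k + 1)) ^ 2 / (p * p ^ t) *
            ((((p : ℚ) ^ 2 - 1) * p * (p ^ (2 * k + 3)) ^ 2) / (p * (p * p ^ t)) ^ 2)) := by
  have i1 : Fintype {T : AddSubgroup (BC p k × BC p k) // (CC p k).TK κ T} := Fintype.ofFinite _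
  have i2 : Fintype {T : AddSubgroup (BC p k × BC p k) // (CC p k).TK0 κ T} := Fintype.ofFinite _
  let eI : CV.Idx p (Fin k → ZMod p) ≃
    {T : AddSubgroup (BC p k × BC p k) // (CC p k).TK0 κ T} := (KC p k).idxEquiv hκ
  have i3 : Fintype (CV.Idx p (Fin k → ZMod p)) := Fintype.ofEquiv _ eI.symm
  have hA : (Nat.card {X : (BC p k × BC p k) × (BC p k × BC p k) // (CC p k).Cond κ X} : ℚ) =
      ((p : ℚ) ^ 2 - 1) * p * (p ^ (2 * k + 3)) ^ 2 := by
    rw [card_condC p k hκ]
    have : 1 ≤ p ^ 2 := Nat.one_le_pow _ _ (Fact.out : p.Prime).pos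
    push_cast [Nat.cast_sub this]
    ring
  have h3 : (Nat.card {X : BC p k × BC p k // (CC p k).Cond3 κ X} : ℚ) = (p ^ (k + 1)) ^ 2 := by
    rw [card_cond3C]; push_cast; rfl
  rw [CD.card_SK (CC p k) hκ, hA]
  set A : ℚ := ((p : ℚ) ^ 2 - 1) * p * (p ^ (2 * k + 3)) ^ 2
  rw [CD.sum_TK (CC p k) hκ (fun n => A / (n : ℚ) ^ 2), h3]
  have h4 : ∑ T : {T : AddSubgroup (BC p k × BC p k) // (CC p k).TK0 κ T},
      (A / ((Nat.card T.1 : ℕ) : ℚ) ^ 2 + ((p : ℚ) ^ (k + 1)) ^ 2 / (Nat.card T.1 : ℚ) *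
        (A / ((p * Nat.card T.1 : ℕ) : ℚ) ^ 2)) =
      ∑ t : CV.Idx p (Fin k → ZMod p), (A / ((p * Nat.card t.1 : ℕ) : ℚ) ^ 2 +
        ((p : ℚ) ^ (k + 1)) ^ 2 / ((p * Nat.card t.1 : ℕ) : ℚ) *
        (A / ((p * (p * Nat.card t.1) : ℕ) : ℚ) ^ 2)) := by
    symm
    apply Fintype.sum_equiv eI
    intro t
    have h5 : Nat.card (eI t).1 = p * Nat.card t.1 := (KC p k).card_mkT κ t
    rw [h5]
  rw [h4]
  have h6 := sum_idx (p := p) (V := Fin k → ZMod p) (fun n => A / ((p * n : ℕ) : ℚ) ^ 2 +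
        ((p : ℚ) ^ (k + 1)) ^ 2 / ((p * n : ℕ) : ℚ) *
        (A / ((p * (p * n) : ℕ) : ℚ) ^ 2))
  rw [h6]
  have hfr : Module.finrank (ZMod p) (Fin k → ZMod p) = k := by simp
  rw [hfr]
  apply Finset.sum_congr rfl
  intro t _
  push_cast
  rfl

/-- linear map of the plane -/
def lin (u v : ZMod p × ZMod p) : ZMod p × ZMod p →+ ZMod p × ZMod p :=
  AddMonoidHom.mk' (fun x => (x.1 * u.1 + x.2 * v.1, x.1 * u.2 + x.2 * v.2)) (by
    intro x y
    apply Prod.ext
    · simp only [Prod.fst_add, Prod.snd_add]; ring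
    · simp only [Prod.fst_add, Prod.snd_add]; ring)

lemma lin_apply (u v x : ZMod p × ZMod p) :
    lin p u v x = (x.1 * u.1 + x.2 * v.1, x.1 * u.2 + x.2 * v.2) := rfl

lemma hom_F_plane (f : ZMod p →+ ZMod p × ZMod p) (a : ZMod p) :
    f a = (a * (f 1).1, a * (f 1).2) := by
  have h1 : f a = a.val • f 1 := by
    rw [← map_nsmul, nsmul_eq_mul, mul_one, ZMod.natCast_val, ZMod.cast_id]
  rw [h1]
  apply Prod.ext
  · rw [Prod.smul_fst, nsmul_eq_mul, ZMod.natCast_val, ZMod.cast_id]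
  · rw [Prod.smul_snd, nsmul_eq_mul, ZMod.natCast_val, ZMod.cast_id]

/-- plane valued maps multiplying the area by a nonzero constant -/
theorem card_scale {X : Type} [AddCommGroup X] {m : ZMod p} (hm : m ≠ 0) :
    Nat.card {g : (ZMod p × ZMod p) × X →+ ZMod p × ZMod p //
      ∀ x y, det (g x) (g y) = det x.1 y.1 * m} = (p ^ 2 - 1) * p := by
  rw [← card_det hm]
  apply Nat.card_congr
  have hl : ∀ g : (ZMod p × ZMod p) × X →+ ZMod p × ZMod p,
      (∀ x y, det (g x) (g y) = det x.1 y.1 * m) →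
      ∀ x, g x = lin p (g ((1, 0), 0)) (g ((0, 1), 0)) x.1 := by
    intro g hg x
    have h0 : det (g ((1, 0), 0)) (g ((0, 1), 0)) ≠ 0 := by
      rw [hg]
      simpa [det] using hm
    have hz : g ((0, 0), x.2) = 0 := by
      apply CD.vec_zero h0
      · rw [hg]; simp [det]
      · rw [hg]; simp [det]
    have hx : x = (((x.1.1, 0), 0) : (ZMod p × ZMod p) × X) + ((0, x.1.2), 0) + ((0, 0), x.2) := by
      apply Prod.ext
      · apply Prod.ext
        · simp
        · simp
      · simp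
    have h1 := hom_F_plane p (g.comp ((AddMonoidHom.inl _ X).comp (AddMonoidHom.inl _ (ZMod p)))) x.1.1
    have h2 := hom_F_plane p (g.comp ((AddMonoidHom.inl _ X).comp (AddMonoidHom.inr (ZMod p) _))) x.1.2
    simp only [AddMonoidHom.comp_apply, AddMonoidHom.inl_apply, AddMonoidHom.inr_apply] at h1 h2
    have e : g x = g (((x.1.1, 0), 0) : (ZMod p × ZMod p) × X) + g ((0, x.1.2), 0) +
        g ((0, 0), x.2) := by
      conv_lhs => rw [hx]
      rw [map_add, map_add]
    rw [e, h1, h2, hz, add_zero, lin_apply]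
    rfl
  exact
    { toFun := fun g => ⟨(g.1 ((1, 0), 0), g.1 ((0, 1), 0)), by
        show det (g.1 ((1, 0), 0)) (g.1 ((0, 1), 0)) = m
        rw [g.2]; simp [det]⟩
      invFun := fun u => ⟨(lin p u.1.1 u.1.2).comp (AddMonoidHom.fst _ _), by
        intro x y
        have h := u.2
        simp only [AddMonoidHom.comp_apply, AddMonoidHom.coe_fst, lin_apply]
        simp only [det] at h ⊢
        linear_combination (x.1.1 * y.1.2 - x.1.2 * y.1.1) * h⟩
      left_inv := fun g => by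
        apply Subtype.ext
        apply AddMonoidHom.ext
        intro x
        exact (hl g.1 g.2 x).symm
      right_inv := fun u => by
        apply Subtype.ext
        apply Prod.ext
        · simp [lin_apply]
        · simp [lin_apply] }

/-- the special element -/
def x0 : BC p k := ((0, 0), (1, 0))

lemma lam_x0 : (CC p k).lam (x0 p k) = 1 := by
  rw [lam_eq]
  show rho p (1 : ZMod (p ^ 2)) = 1
  have := rho_natCast (p := p) 1
  simpa using this

lemma homBZ : Nat.card (BC p k →+ ZC p k) = p ^ (k + 2) * (p ^ (k + 1)) ^ (k + 2) := by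
  rw [card_hom_prod, card_hom_prod, card_hom_F, hZZ, card_torZC]
  ring

lemma homBF : Nat.card (BC p k →+ ZMod p) = p ^ (k + 3) := by
  rw [card_hom_prod, card_hom_prod, card_hom_F, hom_ZC p k (exp_sq smul_F), card_tor_F,
    Nat.card_zmod]
  ring

/-- endomorphism count -/
theorem card_endC :
    Nat.card {g : BC p k →+ BC p k // ∀ x y, g ((CC p k).L.br x y) = (CC p k).L.br (g x) (g y)} * p =
      (p ^ (k + 2) * (p ^ (k + 1)) ^ (k + 2)) *
        (p ^ (k + 3) + (p ^ (k + 3) - 1) * p + (p - 1) * ((p ^ 2 - 1) * p)) := by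
  classical
  have : Finite (BC p k →+ ZC p k) := DFunLike.finite _
  have : Finite (BC p k →+ ZMod p × ZMod p) := DFunLike.finite _
  have i1 : Fintype (BC p k →+ ZC p k) := Fintype.ofFinite _
  let μ : (BC p k →+ ZC p k) →+ ZMod p :=
    AddMonoidHom.mk' (fun g => rho p (g (x0 p k)).1) (by
      intro a b
      rw [AddMonoidHom.add_apply, Prod.fst_add, map_add])
  have hμ : ∀ g, μ g = rho p (g (x0 p k)).1 := fun g => rfl
  have hμs : Surjective μ := by
    intro a
    obtain ⟨r, hr⟩ := rho_surj (p := p) a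
    refine ⟨(((AddMonoidHom.mulLeft r).comp (AddMonoidHom.fst _ _)).prod
      (0 : ZC p k →+ (Fin k → ZMod p))).comp (AddMonoidHom.snd _ _), ?_⟩
    rw [hμ]
    show rho p (r * 1) = a
    rw [mul_one, hr]
  have h1 : Nat.card {g : BC p k →+ BC p k //
      ∀ x y, g ((CC p k).L.br x y) = (CC p k).L.br (g x) (g y)} =
      Nat.card (Σ gZ : BC p k →+ ZC p k, {gW : BC p k →+ ZMod p × ZMod p //
        ∀ x y, det (gW x) (gW y) = det x.1 y.1 * μ gZ}) := by
    apply Nat.card_congr
    exact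
      { toFun := fun g => ⟨(AddMonoidHom.snd _ _).comp g.1, ⟨(AddMonoidHom.fst _ _).comp g.1,
          ((CC p k).compat_iff (lam_x0 p k) g.1).1 g.2⟩⟩
        invFun := fun t => ⟨t.2.1.prod t.1,
          ((CC p k).compat_iff (lam_x0 p k) (t.2.1.prod t.1)).2 t.2.2⟩
        left_inv := fun g => rfl
        right_inv := fun t => rfl }
  have h2 : ∀ m : ZMod p, Nat.card {gW : BC p k →+ ZMod p × ZMod p //
        ∀ x y, det (gW x) (gW y) = det x.1 y.1 * m} =
        if m = 0 then p ^ (k + 3) + (p ^ (k + 3) - 1) * p else (p ^ 2 - 1) * p := by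
    intro m
    by_cases hm : m = 0
    · rw [if_pos hm, hm]
      simp only [mul_zero]
      rw [card_rank_le_one, homBF]
    · rw [if_neg hm]
      exact card_scale p hm
  rw [h1, Nat.card_sigma, Finset.sum_congr rfl (fun g _ => h2 (μ g))]
  have h3 : ∑ g : BC p k →+ ZC p k,
      (if μ g = 0 then p ^ (k + 3) + (p ^ (k + 3) - 1) * p else (p ^ 2 - 1) * p) =
      ∑ m : ZMod p, Nat.card {g // μ g = m} *
        (if m = 0 then p ^ (k + 3) + (p ^ (k + 3) - 1) * p else (p ^ 2 - 1) * p) := by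
    rw [← Finset.sum_fiberwise (s := Finset.univ) (g := μ)]
    apply Finset.sum_congr rfl
    intro m _
    rw [Finset.sum_congr rfl (g := fun _ =>
      (if m = 0 then p ^ (k + 3) + (p ^ (k + 3) - 1) * p else (p ^ 2 - 1) * p))]
    · rw [Finset.sum_const, smul_eq_mul, Nat.card_eq_fintype_card, Fintype.card_subtype]
    · intro g hg
      rw [Finset.mem_filter] at hg
      rw [hg.2]
  rw [h3, Finset.sum_mul]
  have h4 : ∀ m : ZMod p, Nat.card {g // μ g = m} *
        (if m = 0 then p ^ (k + 3) + (p ^ (k + 3) - 1) * p else (p ^ 2 - 1) * p) * p =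
        (p ^ (k + 2) * (p ^ (k + 1)) ^ (k + 2)) *
        (if m = 0 then p ^ (k + 3) + (p ^ (k + 3) - 1) * p else (p ^ 2 - 1) * p) := by
    intro m
    rw [mul_right_comm, card_fiber μ hμs m, homBZ]
  rw [Finset.sum_congr rfl (fun m _ => h4 m), ← Finset.mul_sum]
  congr 1
  rw [Finset.sum_ite, Finset.sum_const, Finset.sum_const]
  have h5 : (Finset.univ.filter (fun m : ZMod p => m = 0)).card = 1 := by
    rw [Finset.card_eq_one]
    exact ⟨0, by ext a; simp⟩
  have h6 : (Finset.univ.filter (fun m : ZMod p => ¬ m = 0)).card = p - 1 := by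
    have h7 := Finset.card_filter_add_card_filter_not (s := (Finset.univ : Finset (ZMod p)))
      (fun m => m = 0)
    rw [h5, Finset.card_univ, ZMod.card] at h7
    omega
  rw [h5, h6, one_smul, smul_eq_mul]

end TC

end H130
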