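import Mathlib
import Pool.Agent.Helper130_piso.TypeC

/-!
The special piece `C_25 ∘ 5^{1+2} × C_5^4` of order `5^8`.
-/

namespace H130

open Function TC

namespace TC

lemma half {p k : ℕ} (m : ℕ) (hm : m * 2 = p ^ 2 + 1) [Fact p.Prime] (b : BC p k) :
    m • (2 • b) = b := by
  rw [← mul_smul, hm, add_smul, one_smul]
  have : (p ^ 2) • b = 0 := by
    apply Prod.ext
    · exact exp_sq (fun y : ZMod p × ZMod p => Prod.ext (smul_F y.1) (smul_F y.2)) b.1
    · exact ZC_exp p k b.2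
  rw [this, zero_add]

lemma det_five : det ((1, 0) : ZMod 5 × ZMod 5) (0, 1) ≠ det ((0, 1) : ZMod 5 × ZMod 5) (1, 0) := by
  decide

instance fact5 : Fact (Nat.Prime 5) := ⟨by norm_num⟩

lemma nonab5 : ∃ a b : (CC 5 4).L.Grp, a * b ≠ b * a := by
  refine ⟨⟨((1, 0), 0)⟩, ⟨((0, 1), 0)⟩, ?_⟩
  intro h
  have h1 := congrArg LieD.Grp.val h
  rw [LieD.mul_val, LieD.mul_val] at h1
  have h2 := congrArg (fun x : BC 5 4 => x.2.1) h1
  have h3 : iot 5 (det ((1, 0) : ZMod 5 × ZMod 5) (0, 1)) =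
      iot 5 (det ((0, 1) : ZMod 5 × ZMod 5) (1, 0)) := by
    have h4 : (0 : ZMod (5 ^ 2)) + 0 + iot 5 (det ((1, 0) : ZMod 5 × ZMod 5) (0, 1)) =
      0 + 0 + iot 5 (det ((0, 1) : ZMod 5 × ZMod 5) (1, 0)) := h2
    rwa [add_zero, zero_add, zero_add] at h4
  exact det_five (iot_inj h3)

lemma end5 : Nat.card {g : BC 5 4 →+ BC 5 4 //
    ∀ x y, g ((CC 5 4).L.br x y) = (CC 5 4).L.br (g x) (g y)} =
    1365624484606087207794189453125 := by
  have h := card_endC 5 4
  have h2 : ((5 : ℕ) ^ (4 + 2) * (5 ^ (4 + 1)) ^ (4 + 2)) *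
        (5 ^ (4 + 3) + (5 ^ (4 + 3) - 1) * 5 + (5 - 1) * ((5 ^ 2 - 1) * 5)) =
        1365624484606087207794189453125 * 5 := by norm_num
  rw [h2] at h
  exact Nat.eq_of_mul_eq_mul_right (by norm_num) h

lemma sk5 (κ : {κ : ZMod 5 // κ ≠ 0}) :
    Nat.card {S : AddSubgroup (BC 5 4 × BC 5 4) // (CC 5 4).SK κ.1 S} =
      2792850136756896972656250000 := by
  have h := card_SKC 5 4 κ.2
  have h1 : ((Nat.card {S : AddSubgroup (BC 5 4 × BC 5 4) // (CC 5 4).SK κ.1 S} : ℕ) : ℚ) =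
      ((2792850136756896972656250000 : ℕ) : ℚ) := by
    rw [h]
    simp only [Finset.sum_range_succ, PP, Finset.prod_range_succ, Finset.range_zero,
      Finset.sum_empty, Finset.prod_empty]
    norm_num
  exact_mod_cast h1

lemma iso5 : Nat.card {S : AddSubgroup (BC 5 4 × BC 5 4) // ALike S ∧ (CC 5 4).Iso1 S ∧
    (CC 5 4).Iso2 S} = 2619065381586551666259765625 := by
  have h := card_isoC 5 4
  have h1 : ((Nat.card {S : AddSubgroup (BC 5 4 × BC 5 4) // ALike S ∧ (CC 5 4).Iso1 S ∧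
    (CC 5 4).Iso2 S} : ℕ) : ℤ) = ((2619065381586551666259765625 : ℕ) : ℤ) := by
    rw [h]
    norm_num
  exact_mod_cast h1

theorem goodC : Good (5 ^ 8) 1365624484606087207794189453125 13790465928614139556884765625 := by
  have hm : ∀ b : BC 5 4, 13 • (2 • b) = b := half 13 (by norm_num)
  refine ⟨(CC 5 4).L.Grp, inferInstance, inferInstance, nonab5, ?_, ?_, ?_⟩
  · rw [Nat.card_congr (CC 5 4).L.eqv, Nat.card_prod, card_ZC, Nat.card_prod, Nat.card_zmod]
    norm_num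
  · rw [LieD.card_end (CC 5 4).L 13 hm]
    exact end5
  · rw [LieD.card_glike (CC 5 4).L 13 hm, (CC 5 4).card_split, iso5,
      Finset.sum_congr rfl (fun κ _ => sk5 κ), Finset.sum_const, Finset.card_univ,
      Fintype.card_subtype_compl, ZMod.card, Fintype.card_subtype_eq, smul_eq_mul]

end TC

end H130
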